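import Pool.Agent.P.MP_af6acb_co.Reg.Base

/-!
The intermediate statements.
-/

namespace Pool.Agent.P.MP_af6acb_co.Reg

open Finset Module

/-! ### Constructions -/

-- deps:
def S_GLA : Prop := ∀ (ι κ : Type) [DecidableEq ι] [DecidableEq κ] (V T : Finset ι)
  (W T' : Finset κ) (R : Submodule ℝ (ι → ℝ)) (S : Submodule ℝ (κ → ℝ)) [FiniteDimensional ℝ R]
  [FiniteDimensional ℝ S], rk R V = 5 → rk S W = 5 → T ∈ faces V R 4 → T.card = 4 →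
  T' ∈ faces W S 4 → T'.card = 4 →
  ∃ (Q : Submodule ℝ (ι ⊕ κ → ℝ)) (_ : FiniteDimensional ℝ Q) (g : κ → ι ⊕ κ) (η : ι ⊕ κ → ℝ),
    finrank ℝ Q ≤ 5 ∧ Transp V R Q Sum.inl (fun _ => 1) ∧ Transp W S Q g (fun _ => 1) ∧
    T'.image g = T.image Sum.inl ∧ η ∈ Q ∧ (∀ t ∈ T, η (Sum.inl t) = 0) ∧
    (∀ v ∈ V, v ∉ T → 0 < η (Sum.inl v)) ∧ (∀ w ∈ W, w ∉ T' → η (g w) < 0) ∧
    (∀ X, IsFace V R X → ¬ T ⊆ X →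
      IsFace (V.image Sum.inl ∪ W.image g) Q (X.image Sum.inl)) ∧
    ∀ Y, IsFace W S Y → ¬ T' ⊆ Y → IsFace (V.image Sum.inl ∪ W.image g) Q (Y.image g)

-- deps: GLA
def S_ADD : Prop := ∀ h j K h' j' K' : ℕ, Hat h j K → Hat h' j' K' →
  Hat (h + h') (j + j') (K + K')

-- deps:
def S_CYC : Prop := ∀ m : ℕ, 1 ≤ m → Hat (m.choose 2) 0 (m.choose 2 + 2 * m + 2)

-- deps:
def S_PYR : Prop := Hat 2 1 5

-- deps: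
def S_GST : Prop := ∀ (ι : Type) [DecidableEq ι] (V : Finset ι) (R : Submodule ℝ (ι → ℝ))
  [FiniteDimensional ℝ R], IsPoly V R → rk R V = 5 → ∀ F ∈ faces V R 4,
  ∃ (Q : Submodule ℝ (Option ι → ℝ)) (_ : FiniteDimensional ℝ Q),
    IsPoly (insert none (V.image some)) Q ∧ rk Q (insert none (V.image some)) = 5 ∧
    Transp V R Q some (fun _ => 1) ∧ ∀ X, IsFace V R X → ¬ F ⊆ X →
      IsFace (insert none (V.image some)) Q (X.image some) ∧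
      (X ⊆ F → IsFace (insert none (V.image some)) Q (insert none (X.image some)))

-- deps: GST
def S_GS2 : Prop := ∀ a b c d : ℕ, Conf a b c d →
  ∃ b' c' d' : ℕ, SF (a + 2) b' c' d' ∧ b ≤ b' ∧ d' ≤ d + 4 * a + 2

-- deps:
-- imports: Pool.Agent.P.MP_af6acb_co.Fat.All
def S_FATV : Prop := ∀ φ M : ℝ, φ < 10 →
  ∃ a b c d : ℕ, Conf a b c d ∧ M * a + (φ - 1) * d ≤ 2 * b

-- deps: FATV GS2
def S_FATB : Prop := ∀ δ : ℝ, 0 < δ → ∃ H p q : ℕ, Hat H p q ∧ Hat H q p ∧ 0 < p ∧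
  (3 - δ) * p + q ≤ H ∧ (15 / 8 - δ) * (p + q) ≤ H

-- deps: ADD CYC
def S_SIMP : Prop := ∀ η : ℝ, 0 < η → ∃ C : ℝ, ∀ s : ℕ, ∃ κ : ℕ, Hat s 0 κ ∧
  (κ : ℝ) ≤ s + 2 * (1 + η) * √(2 * (s : ℝ)) + C

-- deps:
def S_LP : Prop := ∀ ε : ℝ, 0 < ε → ε ≤ 1 → ∀ (H p q : ℕ) (c D : ℝ), 0 < p → 0 ≤ c → 0 ≤ D →
  (3 - ε / 2) * p + q ≤ H → (15 / 8 - ε / 2) * (p + q) ≤ H →
  ∃ C : ℝ, ∀ h j k : ℕ, j ≤ k → (h : ℝ) ≤ (15 / 8 - ε) * (j + k) + D →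
    h + ε * j + c * √(k : ℝ) + C ≤ 3 * j + k →
    ∃ a b s : ℕ, h = (a + b) * H + s ∧ a * p + b * q ≤ j ∧
      (a * q + b * p + s : ℝ) + c * √(k : ℝ) + D ≤ k

-- deps: ADD CYC PYR FATB SIMP LP
def S_SUF : Prop := ∀ ε : ℝ, 0 < ε → ε ≤ 1 → ∃ C : ℝ, ∀ h j k : ℕ, j ≤ k → (h + j + k) % 2 = 0 →
  ¬ (h = 0 ∧ j % 2 = 1) → ¬ (h = 1 ∧ (j = 1 ∨ j = 3)) → (h : ℝ) ≤ (15 / 8 - ε) * (j + k) + 10 →
  h + ε * j + 2 * (1 + ε) * √(2 * (k : ℝ)) + C ≤ 3 * j + k → Hat h j (k + 4)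

/-! ### Necessity -/

-- deps:
def S_RB : Prop := ∀ (ι : Type) [DecidableEq ι] (V : Finset ι) (R : Submodule ℝ (ι → ℝ))
  [FiniteDimensional ℝ R], IsPoly V R → rk R V = 4 →
  ∀ σ ∈ faces V R 3, σ.card + 1 ≤ (faces V R 3).card

-- deps: RB
def S_KEY : Prop := ∀ (ι : Type) [DecidableEq ι] (V : Finset ι) (R : Submodule ℝ (ι → ℝ))
  [FiniteDimensional ℝ R], IsPoly V R → rk R V = 5 →
  ∀ F ∈ faces V R 4, F.card + 2 * (faces V R 4).card ≤ (faces V R 3).card + 4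

-- deps: KEY
def S_J1 : Prop := ∀ a b c d : ℕ, Conf a b c d →
  2 * d ≤ c ∧ (c = 2 * d + 1 → 5 * (a + d) + 2 ≤ 2 * (b + c) + 10)

-- deps: RB
def S_PRISM : Prop := ∀ (ι : Type) [DecidableEq ι] (V : Finset ι) (R : Submodule ℝ (ι → ℝ))
  [FiniteDimensional ℝ R], IsPoly V R → rk R V = 4 → V.card = 6 → (faces V R 3).card = 5 →
  (big V R).card = 3 ∧ (∀ σ ∈ big V R, σ.card = 4) ∧
    ∀ w ∈ V, mult (big V R) w = 2 ∧ (nbr V R w).card = 3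

-- deps: RB
def S_ODD : Prop := ∀ (ι : Type) [DecidableEq ι] (V : Finset ι) (R : Submodule ℝ (ι → ℝ))
  [FiniteDimensional ℝ R], IsPoly V R → rk R V = 4 →
  (V.card = 5 ∧ (faces V R 3).card = 5 ∨
    V.card = 7 ∧ (faces V R 3).card = 6 ∧ ∀ σ ∈ faces V R 3, σ.card ≤ 4) →
  ∃ w ∈ V, mult (big V R) w % 2 = 1

-- deps: RB KEY PRISM ODD
def S_RED : Prop := ∀ (ι : Type) [DecidableEq ι] (V : Finset ι) (R : Submodule ℝ (ι → ℝ))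
  [FiniteDimensional ℝ R], IsPoly V R → rk R V = 5 →
  2 * ((faces V R 2).card + (faces V R 3).card) + 10 = 5 * (V.card + (faces V R 4).card) + 1 →
  (faces V R 3).card = 2 * (faces V R 4).card + 3 →
  Six V R ∧ (faces V R 2).card + ∑ σ ∈ faces V R 3, σ.card + 9 =
    4 * V.card + 3 * (faces V R 3).card

-- deps:
def S_SPA : Prop := ∀ (ι : Type) [DecidableEq ι] (V : Finset ι) (R : Submodule ℝ (ι → ℝ))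
  [FiniteDimensional ℝ R], ∀ (U : Finset ι) (Rows : Finset (Finset ι)),
  rk R V = 5 → U ⊆ V → rk R U = 5 →
  (∀ b : ι → ι → ℝ, (∀ u, b u ∈ R) → (∀ r ∈ Rows, str b r = 0) → Anti b V) →
  (Rows.filter (fun r => r ⊆ U)).card + 5 * V.card ≤ 5 * U.card + Rows.card

-- deps: SPA
def S_SPB : Prop := ∀ (ι : Type) [DecidableEq ι] (V : Finset ι) (R : Submodule ℝ (ι → ℝ))
  [FiniteDimensional ℝ R], ∀ U : Finset ι, IsPoly V R → rk R V = 5 → U ⊆ V → rk R U = 5 →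
  ((faces V R 2).filter (fun e => e ⊆ U)).card + ((big V R).filter (fun σ => σ ⊆ U)).card +
    4 * V.card + 3 * (faces V R 3).card ≤
    4 * U.card + (faces V R 2).card + ∑ σ ∈ faces V R 3, σ.card

-- deps: PRISM
def S_ADJ : Prop := ∀ (ι : Type) [DecidableEq ι] (V : Finset ι) (R : Submodule ℝ (ι → ℝ))
  [FiniteDimensional ℝ R], Six V R →
  (big V R).card = 9 ∧ (∀ σ ∈ big V R, σ ⊆ (pr V R).biUnion id) ∧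
    ∀ A ∈ pr V R, (adj V R A).card = 3 ∧ (∀ B ∈ adj V R A, (A ∩ B).card = 4) ∧
      ∀ v ∈ A, mult (adj V R A) v = 2

-- deps: PRISM
def S_THIRD : Prop := ∀ (ι : Type) [DecidableEq ι] (V : Finset ι) (R : Submodule ℝ (ι → ℝ))
  [FiniteDimensional ℝ R], Six V R → ∀ A ∈ pr V R, ∀ v ∈ A,
  (∀ F ∈ faces V R 4, v ∈ F → F.card = 6) →
  ∃ Z ∈ pr V R, v ∈ Z ∧ Z ≠ A ∧ Z ∉ adj V R A ∧ ∀ B ∈ adj V R A, ¬ A ∩ Z ⊆ B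

-- deps: SPB ADJ
def S_SUMT : Prop := ∀ (ι : Type) [DecidableEq ι] (V : Finset ι) (R : Submodule ℝ (ι → ℝ))
  [FiniteDimensional ℝ R], Six V R →
  (faces V R 2).card + ∑ σ ∈ faces V R 3, σ.card + 9 = 4 * V.card + 3 * (faces V R 3).card →
  ∑ v ∈ (pr V R).biUnion id, (dg V R v + mult (pr V R) v) ≤ 8 * ((pr V R).biUnion id).card

-- deps: PRISM
def S_MD : Prop := ∀ (ι : Type) [DecidableEq ι] (V : Finset ι) (R : Submodule ℝ (ι → ℝ))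
  [FiniteDimensional ℝ R], Six V R → ∀ v ∈ V,
  mult (pr V R) v ≤ (dg V R v).choose 3 ∧ (mult (pr V R) v = 4 → dg V R v = 4 →
    nbr V R v ⊆ (pr V R).biUnion id ∧ ∀ F ∈ faces V R 4, v ∈ F → F.card = 6)

-- deps:
def S_LOC : Prop := ∀ (ι : Type) [DecidableEq ι] (P : Finset (Finset ι))
  (N : Finset ι → Finset (Finset ι)) (G : ι → Prop), P.card = 6 →
  (∀ A ∈ P, N A ⊆ P ∧ A ∉ N A ∧ (N A).card = 3 ∧ (∀ B ∈ N A, A ∈ N B) ∧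
    ∀ v ∈ A, mult (N A) v = 2) →
  (∀ v, G v → mult P v = 4 ∧ ∀ A ∈ P, v ∈ A →
    ∃ Z ∈ P, v ∈ Z ∧ Z ≠ A ∧ Z ∉ N A ∧ ∀ B ∈ N A, ¬ A ∩ Z ⊆ B) →
  ∀ A ∈ P, ∀ w ∈ A, mult P w = 3 → ∃ B ∈ N A, ∀ v ∈ A ∩ B, mult P v ≠ 3 ∧ ¬ G v

-- deps:
def S_WT : Prop := ∀ (ι : Type) [DecidableEq ι] (P : Finset (Finset ι))
  (N : Finset ι → Finset (Finset ι)) (d : ι → ℕ), P.card = 6 →
  (∀ A ∈ P, A.card = 6 ∧ N A ⊆ P ∧ A ∉ N A ∧ (∀ B ∈ N A, (A ∩ B).card = 4) ∧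
    ∀ v ∈ A, mult (N A) v = 2) →
  (∀ v ∈ P.biUnion id, mult P v ≤ (d v).choose 3) →
  (∀ A ∈ P, ∀ w ∈ A, mult P w = 3 →
    ∃ B ∈ N A, ∀ v ∈ A ∩ B, mult P v ≠ 3 ∧ ¬ (mult P v = 4 ∧ d v = 4)) →
  ∑ v ∈ P.biUnion id, (d v + mult P v) ≤ 8 * (P.biUnion id).card →
  ∀ v ∈ P.biUnion id, mult P v = 4 ∧ d v = 4

-- deps: RED ADJ THIRD SUMT MD LOC WT
def S_J3 : Prop := ∀ a b c d : ℕ, Conf a b c d → 2 * (b + c) + 10 = 5 * (a + d) + 1 →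
  c = 2 * d + 3 → a ≤ 36

/-! ### The theorem -/

-- deps: J1 J3 SUF
def S_MAIN : Prop := ∀ ε : ℝ, 0 < ε → ∃ C : ℝ, ∀ f : Fin 4 → ℤ,
  (f 1 : ℝ) + f 2 ≤ (10 - ε) * (f 0 + f 3) →
  ε * ((f 2 : ℝ) - 2 * f 3) + (1 + ε) * √(2 * (f 1 : ℝ)) + C ≤ f 0 →
  ε * ((f 1 : ℝ) - 2 * f 0) + (1 + ε) * √(2 * (f 2 : ℝ)) + C ≤ f 3 →
  (f ∈ fVectors ↔ f 0 + f 2 = f 1 + f 3 ∧ 2 * f 3 ≤ f 2 ∧ 2 * f 0 ≤ f 1 ∧
    5 * (f 0 + f 3) ≤ 2 * (f 1 + f 2) + 10 ∧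
    ¬ (2 * (f 1 + f 2) + 10 = 5 * (f 0 + f 3) ∧ Odd (f 2)) ∧
    ¬ (2 * (f 1 + f 2) + 10 = 5 * (f 0 + f 3) + 1 ∧
      (f 2 = 2 * f 3 + 1 ∨ f 2 = 2 * f 3 + 3 ∨ f 1 = 2 * f 0 + 1 ∨ f 1 = 2 * f 0 + 3)))

end Pool.Agent.P.MP_af6acb_co.Reg
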