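import Pool.Agent.P.MP_af6acb_co.Reg.Iface2
import Pool.Agent.P.MP_af6acb_co.Reg.Iface

/-! Simplicial blocks. -/

set_option autoImplicit false
set_option linter.unusedSectionVars false
set_option linter.unusedVariables false

namespace Pool.Agent.P.MP_af6acb_co.Reg

section


open Finset Module

namespace BLx

open Polynomial

/-- Evaluation at the natural numbers and at one further point. -/
noncomputable def L (ε γ : ℝ) : ℝ[X] →ₗ[ℝ] (Option ℕ → ℝ) where
  toFun p o := o.elim (p.eval 0 + p.eval 1 + ε * (p.eval 2 / 2 - γ * p.coeff 4))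
    (fun i => p.eval (i : ℝ))
  map_add' p q := by funext o; cases o <;> simp; ring
  map_smul' s p := by funext o; cases o <;> simp; ring

/-- The space of functions. -/
noncomputable def Q (ε γ : ℝ) : Submodule ℝ (Option ℕ → ℝ) := (degreeLT ℝ 5).map (L ε γ)

instance finLT : FiniteDimensional ℝ (degreeLT ℝ 5) :=
  (degreeLTEquiv ℝ 5).symm.finiteDimensional

instance finQ (ε γ : ℝ) : FiniteDimensional ℝ (Q ε γ) := by unfold Q; infer_instance

variable {ε γ : ℝ}

lemma Ls (p : ℝ[X]) (i : ℕ) : L ε γ p (some i) = p.eval (i : ℝ) := rfl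

lemma Ln (p : ℝ[X]) :
    L ε γ p none = p.eval 0 + p.eval 1 + ε * (p.eval 2 / 2 - γ * p.coeff 4) := rfl

lemma memQ {p : ℝ[X]} (h : p.natDegree ≤ 4) : L ε γ p ∈ Q ε γ :=
  Submodule.mem_map_of_mem (mem_degreeLT.2 (lt_of_le_of_lt (degree_le_of_natDegree_le h)
    (by exact_mod_cast (by norm_num : 4 < 5))))

lemma rk_le (Y : Finset (Option ℕ)) : rk (Q ε γ) Y ≤ 5 := by
  have h1 := rk_add (R := Q ε γ) Y
  have h2 : finrank ℝ (Q ε γ) ≤ finrank ℝ (degreeLT ℝ 5) := Submodule.finrank_map_le _ _
  rw [(degreeLTEquiv ℝ 5).finrank_eq] at h2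
  simp only [finrank_fintype_fun_eq_card, Fintype.card_fin] at h2
  omega

/-- The monic polynomial with the given roots. -/
noncomputable def nd (B : Finset ℕ) : ℝ[X] := ∏ b ∈ B, (X - C (b : ℝ))

lemma nd_deg (B : Finset ℕ) : (nd B).natDegree = B.card :=
  natDegree_finsetProd_X_sub_C_eq_card _ _

lemma nd_eval (B : Finset ℕ) (x : ℝ) : (nd B).eval x = ∏ b ∈ B, (x - b) := by
  simp [nd, eval_prod]

lemma nd_zero {B : Finset ℕ} {i : ℕ} : (nd B).eval (i : ℝ) = 0 ↔ i ∈ B := by
  rw [nd_eval, prod_eq_zero_iff]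
  exact ⟨fun ⟨b, hb, h⟩ => by
    have : i = b := by exact_mod_cast sub_eq_zero.1 h
    rwa [this], fun h => ⟨i, h, sub_self _⟩⟩

lemma step {B : Finset ℕ} (h : B.card ≤ 4) {o : Option ℕ} (ho : L ε γ (nd B) o ≠ 0) :
    rk (Q ε γ) (B.image some) < rk (Q ε γ) (insert o (B.image some)) :=
  rk_lt (subset_insert _ _) (memQ ((nd_deg B).trans_le h)) (fun x hx => by
    obtain ⟨i, hi, rfl⟩ := mem_image.1 hx
    exact nd_zero.2 hi) (mem_insert_self _ _) ho

lemma rk_some (B : Finset ℕ) (h : B.card ≤ 5) : B.card ≤ rk (Q ε γ) (B.image some) := by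
  induction B using Finset.induction_on with
  | empty => simp
  | insert u B hu ih =>
    rw [card_insert_of_notMem hu] at h ⊢
    have h1 := ih (by omega)
    have h2 := step (ε := ε) (γ := γ) (B := B) (by omega) (o := some u)
      (fun h0 => hu (nd_zero.1 h0))
    rw [image_insert]
    omega

lemma lead {p : ℝ[X]} (hp : p ∈ degreeLT ℝ 5) {u : ℝ} (hu : 4 ≤ u) :
    p.coeff 4 = p.eval 0 / (2 * u * (u - 1)) - p.eval 1 / ((u - 2) * (u - 1)) +
      p.eval 2 / (2 * (u - 3) * (u - 2)) - p.eval (u - 1) / ((u - 1) * (u - 2) * (u - 3)) +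
      p.eval u / (u * (u - 1) * (u - 2)) := by
  have h : p.natDegree < 5 := by
    by_cases h0 : p = 0
    · simp [h0]
    · exact (natDegree_lt_iff_degree_lt h0).2 (mem_degreeLT.1 hp)
  have h0 : u ≠ 0 := by linarith
  have h1 : u - 1 ≠ 0 := by linarith
  have h2 : u - 2 ≠ 0 := by linarith
  have h3 : u - 3 ≠ 0 := by linarith
  simp only [eval_eq_sum_range' h, sum_range_succ, range_zero, sum_empty]
  field_simp
  ring

lemma consec (x i : ℕ) : (0 : ℝ) ≤ ((x : ℝ) - i) * (x - (i + 1)) := by
  rcases le_or_gt x i with h | h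
  · have : (x : ℝ) ≤ i := by exact_mod_cast h
    nlinarith
  · have : (i : ℝ) + 1 ≤ x := by exact_mod_cast h
    nlinarith

/-- The facet function of `0, 1, i, i + 1`. -/
noncomputable def fc (i : ℕ) : ℝ[X] := X * (X - C 1) * (X - C (i : ℝ)) * (X - C ((i : ℝ) + 1))

lemma fc_deg (i : ℕ) : (fc i).natDegree ≤ 4 := by unfold fc; compute_degree

lemma fc_lead (i : ℕ) : (fc i).coeff 4 = 1 := by unfold fc; compute_degree!

lemma fc_eval (i : ℕ) (x : ℝ) : (fc i).eval x = x * (x - 1) * ((x - i) * (x - (i + 1))) := by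
  simp [fc]; ring

lemma fc_nonneg (i x : ℕ) : 0 ≤ (fc i).eval (x : ℝ) := by
  rw [fc_eval]
  have := consec x 0
  exact mul_nonneg (by simpa using this) (consec x i)

lemma simplicial {ι : Type} [DecidableEq ι] {V : Finset ι} {R : Submodule ℝ (ι → ℝ)}
    [FiniteDimensional ℝ R] (hP : IsPoly V R) (hr : rk R V = 5)
    (hs : ∀ F ∈ faces V R 4, F.card = 4) {h K : ℕ} (h1 : (faces V R 2).card + 4 = K + 2 * V.card)
    (h2 : h + 4 * V.card = (faces V R 2).card + 10) : Hat h 0 K := by
  have h3 := sum_ridges hr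
  rw [sum_congr rfl (g := fun _ => 4) (fun F hF => by
    have := steinitz (hP.sub (mem_faces.1 hF).1.1) (mem_faces.1 hF).2
    have := hs F hF
    omega)] at h3
  simp only [sum_const, smul_eq_mul] at h3
  have h4 := euler4 hP hr
  obtain ⟨F, k1, -, -, k2⟩ := hP.empty.exists_between (isFace_self V R) (empty_subset _) (r := 4)
    (by rw [rk_empty]; omega) (by omega)
  exact ⟨_, _, _, _, ⟨ι, inferInstance, V, R, inferInstance, hP, hr, rfl, rfl, rfl, rfl, F,
    mem_faces.2 ⟨k1, k2⟩, hs F (mem_faces.2 ⟨k1, k2⟩)⟩, by omega, h1, by omega⟩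

end BLx

open BLx Polynomial in
theorem p_BL :
    S_BL := by
  intro m r hm hrm
  obtain ⟨γ, hγ⟩ : ∃ γ : ℝ, γ = ((r : ℝ) + 1) ^ 2 + 1 / 4 := ⟨_, rfl⟩
  have r0 : (0 : ℝ) ≤ r := Nat.cast_nonneg r
  have γ0 : 0 < γ := by rw [hγ]; positivity
  obtain ⟨ε, hε, hpert⟩ := exists_pert (insert none ((range (m + 4)).powerset.image some))
    (fun o => o.elim 1 (fun B => (nd B).eval 0 + (nd B).eval 1))
    (fun o => o.elim (-γ) (fun B => (nd B).eval 2 / 2 - γ * (nd B).coeff 4))
  have hεγ : ε * γ < 1 := by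
    have := (hpert none (mem_insert_self _ _)).1 one_pos
    simp only [Option.elim] at this
    linarith
  have hgen : ∀ B ⊆ range (m + 4), B.card = 4 → L ε γ (nd B) none ≠ 0 := by
    intro B hB hc
    refine (hpert (some B) (mem_insert_of_mem (mem_image_of_mem _ (mem_powerset.2 hB)))).2.2 ?_
    have h1 : (nd B).coeff 4 = 1 := by
      rw [← hc, ← nd_deg]
      exact monic_prod_X_sub_C _ _
    simp only [Option.elim, h1, nd_eval, hγ]
    intro h0
    have h2 : ((2 * ∏ b ∈ B, (2 - (b : ℤ)) : ℤ) : ℝ) = ((4 * (r + 1) ^ 2 + 1 : ℤ) : ℝ) := by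
      push_cast; linarith
    have h3 := Int.cast_injective h2
    omega
  set W : Finset (Option ℕ) := insert none ((range (m + 4)).image some) with hW
  have mk : ∀ (Y : Finset ℕ) (p : ℝ[X]), Y ⊆ range (m + 4) → p.natDegree ≤ 4 →
      (∀ i ∈ Y, p.eval (i : ℝ) = 0) → (∀ i : ℕ, i ∉ Y → 0 < p.eval (i : ℝ)) →
      0 < L ε γ p none → IsFace W (Q ε γ) (Y.image some) ∧ ∀ i : ℕ, i ≤ r + 2 → 2 ≤ i →
        (∀ y ∈ Y, (fc i).eval (y : ℝ) = 0) → IsFace W (Q ε γ) (insert none (Y.image some)) := by
    intro Y p hY hp h1 h2 h3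
    constructor
    · refine isFace_of_fun ((image_subset_image hY).trans (subset_insert _ _)) (memQ hp)
        (fun w hw => ?_) (fun w hw hw' => ?_)
      · obtain ⟨i, hi, rfl⟩ := mem_image.1 hw
        exact h1 i hi
      · rcases mem_insert.1 hw with rfl | hw
        · exact h3
        · obtain ⟨i, hi, rfl⟩ := mem_image.1 hw
          exact h2 i (fun h => hw' (mem_image_of_mem _ h))
    · intro i hi hi2 hz
      have hn : L ε γ (fc i) none < 0 := by
        have k1 : (i : ℝ) ≤ r + 2 := by exact_mod_cast hi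
        have k2 : (2 : ℝ) ≤ i := by exact_mod_cast hi2
        rw [Ln, fc_lead, fc_eval, fc_eval, fc_eval]
        have : ((2 : ℝ) - i) * (2 - (i + 1)) - γ < 0 := by rw [hγ]; nlinarith
        nlinarith
      refine isFace_of_fun (insert_subset_insert _ (image_subset_image hY))
        (φ := L ε γ p none • L ε γ (fc i) - L ε γ (fc i) none • L ε γ p)
        (Submodule.sub_mem _ (Submodule.smul_mem _ _ (memQ (fc_deg i)))
          (Submodule.smul_mem _ _ (memQ hp))) (fun w hw => ?_) (fun w hw hw' => ?_)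
      · rcases mem_insert.1 hw with rfl | hw
        · simp [mul_comm]
        · obtain ⟨v, hv, rfl⟩ := mem_image.1 hw
          simp [Ls, h1 v hv, hz v hv]
      · rcases mem_insert.1 hw with rfl | hw
        · exact absurd (mem_insert_self _ _) hw'
        · obtain ⟨v, hv, rfl⟩ := mem_image.1 hw
          have k1 := fc_nonneg i v
          have k2 := h2 v (fun h => hw' (mem_insert_of_mem (mem_image_of_mem _ h)))
          simp only [Pi.sub_apply, Pi.smul_apply, smul_eq_mul, Ls]
          nlinarith [mul_nonneg h3.le k1, mul_pos (neg_pos.2 hn) k2]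
  have f0 := mk ∅ 1 (empty_subset _) (by simp) (by simp) (by simp) (by
    rw [Ln]; simp [coeff_one]; positivity)
  have f1 : ∀ u ∈ range (m + 4), _ := fun u hu => mk {u} ((X - C (u : ℝ)) ^ 2)
    (singleton_subset_iff.2 hu) (by compute_degree!) (by simp) (fun i hi => by
      have : (i : ℝ) - u ≠ 0 := sub_ne_zero.2 (by exact_mod_cast (by simpa using hi))
      simpa using sq_pos_of_ne_zero this) (by
      rw [Ln, coeff_eq_zero_of_natDegree_lt (by
        refine lt_of_le_of_lt (b := 2) ?_ (by norm_num); compute_degree!)]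
      simp only [eval_pow, eval_sub, eval_X, eval_C]
      nlinarith [sq_nonneg ((0 : ℝ) - u - 1 / 2 + 1), mul_nonneg hε.le (sq_nonneg ((2 : ℝ) - u))])
  have hP : IsPoly W (Q ε γ) := by
    refine ⟨by simpa using f0.1, fun w hw => ?_⟩
    rcases mem_insert.1 hw with rfl | hw
    · simpa using f0.2 2 (by omega) le_rfl (by simp)
    · obtain ⟨u, hu, rfl⟩ := mem_image.1 hw
      simpa using (f1 u hu).1
  have f2 : ∀ Y ⊆ range (m + 4), Y.card = 2 → IsFace W (Q ε γ) (Y.image some) := by
    intro Y hY hc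
    by_cases h01 : Y = {0, 1}
    · refine (mk Y (X * (X - C 1)) hY (by compute_degree!) (by simp [h01]) (fun i hi => ?_) ?_).1
      · have : (2 : ℝ) ≤ i := by
          have : 2 ≤ i := by simp [h01] at hi; omega
          exact_mod_cast this
        simp only [eval_mul, eval_sub, eval_X, eval_C]
        nlinarith
      · rw [Ln, coeff_eq_zero_of_natDegree_lt (by
          refine lt_of_le_of_lt (b := 2) ?_ (by norm_num); compute_degree!)]
        simp only [eval_mul, eval_sub, eval_X, eval_C]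
        nlinarith
    · have hd : (nd Y ^ 2).natDegree = 4 := by rw [natDegree_pow, nd_deg, hc]
      refine (mk Y (nd Y ^ 2) hY hd.le (fun i hi => by simp [nd_zero.2 hi]) (fun i hi => by
        simpa using sq_pos_of_ne_zero (fun h => hi (nd_zero.1 h))) ?_).1
      have h1 : (nd Y ^ 2).coeff 4 = 1 := by
        rw [← hd]; exact (monic_prod_X_sub_C _ _).pow 2
      have key : ∀ i : ℕ, i ∉ Y → 1 ≤ (nd Y).eval (i : ℝ) ^ 2 := fun i hi => by
        have k1 : (nd Y).eval (i : ℝ) = ((∏ b ∈ Y, ((i : ℤ) - b) : ℤ) : ℝ) := by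
          rw [nd_eval]; push_cast; rfl
        have k2 : (∏ b ∈ Y, ((i : ℤ) - b) : ℤ) ≠ 0 := fun h => hi (nd_zero.1 (by rw [k1, h]; simp))
        rw [k1]
        exact_mod_cast sq_pos_of_ne_zero k2
      have h2 : 0 ∉ Y ∨ 1 ∉ Y := by
        by_contra hcon
        push Not at hcon
        exact h01 (eq_of_subset_of_card_le (insert_subset hcon.1 (singleton_subset_iff.2 hcon.2))
          (by simp [hc])).symm
      rw [Ln, h1]
      simp only [eval_pow]
      have h3 := mul_nonneg hε.le (sq_nonneg ((nd Y).eval 2))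
      rcases h2 with h | h
      · have := key 0 h
        simp only [Nat.cast_zero] at this
        nlinarith [sq_nonneg ((nd Y).eval 1)]
      · have := key 1 h
        simp only [Nat.cast_one] at this
        nlinarith [sq_nonneg ((nd Y).eval 0)]
  have hnb : nbr W (Q ε γ) none = (range (r + 4)).image some := by
    ext w
    rw [mem_nbr]
    constructor
    · rintro ⟨k1, k2, k3⟩
      obtain ⟨u, hu, rfl⟩ := mem_image.1 ((mem_insert.1 k1).resolve_left k2)
      refine mem_image_of_mem _ (mem_range.2 ?_)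
      by_contra hcon
      obtain ⟨_, ⟨p, hp, rfl⟩, a1, a2⟩ := k3.exists_fun
      have hu' := mem_range.1 hu
      have pos : ∀ i : ℕ, i < u → 0 < p.eval (i : ℝ) := fun i hi =>
        a2 (some i) (mem_insert_of_mem (mem_image_of_mem _ (mem_range.2 (by omega))))
          (by simp; omega)
      have hu4 : (r : ℝ) + 4 ≤ u := by exact_mod_cast (by omega : r + 4 ≤ u)
      have p0 := pos 0 (by omega)
      have p1 := pos 1 (by omega)
      have p2 := pos 2 (by omega)
      have p3 := pos (u - 1) (by omega)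
      rw [Nat.cast_sub (by omega)] at p3
      simp only [Nat.cast_zero, Nat.cast_one, Nat.cast_ofNat] at p0 p1 p2 p3
      have pu : p.eval (u : ℝ) = 0 := a1 (some u) (by simp)
      have pn := a1 none (by simp)
      rw [Ln, lead hp (u := u) (by linarith), pu] at pn
      have b1 : (0 : ℝ) < u - 1 := by linarith
      have b2 : (0 : ℝ) < u - 2 := by linarith
      have b3 : (0 : ℝ) < u - 3 := by linarith
      have c0 : p.eval 0 / (2 * u * (u - 1)) ≤ p.eval 0 :=
        div_le_self p0.le (by nlinarith)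
      have c1 : 0 < p.eval 1 / (((u : ℝ) - 2) * (u - 1)) := by positivity
      have c3 : 0 < p.eval ((u : ℝ) - 1) / ((u - 1) * (u - 2) * (u - 3)) := by positivity
      have c2 : γ * (p.eval 2 / (2 * ((u : ℝ) - 3) * (u - 2))) ≤ p.eval 2 / 2 := by
        rw [← mul_div_assoc, div_le_div_iff₀ (by positivity) (by norm_num)]
        have : γ ≤ ((u : ℝ) - 3) * (u - 2) := by rw [hγ]; nlinarith
        nlinarith
      have d0 := mul_le_mul_of_nonneg_left c0 (mul_pos hε γ0).le
      have d1 := mul_pos (mul_pos hε γ0) c1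
      have d2 := mul_le_mul_of_nonneg_left c2 hε.le
      have d3 := mul_pos (mul_pos hε γ0) c3
      have d4 := mul_lt_mul_of_pos_right hεγ p0
      simp only [zero_div] at pn
      nlinarith
    · intro hw
      obtain ⟨u, hu, rfl⟩ := mem_image.1 hw
      have hu' := mem_range.1 hu
      have hu2 : u ∈ range (m + 4) := mem_range.2 (by omega)
      refine ⟨mem_insert_of_mem (mem_image_of_mem _ hu2), by simp, ?_⟩
      by_cases h : u ≤ 2
      · have := (f1 u hu2).2 2 (by omega) le_rfl (by
          simp only [mem_singleton, forall_eq, fc_eval]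
          interval_cases u <;> simp)
        simpa using this
      · have := (f1 u hu2).2 (u - 1) (by omega) (by omega) (by
          simp only [mem_singleton, forall_eq, fc_eval]
          rw [Nat.cast_sub (by omega)]; simp)
        simpa using this
  have big5 : ∀ Y ⊆ W, 5 ≤ Y.card → rk (Q ε γ) Y = 5 := by
    intro Y hY hc
    obtain ⟨Z, hZ, hc5⟩ := exists_subset_card_eq hc
    refine le_antisymm (rk_le Y) (le_trans ?_ (rk_mono hZ))
    obtain ⟨B, hB, he⟩ := subset_image_iff.1 (subset_insert_iff.1 (hZ.trans hY))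
    have hcB : B.card = (Z.erase none).card := by
      rw [← he, card_image_of_injective _ (Option.some_injective _)]
    by_cases hn : none ∈ Z
    · rw [card_erase_of_mem hn] at hcB
      have k1 := rk_some (ε := ε) (γ := γ) B (by omega)
      have k2 := step (by omega) (hgen B hB (by omega))
      rw [he, insert_erase hn] at k2
      rw [he] at k1
      omega
    · rw [erase_eq_of_notMem hn] at hcB he
      have k1 := rk_some (ε := ε) (γ := γ) B (by omega)
      rw [he] at k1
      omega
  have hcW : W.card = m + 5 := by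
    rw [hW, card_insert_of_notMem (by simp), card_image_of_injective _ (Option.some_injective _),
      card_range]
  have hE : (faces W (Q ε γ) 2).card = (r + 4) + (m + 4).choose 2 := by
    rw [← card_filter_add_card_filter_not (fun e => none ∈ e),
      ← hP.card_nbr_eq (mem_insert_self _ _), hnb,
      card_image_of_injective _ (Option.some_injective _), card_range]
    congr 1
    have : (faces W (Q ε γ) 2).filter (fun e => ¬ none ∈ e) =
        powersetCard 2 ((range (m + 4)).image some) := by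
      ext e
      rw [mem_filter, mem_faces, mem_powersetCard]
      constructor
      · rintro ⟨⟨k1, k2⟩, k3⟩
        exact ⟨(subset_insert_iff_of_notMem k3).1 k1.1, hP.card_of_rk_two k1.1 k2⟩
      · rintro ⟨k1, k2⟩
        obtain ⟨B, hB, rfl⟩ := subset_image_iff.1 k1
        have k3 := rk_le_card (R := Q ε γ) (B.image some)
        rw [card_image_of_injective _ (Option.some_injective _)] at k2 k3
        have k4 := rk_some (ε := ε) (γ := γ) B (by omega)
        exact ⟨⟨f2 B hB k2, by omega⟩, by simp⟩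
    rw [this, card_powersetCard, card_image_of_injective _ (Option.some_injective _), card_range]
  have hch : (m + 4).choose 2 = m.choose 2 + 4 * m + 6 := by
    have k : ∀ n : ℕ, (n + 1).choose 2 = n + n.choose 2 := fun n => by
      rw [Nat.choose_succ_succ' n 1, Nat.choose_one_right]
    have k1 := k m
    have k2 : (m + 2).choose 2 = _ := k (m + 1)
    have k3 : (m + 3).choose 2 = _ := k (m + 2)
    have k4 : (m + 4).choose 2 = _ := k (m + 3)
    omega
  refine simplicial hP (big5 W subset_rfl (by omega)) (fun F hF => ?_) (by omega) (by omega)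
  obtain ⟨k1, k2⟩ := mem_faces.1 hF
  have k3 := rk_le_card (R := Q ε γ) F
  by_contra hne
  have := big5 F k1.1 (by omega)
  omega

end

section


open Finset Module

namespace SIMQx

theorem greedy (s : ℕ) : ∃ m r : ℕ, r ≤ m ∧ s = (m + 1).choose 2 + r := by
  induction s with
  | zero => exact ⟨0, 0, le_rfl, rfl⟩
  | succ s ih =>
    obtain ⟨m, r, h, rfl⟩ := ih
    rcases h.lt_or_eq with h | rfl
    · exact ⟨m, r + 1, h, rfl⟩
    · refine ⟨r + 1, 0, Nat.zero_le _, ?_⟩
      have : (r + 1 + 1).choose 2 = (r + 1).choose 1 + (r + 1).choose 2 := rfl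
      rw [this, Nat.choose_one_right]
      omega

theorem sq_le (m : ℕ) : (m : ℝ) ^ 2 ≤ 2 * ((m + 1).choose 2 : ℕ) := by
  rw [Nat.cast_choose_two]
  push_cast
  nlinarith [(Nat.cast_nonneg m : (0 : ℝ) ≤ m)]

end SIMQx

theorem p_SIMQ (hBL : S_BL) :
    S_SIMQ := by
  intro s
  obtain ⟨m, r, h1, e1⟩ := SIMQx.greedy s
  have H := hBL (m + 1) r (by omega) (by omega)
  rw [← e1] at H
  refine ⟨_, H, ?_⟩
  have a1 := SIMQx.sq_le m
  generalize (m + 1).choose 2 = A at *
  have b1 : (s : ℝ) = A + r := by exact_mod_cast e1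
  have r0 : (0 : ℝ) ≤ r := Nat.cast_nonneg _
  have c1 : (m : ℝ) ≤ √(2 * (s : ℝ)) := Real.le_sqrt_of_sq_le (by linarith)
  push_cast
  linarith

end

section


open Finset Module

namespace LPx

theorem split (n p q j : ℕ) (hn : n * p ≤ j) : ∃ a b : ℕ, a + b = n ∧ a * p + b * q ≤ j ∧
    (2 * (a * q + b * p) ≤ n * (p + q) + q ∨ a * q + b * p + j ≤ n * (p + q) + q) := by
  rcases le_or_gt q p with h | h
  · refine ⟨n, 0, rfl, by simpa using hn, Or.inl ?_⟩
    have := Nat.mul_le_mul_left n h
    nlinarith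
  · obtain ⟨r, rfl⟩ := Nat.exists_eq_add_of_le h.le
    have hr : 0 < r := by omega
    obtain ⟨m, rfl⟩ := Nat.exists_eq_add_of_le hn
    have h1 := Nat.div_add_mod m r
    have h2 := Nat.mod_lt m hr
    rcases le_total (n / 2) (m / r) with h3 | h3
    · obtain ⟨a, ha⟩ : ∃ a, n = a + n / 2 := ⟨n - n / 2, by omega⟩
      have h4 : a ≤ n / 2 + 1 := by omega
      have h5 := Nat.mul_le_mul_left r h3
      have h6 := Nat.mul_le_mul_left r h4
      generalize n / 2 = b at *
      subst ha
      exact ⟨a, b, rfl, by nlinarith [Nat.zero_le (m % r)], Or.inl (by nlinarith)⟩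
    · obtain ⟨a, ha⟩ : ∃ a, n = a + m / r := ⟨n - m / r, by omega⟩
      generalize m / r = b at *
      generalize m % r = t at *
      subst ha
      subst h1
      exact ⟨a, b, rfl, by nlinarith, Or.inr (by nlinarith)⟩

theorem sq_bound {ε c k : ℝ} (hε : 0 < ε) (hk : 0 ≤ k) : c * √k ≤ ε / 8 * k + 2 * c ^ 2 / ε := by
  have h1 := Real.sq_sqrt hk
  have h2 : 0 ≤ (ε * √k - 4 * c) ^ 2 / (8 * ε) := by positivity
  have h3 : (ε * √k - 4 * c) ^ 2 / (8 * ε) = ε / 8 * √k ^ 2 + 2 * c ^ 2 / ε - c * √k := by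
    field_simp; ring
  rw [h3, h1] at h2
  linarith

end LPx

theorem p_LP :
    S_LP := by
  intro ε hε hε1 H p q c D hp hc hD hA hB
  have hp' : (1 : ℝ) ≤ p := by exact_mod_cast hp
  have hq' : (0 : ℝ) ≤ q := Nat.cast_nonneg q
  have hH' : (0 : ℝ) < H := by nlinarith
  have hH : 0 < H := by exact_mod_cast hH'
  obtain ⟨K, hK0, hK⟩ : ∃ K : ℝ, 0 ≤ K ∧ ε / 8 * K = 2 * c ^ 2 / ε + H + q + 2 * D :=
    ⟨8 / ε * (2 * c ^ 2 / ε + H + q + 2 * D), by positivity, by field_simp⟩
  refine ⟨4 * K + D + 3 * p, fun h j k hjk h1 h2 => ?_⟩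
  have hj : (0 : ℝ) ≤ j := Nat.cast_nonneg j
  have hk : (0 : ℝ) ≤ k := Nat.cast_nonneg k
  have hh : (0 : ℝ) ≤ h := Nat.cast_nonneg h
  have hjk' : (j : ℝ) ≤ k := by exact_mod_cast hjk
  have hs : 0 ≤ c * √(k : ℝ) := by positivity
  have hej : 0 ≤ ε * j := by positivity
  have hKk : K ≤ k := by linarith
  have big : c * √(k : ℝ) + H + q + 2 * D ≤ ε / 4 * k := by
    have := LPx.sq_bound (c := c) hε hk
    have : ε / 8 * K ≤ ε / 8 * k := by gcongr
    linarith
  rcases le_or_gt (j * H) (h * p) with h3 | h3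
  · have e1 := Nat.div_add_mod j p
    have e2 := Nat.mod_lt j hp
    generalize j / p = a at *
    generalize j % p = t at *
    have e3 : a * H ≤ h := by
      refine Nat.le_of_mul_le_mul_right (c := p) (le_trans ?_ h3) hp
      subst e1; nlinarith [Nat.zero_le (t * H)]
    obtain ⟨s, hs'⟩ := Nat.exists_eq_add_of_le e3
    refine ⟨a, 0, s, by simpa using hs', by subst e1; nlinarith, ?_⟩
    have f1 : (p : ℝ) * a + t = j := by exact_mod_cast e1
    have f2 : (t : ℝ) ≤ p := by exact_mod_cast e2.le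
    have f3 : (h : ℝ) = a * H + s := by exact_mod_cast hs'
    have ha : (0 : ℝ) ≤ a := Nat.cast_nonneg a
    have ht : (0 : ℝ) ≤ t := Nat.cast_nonneg t
    have f4 := mul_le_mul_of_nonneg_left hA ha
    have f5 : ε * (p * a) ≤ ε * j := by gcongr; linarith
    have f6 : 0 ≤ ε * (p * a) := by positivity
    push_cast
    nlinarith
  · have e1 := Nat.div_add_mod h H
    have e2 := Nat.mod_lt h hH
    generalize h / H = n at *
    generalize h % H = s at *
    have e3 : n * p ≤ j := by
      refine Nat.le_of_mul_le_mul_right (c := H) (le_trans ?_ h3.le) hH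
      subst e1; nlinarith [Nat.zero_le (s * p)]
    obtain ⟨a, b, hab, g1, g2⟩ := LPx.split n p q j e3
    refine ⟨a, b, s, by rw [hab, ← e1, mul_comm], g1, ?_⟩
    have f1 : (H : ℝ) * n + s = h := by exact_mod_cast e1
    have f2 : (s : ℝ) ≤ H := by exact_mod_cast e2.le
    have hn : (0 : ℝ) ≤ n := Nat.cast_nonneg n
    have hs0 : (0 : ℝ) ≤ s := Nat.cast_nonneg s
    have f4 := mul_le_mul_of_nonneg_left hB hn
    have f5 : (n : ℝ) * (p + q) ≤ (1 - ε / 4) * (j + k) + D := by
      have hpos : (0 : ℝ) < 15 / 8 - ε / 2 := by linarith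
      refine le_of_mul_le_mul_left ?_ hpos
      have u1 : 0 ≤ (ε / 32 + ε ^ 2 / 8) * ((j : ℝ) + k) := by positivity
      have u2 : 0 ≤ (7 / 8 - ε / 2) * D := mul_nonneg (by linarith) hD
      nlinarith
    have f6 : (1 - ε / 4) * (j : ℝ) ≤ (1 - ε / 4) * k := mul_le_mul_of_nonneg_left hjk' (by linarith)
    rcases g2 with g2 | g2
    · have : (2 : ℝ) * (a * q + b * p) ≤ n * (p + q) + q := by exact_mod_cast g2
      nlinarith
    · have : (a : ℝ) * q + b * p + j ≤ n * (p + q) + q := by exact_mod_cast g2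
      nlinarith

end

end Pool.Agent.P.MP_af6acb_co.Reg
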