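import Pool.Agent.P.MP_af6acb_co.Reg.Iface

/-!
Sharper statements near the neighbourly corner.
-/

namespace Pool.Agent.P.MP_af6acb_co.Reg

open Finset Module

-- deps:
def S_BL : Prop := ∀ m r : ℕ, 1 ≤ m → r ≤ m →
  Hat (m.choose 2 + r) 0 (m.choose 2 + r + 2 * m + 4)

-- deps: BL
def S_SIMQ : Prop := ∀ s : ℕ, ∃ κ : ℕ, Hat s 0 κ ∧ (κ : ℝ) ≤ s + 2 * √(2 * (s : ℝ)) + 6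

-- deps: ADD BL PYR FATB SIMQ LP
def S_SUG : Prop := ∀ ε : ℝ, 0 < ε → ε ≤ 1 → ∃ C : ℝ, ∀ h j k : ℕ, j ≤ k → (h + j + k) % 2 = 0 →
  ¬ (h = 0 ∧ j % 2 = 1) → ¬ (h = 1 ∧ (j = 1 ∨ j = 3)) → (h : ℝ) ≤ (15 / 8 - ε) * (j + k) + 10 →
  h + ε * j + 2 * √(2 * (k : ℝ)) + C ≤ 3 * j + k → Hat h j (k + 4)

-- deps: J1 J3 SUG
def S_MAIQ : Prop := ∀ ε : ℝ, 0 < ε → ∃ C : ℝ, ∀ f : Fin 4 → ℤ,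
  (f 1 : ℝ) + f 2 ≤ (10 - ε) * (f 0 + f 3) →
  ε * ((f 2 : ℝ) - 2 * f 3) + √(2 * (f 1 : ℝ)) + C ≤ f 0 →
  ε * ((f 1 : ℝ) - 2 * f 0) + √(2 * (f 2 : ℝ)) + C ≤ f 3 →
  (f ∈ fVectors ↔ f 0 + f 2 = f 1 + f 3 ∧ 2 * f 3 ≤ f 2 ∧ 2 * f 0 ≤ f 1 ∧
    5 * (f 0 + f 3) ≤ 2 * (f 1 + f 2) + 10 ∧
    ¬ (2 * (f 1 + f 2) + 10 = 5 * (f 0 + f 3) ∧ Odd (f 2)) ∧
    ¬ (2 * (f 1 + f 2) + 10 = 5 * (f 0 + f 3) + 1 ∧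
      (f 2 = 2 * f 3 + 1 ∨ f 2 = 2 * f 3 + 3 ∨ f 1 = 2 * f 0 + 1 ∨ f 1 = 2 * f 0 + 3)))

end Pool.Agent.P.MP_af6acb_co.Reg
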