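import Pool.Agent.P.MP_af6acb_co.Reg.Iface
import Pool.Agent.P.MP_af6acb_co.Fat.All
import Pool.Agent.P.MP_af6acb_co.Reg.Iface2

/-! Fat blocks, sufficiency and the theorem. -/

set_option autoImplicit false
set_option linter.unusedSectionVars false
set_option linter.unusedVariables false

namespace Pool.Agent.P.MP_af6acb_co.Reg

section


open Finset Module

namespace FATVx

open Fat
open scoped Classical

lemma asy (N I E B Rd Ed : ℕ) (φ M : ℝ) (hφ : 2 ≤ φ) (hM : 0 ≤ M)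
    (hg : (φ - 1) * ((I : ℝ) * N + B * Rd) < 2 * E * N) : ∃ r : ℕ, ∀ C : ℕ, ∃ l : ℕ, 3 ≤ l ∧
    ∀ f0 f1 f3 : ℕ, f0 ≤ 8 * N ^ (r + 1) * l + C → 8 * (r + 1) * E * N ^ r * l ≤ f1 →
      f3 ≤ (l + 1) * VZ r N I B Rd Ed + C → M * f0 + (φ - 1) * f3 ≤ 2 * f1 := by
  have h1 : 0 ≤ φ - 1 := by linarith
  have hN : 0 < N := by
    rcases Nat.eq_zero_or_pos N with rfl | h
    · have : 0 ≤ (φ - 1) * ((I : ℝ) * (0 : ℕ) + B * Rd) := by positivity
      simp only [Nat.cast_zero, mul_zero] at hg this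
      linarith
    · exact h
  obtain ⟨g, hgd⟩ : ∃ g : ℝ, g = 2 * E * N - (φ - 1) * ((I : ℝ) * N + B * Rd) := ⟨_, rfl⟩
  have g0 : 0 < g := by linarith
  obtain ⟨A, hA⟩ : ∃ A : ℝ, A = 8 * M * N ^ 2 + (φ - 1) * (54 * Ed * N + 27 * N ^ 2) :=
    ⟨_, rfl⟩
  obtain ⟨t, ht⟩ := exists_nat_gt (A / (8 * g))
  rw [div_lt_iff₀ (by positivity)] at ht
  refine ⟨t + 1, fun C => ?_⟩
  obtain ⟨Q, hQ⟩ : ∃ Q : ℝ, Q = (N : ℝ) ^ t := ⟨_, rfl⟩
  have M0 : 0 < Q := by rw [hQ]; positivity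
  obtain ⟨Z, hZ⟩ : ∃ Z : ℝ, Z = (VZ (t + 1) N I B Rd Ed : ℕ) := ⟨_, rfl⟩
  have hZ' : Z = Q * (8 * (t + 2) * I * N + 8 * (t + 1) * (B * Rd) + 54 * Ed * N + 27 * N ^ 2) := by
    rw [hZ, hQ, VZ, Nat.add_sub_cancel]; push_cast; ring
  obtain ⟨s, hs⟩ : ∃ s : ℝ, s = 16 * (t + 2) * E * N * Q - 8 * M * N ^ 2 * Q - (φ - 1) * Z :=
    ⟨_, rfl⟩
  have s0 : 0 < s := by
    have e : s = Q * (8 * (t + 2) * g - A + 8 * ((φ - 1) * (B * Rd))) := by
      rw [hs, hZ', hgd, hA]; ring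
    have : 0 ≤ (φ - 1) * ((B : ℝ) * Rd) := by positivity
    rw [e]
    exact mul_pos M0 (by nlinarith)
  obtain ⟨l, hl⟩ := exists_nat_gt (((M + (φ - 1)) * C + (φ - 1) * Z) / s)
  rw [div_lt_iff₀ s0] at hl
  refine ⟨l + 3, by omega, fun f0 f1 f3 b0 a1 b3 => ?_⟩
  have b0' : (f0 : ℝ) ≤ 8 * N ^ 2 * Q * (l + 3) + C := by
    have : (f0 : ℝ) ≤ ((8 * N ^ (t + 1 + 1) * (l + 3) + C : ℕ) : ℝ) := by exact_mod_cast b0
    rw [hQ]; push_cast at this; linarith [this, show (8 : ℝ) * N ^ (t + 1 + 1) * (l + 3) =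
      8 * N ^ 2 * N ^ t * (l + 3) by ring]
  have a1' : 8 * (t + 2) * E * N * Q * (l + 3) ≤ (f1 : ℝ) := by
    have : ((8 * (t + 1 + 1) * E * N ^ (t + 1) * (l + 3) : ℕ) : ℝ) ≤ f1 := by exact_mod_cast a1
    rw [hQ]; push_cast at this
    linarith [this, show (8 : ℝ) * (t + 1 + 1) * E * N ^ (t + 1) * (l + 3) =
      8 * (t + 2) * E * N * N ^ t * (l + 3) by ring]
  have b3' : (f3 : ℝ) ≤ (l + 3 + 1) * Z + C := by
    rw [hZ]; exact_mod_cast b3
  have k0 := mul_le_mul_of_nonneg_left b0' hM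
  have k3 := mul_le_mul_of_nonneg_left b3' h1
  have k : s * (l + 3) = 2 * (8 * (t + 2) * E * N * Q * (l + 3)) -
      M * (8 * N ^ 2 * Q * (l + 3)) - (φ - 1) * ((l + 3) * Z) := by rw [hs]; ring
  nlinarith

lemma main (W R V Ed Ev : Type) [NormedAddCommGroup W] [NormedSpace ℝ W]
    [FiniteDimensional ℝ W] [Fintype R] [Fintype V] [Fintype Ed] [Fintype Ev]
    (G : Gad W R V Ed Ev) (K et : ℝ) (φ M : ℝ) (hG : G.Ok K et) (hφ : 2 ≤ φ) (hM : 0 ≤ M)
    (h : (φ - 1) * ((Fintype.card Ev : ℝ) * Fintype.card V + G.Blue.card * G.Red.card) <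
      2 * G.E0.card * Fintype.card V) :
    ∃ a b c d : ℕ, Conf a b c d ∧ M * a + (φ - 1) * d ≤ 2 * b := by
  obtain ⟨r, hr⟩ := asy _ _ _ _ _ (Fintype.card Ed) φ M hφ hM h
  obtain ⟨l, hl, H⟩ := hr (C0 r (Fintype.card R))
  have hV : Nonempty V := by
    by_contra hn
    have h0 : Fintype.card V = 0 := Fintype.card_eq_zero_iff.2 (not_nonempty_iff.1 hn)
    have h1 : 0 ≤ φ - 1 := by linarith
    have : 0 ≤ (φ - 1) * ((Fintype.card Ev : ℝ) * Fintype.card V + G.Blue.card * G.Red.card) := by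
      positivity
    rw [h0] at h this
    simp only [Nat.cast_zero, mul_zero] at h this
    linarith
  obtain ⟨q, hq⟩ := all_PAR W R V Ed Ev G K et r l hG hl
  have hP := all_POLY W R V Ed Ev G K et q r l hG hV hq
  obtain ⟨a, b, c, d, hc, e0, e1, -, e3⟩ := (mem_iff_conf
    (fun k => (numFaces (G.sys q r l).Q k : ℤ))).1 ⟨_, hP, fun _ => rfl⟩
  have := H _ _ _ (all_F0 W R V Ed Ev G K et q r l hG hq) (all_F1 W R V Ed Ev G K et q r l hG hq)
    (all_F3 W R V Ed Ev G K et q r l hG hq)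
  have e0' : numFaces (G.sys q r l).Q 0 = a := by exact_mod_cast e0
  have e1' : numFaces (G.sys q r l).Q 1 = b := by exact_mod_cast e1
  have e3' : numFaces (G.sys q r l).Q 3 = d := by exact_mod_cast e3
  rw [e0', e1', e3'] at this
  exact ⟨a, b, c, d, hc, this⟩

end FATVx

theorem p_FATV :
    S_FATV := by
  intro φ M hφ
  have h10 : max φ 2 < 10 := max_lt hφ (by norm_num)
  have h2 : 2 ≤ max φ 2 := le_max_right _ _
  obtain ⟨k, hk⟩ := exists_nat_gt (max 1 (27 / (10 - max φ 2)))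
  have hk1 : (1 : ℝ) < k := (le_max_left _ _).trans_lt hk
  have hk2 := (le_max_right _ _).trans_lt hk
  rw [div_lt_iff₀ (by linarith)] at hk2
  obtain ⟨c1, c2, c3⟩ := Fat.all_CG k
  obtain ⟨a, b, c, d, hc, h⟩ := FATVx.main _ _ _ _ _ (Fat.gad k) _ _ (max φ 2) (max M 0)
    (Fat.all_OK k (by exact_mod_cast hk1.le)) h2 (le_max_right _ _) (by
    have e1 : (Fintype.card (Fin k → Bool) : ℝ) = 2 ^ k := by simp
    have e2 : (Fintype.card (Fat.VG k) : ℝ) = 2 ^ k * (4 * k + 2) := by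
      simp
      ring
    rw [e1, e2]
    exact Fat.fin_num (by linarith) (by positivity) (by linarith) (by nlinarith)
      (Nat.cast_nonneg _) (by exact_mod_cast c1) (by exact_mod_cast c2) (by exact_mod_cast c3))
  refine ⟨a, b, c, d, hc, le_trans (add_le_add ?_ ?_) h⟩
  · exact mul_le_mul_of_nonneg_right (le_max_left _ _) (Nat.cast_nonneg _)
  · exact mul_le_mul_of_nonneg_right (by linarith [le_max_left φ 2]) (Nat.cast_nonneg _)

end

section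


open Finset Module

namespace FATBx

lemma hat_of_good {A B C D H j k : ℕ} (G : Good A B C D) (h1 : C = j + 2 * D)
    (h2 : B = k + 2 * A) (h3 : 2 * (B + C) + 10 = H + 5 * (A + D)) : Hat H (j + 4) (k + 4) :=
  ⟨_, _, _, _, sf_of_good G.dual.stack.stack.dual, by omega, by omega, by omega⟩

lemma fin {δ N a b d : ℝ} (h0 : 0 < δ) (h1 : δ ≤ 1) (hNδ : δ * N = 100) (hN0 : 100 ≤ N)
    (ha : 5 ≤ a) (hd : 0 ≤ d) (key : N * a + (9 - δ) * d ≤ 2 * b) :
    (3 - δ) * (b - d - a - 2 + 4) + (b - 2 * a - 2 + 4) ≤ 4 * b - 3 * d - 7 * a - 4 ∧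
    (15 / 8 - δ) * (b - d - a - 2 + 4 + (b - 2 * a - 2 + 4)) ≤ 4 * b - 3 * d - 7 * a - 4 := by
  have key2 : δ * (N * a + (9 - δ) * d) ≤ δ * (2 * b) := mul_le_mul_of_nonneg_left key h0.le
  have e4 : δ * (N * a + (9 - δ) * d) = 100 * a + 9 * (δ * d) - δ * (δ * d) := by
    rw [← hNδ]; ring
  have hδd : 0 ≤ δ * d := mul_nonneg h0.le hd
  have e5 : δ * (δ * d) ≤ δ * d := mul_le_of_le_one_left hδd h1
  have hδa : δ * a ≤ a := mul_le_of_le_one_left (by linarith) h1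
  have hNa : 100 * a ≤ N * a := mul_le_mul_of_nonneg_right hN0 (by linarith)
  have e6 : δ * (2 * b) = 2 * (δ * b) := by ring
  have e7 : (9 - δ) * d = 9 * d - δ * d := by ring
  have e8 : (3 - δ) * (b - d - a - 2 + 4) =
      3 * (b - d - a + 2) - δ * b + δ * d + δ * a - 2 * δ := by ring
  have e9 : (15 / 8 - δ) * (b - d - a - 2 + 4 + (b - 2 * a - 2 + 4)) =
      15 / 8 * (2 * b - d - 3 * a + 4) - 2 * (δ * b) + δ * d + 3 * (δ * a) - 4 * δ := by ring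
  rw [e8, e9]
  rw [e4, e6] at key2
  rw [e7] at key
  constructor <;> linarith

lemma core (hFATV : S_FATV) (hGS2 : S_GS2) (δ : ℝ) (h0 : 0 < δ) (h1 : δ ≤ 1) :
    ∃ H p q : ℕ, Hat H p q ∧ Hat H q p ∧ 0 < p ∧
      (3 - δ) * p + q ≤ H ∧ (15 / 8 - δ) * (p + q) ≤ H := by
  obtain ⟨a, b, c, d, hc, hM⟩ := hFATV (10 - δ) (45 + 100 / δ) (by linarith)
  have ha := hc.five_le
  obtain ⟨b', c', d', hs, hb, hd⟩ := hGS2 a b c d hc
  have G := hs.stack.1
  have GC := (sf_of_good G).conf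
  have he := GC.euler
  have hf := GC.fat
  set N : ℝ := 100 / δ with hN
  have hNδ : δ * N = 100 := by rw [hN]; field_simp
  have hN0 : 100 ≤ N := by rw [hN, le_div_iff₀ h0]; linarith
  have haR : (5 : ℝ) ≤ a := by exact_mod_cast ha
  have hbR : (b : ℝ) ≤ b' := by exact_mod_cast hb
  have hdR : (d' : ℝ) ≤ d + 4 * a + 2 := by exact_mod_cast hd
  have hd0 : (0 : ℝ) ≤ d' := Nat.cast_nonneg _
  have hδa : 0 ≤ δ * a := by positivity
  have hδd : 0 ≤ δ * d' := by positivity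
  have hδd1 : δ * d' ≤ d' := by nlinarith
  have hδa1 : δ * a ≤ a := by nlinarith
  have hNa : 100 * (a : ℝ) ≤ N * a := by nlinarith
  have key : N * a + (9 - δ) * d' ≤ 2 * b' := by
    have : (9 - δ) * (d' : ℝ) ≤ (9 - δ) * (d + 4 * a + 2) :=
      mul_le_mul_of_nonneg_left hdR (by linarith)
    nlinarith
  have k1 : 100 * a + 8 * d' ≤ 2 * b' := by
    have : (100 : ℝ) * a + 8 * d' ≤ 2 * b' := by nlinarith
    exact_mod_cast this
  obtain ⟨j, hj⟩ : ∃ j, c' + 6 = j + 2 * (d' + 3) := ⟨c' + 6 - 2 * (d' + 3), by omega⟩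
  obtain ⟨k, hk⟩ : ∃ k, b' + 4 = k + 2 * (a + 2 + 1) := ⟨b' + 4 - 2 * (a + 2 + 1), by omega⟩
  obtain ⟨H, hH⟩ : ∃ H, 2 * (b' + 4 + (c' + 6)) + 10 = H + 5 * (a + 2 + 1 + (d' + 3)) :=
    ⟨2 * (b' + 4 + (c' + 6)) + 10 - 5 * (a + 2 + 1 + (d' + 3)), by omega⟩
  refine ⟨H, j + 4, k + 4, hat_of_good G hj hk hH, hat_of_good G.dual hk hj (by omega),
    by omega, ?_, ?_⟩
  all_goals
    have e1 : (j : ℝ) = b' - d' - a - 2 := by
      have : j + d' + a + 2 = b' := by omega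
      have : (j : ℝ) + d' + a + 2 = b' := by exact_mod_cast this
      linarith
    have e2 : (k : ℝ) = b' - 2 * a - 2 := by
      have : k + 2 * a + 2 = b' := by omega
      have : (k : ℝ) + 2 * a + 2 = b' := by exact_mod_cast this
      linarith
    have e3 : (H : ℝ) = 4 * b' - 3 * d' - 7 * a - 4 := by
      have : H + 3 * d' + 7 * a + 4 = 4 * b' := by omega
      have : (H : ℝ) + 3 * d' + 7 * a + 4 = 4 * b' := by exact_mod_cast this
      linarith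
    push_cast
    rw [e1, e2, e3]
    first
      | exact (fin h0 h1 hNδ hN0 haR hd0 key).1
      | exact (fin h0 h1 hNδ hN0 haR hd0 key).2

end FATBx

theorem p_FATB (hFATV : S_FATV) (hGS2 : S_GS2) :
    S_FATB := by
  intro δ hδ
  obtain ⟨H, p, q, h1, h2, h3, h4, h5⟩ :=
    FATBx.core hFATV hGS2 (min δ 1) (lt_min hδ one_pos) (min_le_right _ _)
  have hm : min δ 1 ≤ δ := min_le_left _ _
  have hp : (0 : ℝ) ≤ p := Nat.cast_nonneg _
  have hq : (0 : ℝ) ≤ q := Nat.cast_nonneg _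
  refine ⟨H, p, q, h1, h2, h3, ?_, ?_⟩
  · have : (3 - δ) * (p : ℝ) ≤ (3 - min δ 1) * p :=
      mul_le_mul_of_nonneg_right (by linarith) hp
    linarith
  · have : (15 / 8 - δ) * ((p : ℝ) + q) ≤ (15 / 8 - min δ 1) * (p + q) :=
      mul_le_mul_of_nonneg_right (by linarith) (by linarith)
    linarith

end

section


open Finset Module

namespace SUGx

lemma rep (hADD : S_ADD) {h j K h' j' K' : ℕ} (H : Hat h j K) (H' : Hat h' j' K') (n : ℕ) :
    Hat (h + n * h') (j + n * j') (K + n * K') := by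
  induction n with
  | zero => simpa using H
  | succ n ih =>
    have := hADD _ _ _ _ _ _ ih H'
    rwa [add_assoc, add_assoc, add_assoc, ← Nat.succ_mul, ← Nat.succ_mul, ← Nat.succ_mul] at this

lemma odd_one (hBL : S_BL) : Hat 1 5 4 := by
  obtain ⟨a, b, c, d, hs, h1, h2, h3⟩ := hBL 1 1 le_rfl le_rfl
  have he := hs.conf.euler
  norm_num at h1 h2 h3
  exact ⟨_, _, _, _, sf_of_good hs.stack.1.dual, by omega, by omega, by omega⟩

lemma block (hBL : S_BL) (hPYR : S_PYR) {h j : ℕ} (h1 : ¬ (h = 0 ∧ j % 2 = 1))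
    (h2 : ¬ (h = 1 ∧ (j = 1 ∨ j = 3))) :
    ∃ h0 j0 K0 : ℕ, Hat h0 j0 K0 ∧ h0 ≤ h ∧ j0 ≤ j ∧ j0 % 2 = j % 2 ∧ j0 ≤ 5 ∧ K0 ≤ 5 := by
  by_cases hj : j % 2 = 0
  · exact ⟨0, 0, 4, hat_bas 0 0, by omega, by omega, by omega, by omega, by omega⟩
  by_cases hh : 2 ≤ h
  · exact ⟨2, 1, 5, hPYR, by omega, by omega, by omega, by omega, by omega⟩
  · exact ⟨1, 5, 4, odd_one hBL, by omega, by omega, by omega, by omega, by omega⟩

end SUGx

theorem p_SUG (hADD : S_ADD) (hBL : S_BL) (hPYR : S_PYR) (hFATB : S_FATB) (hSIMQ : S_SIMQ) (hLP : S_LP) :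
    S_SUG := by
  intro ε hε hε1
  obtain ⟨H, p, q, H1, H2, hp, f1, f2⟩ := hFATB (ε / 2) (by positivity)
  obtain ⟨C1, hC1⟩ : ∃ C : ℝ, ∀ s : ℕ, ∃ κ : ℕ, Hat s 0 κ ∧
      (κ : ℝ) ≤ s + 2 * √(2 * (s : ℝ)) + C := ⟨6, hSIMQ⟩
  obtain ⟨C2, hC2⟩ := hLP ε hε hε1 (H + H) (p + p) (q + q) (2 * √2) (max 20 (C1 + 5))
    (by omega) (by positivity) (le_max_of_le_left (by norm_num))
    (by push_cast; linarith) (by push_cast; linarith)
  refine ⟨C2 + 15, fun h j k hjk hpar e1 e2 b1 b2 => ?_⟩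
  obtain ⟨h0, j0, K0, B, g1, g2, g3, g4, g5⟩ := SUGx.block hBL hPYR e1 e2
  obtain ⟨h', rfl⟩ := Nat.exists_eq_add_of_le g1
  obtain ⟨j', rfl⟩ := Nat.exists_eq_add_of_le g2
  have r0 : (0 : ℝ) ≤ h0 := Nat.cast_nonneg _
  have r1 : (0 : ℝ) ≤ j0 := Nat.cast_nonneg _
  have r2 : (j0 : ℝ) ≤ 5 := by exact_mod_cast g4
  have r3 : (K0 : ℝ) ≤ 5 := by exact_mod_cast g5
  have d1 := le_max_left (20 : ℝ) (C1 + 5)
  have d2 := le_max_right (20 : ℝ) (C1 + 5)
  have hs2 : ∀ x : ℝ, √(2 * x) = √2 * √x := fun x => Real.sqrt_mul (by norm_num) x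
  rw [hs2] at b2
  push_cast at b1 b2
  obtain ⟨a, b, s, k1, k2, k3⟩ := hC2 h' j' k (by omega)
    (by nlinarith [mul_nonneg hε.le r1]) (by nlinarith [mul_nonneg hε.le r1])
  obtain ⟨κ, S, hκ⟩ := hC1 s
  rw [hs2] at hκ
  have c0 : (0 : ℝ) ≤ 2 * √2 := by positivity
  have hsk : (s : ℝ) ≤ k := by
    have : (0 : ℝ) ≤ (a : ℝ) * ((q + q : ℕ) : ℝ) + b * ((p + p : ℕ) : ℝ) := by positivity
    have : (0 : ℝ) ≤ 2 * √2 * √(k : ℝ) := by positivity
    linarith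
  have hsq := mul_le_mul_of_nonneg_left (Real.sqrt_le_sqrt hsk) c0
  have hK : K0 + a * (q + q) + b * (p + p) + κ ≤ k := by
    have : ((K0 + a * (q + q) + b * (p + p) + κ : ℕ) : ℝ) ≤ k := by
      push_cast at k3 ⊢
      nlinarith
    exact_mod_cast this
  have T := hADD _ _ _ _ _ _
    (SUGx.rep hADD (SUGx.rep hADD B (hADD _ _ _ _ _ _ H1 H1) a) (hADD _ _ _ _ _ _ H2 H2) b) S
  have hpT := T.parity
  obtain ⟨J, hJ⟩ := Nat.exists_eq_add_of_le k2
  obtain ⟨L, hL⟩ := Nat.exists_eq_add_of_le hK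
  have eh : h0 + a * (H + H) + b * (H + H) + s = h0 + h' := by rw [k1]; ring
  have m1 : a * (p + p) = 2 * (a * p) := by ring
  have m2 : b * (q + q) = 2 * (b * q) := by ring
  rw [eh] at T hpT
  have T2 := hADD _ _ _ _ _ _ T (hat_bas (J / 2) (L / 2))
  have n1 : j0 + a * (p + p) + b * (q + q) + 0 + 2 * (J / 2) = j0 + j' := by omega
  have n2 : K0 + a * (q + q) + b * (p + p) + κ + (2 * (L / 2) + 4) = k + 4 := by omega
  rwa [n1, n2, add_zero] at T2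

end

section


open Finset Module

namespace MAIQx

theorem half (hSUG : S_SUG) {ε : ℝ} (hε : 0 < ε) : ∃ C : ℝ, 37 ≤ C ∧ ∀ a b c d h j k : ℕ,
    a + c = b + d → c = j + 2 * d → b = k + 2 * a → 2 * (b + c) + 10 = h + 5 * (a + d) → j ≤ k →
    ¬ (h = 0 ∧ j % 2 = 1) → ¬ (h = 1 ∧ (j = 1 ∨ j = 3)) → (b : ℝ) + c ≤ (10 - ε) * (a + d) →
    ε * j + √(2 * (b : ℝ)) + C ≤ a → Conf a b c d := by
  have e0 : 0 < min ε 1 := lt_min hε one_pos
  have e1 := min_le_left ε 1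
  have e2 := min_le_right ε 1
  generalize min ε 1 = e at e0 e1 e2
  obtain ⟨C, hC⟩ := hSUG (e / 64) (by positivity) (by linarith)
  refine ⟨|C| + 42, by linarith [abs_nonneg C], fun a b c d h j k h1 h2 h3 h4 h5 h6 h7 h8 h9 => ?_⟩
  have r1 : (a : ℝ) + d + h = 2 * (j + k) + 10 := by exact_mod_cast (by omega : a + d + h = 2 * (j + k) + 10)
  have r2 : (b : ℝ) + c = j + k + 2 * (a + d) := by exact_mod_cast (by omega : b + c = j + k + 2 * (a + d))
  have r3 : 2 * (a : ℝ) + h = 3 * j + k + 10 := by exact_mod_cast (by omega : 2 * a + h = 3 * j + k + 10)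
  have r4 : √(2 * (k : ℝ)) ≤ √(2 * (b : ℝ)) := Real.sqrt_le_sqrt (by
    have : (k : ℝ) ≤ b := by exact_mod_cast (by omega : k ≤ b)
    linarith)
  have p1 : (0 : ℝ) ≤ a + d := by positivity
  have p2 : (0 : ℝ) ≤ j + k := by positivity
  have p3 : (0 : ℝ) ≤ j := by positivity
  have p4 := Real.sqrt_nonneg (2 * (k : ℝ))
  obtain ⟨a', b', c', d', hs, k1, k2, k3⟩ := hC h j k h5 (by omega) h6 h7 (by
    refine le_of_mul_le_mul_left ?_ (show 0 < 8 - e by linarith)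
    have q1 : (j : ℝ) + k ≤ (8 - e) * (a + d) := by nlinarith [mul_le_mul_of_nonneg_right e1 p1]
    rw [show (a : ℝ) + d = 2 * (j + k) + 10 - h by linarith] at q1
    nlinarith [mul_nonneg (mul_pos e0 e0).le p2]) (by
    have q1 : e / 64 * j ≤ 2 * (ε * j) := by nlinarith
    linarith [le_abs_self C, abs_nonneg C])
  have := hs.conf.euler
  obtain ⟨rfl, rfl, rfl, rfl⟩ : a' = a ∧ b' = b ∧ c' = c ∧ d' = d := by omega
  exact hs.conf

end MAIQx

theorem p_MAIQ (hJ1 : S_J1) (hJ3 : S_J3) (hSUG : S_SUG) :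
    S_MAIQ := by
  intro ε hε
  obtain ⟨C, hC, H⟩ := MAIQx.half hSUG hε
  refine ⟨C, fun f h1 h2 h3 => ?_⟩
  have big : ∀ x y z w : ℤ, 2 * y ≤ x → ε * ((x : ℝ) - 2 * y) + √(2 * (z : ℝ)) + C ≤ w →
      37 ≤ w := fun x y z w a b => by
    have a1 : (0 : ℝ) ≤ x - 2 * y := by exact_mod_cast sub_nonneg.2 a
    have a2 : 0 ≤ √(2 * (z : ℝ)) := by positivity
    have a3 : (37 : ℝ) ≤ w := by linarith [mul_nonneg hε.le a1]
    exact_mod_cast a3
  rw [mem_iff_conf]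
  constructor
  · rintro ⟨a, b, c, d, h, e0, e1, e2, e3⟩
    have c1 := h.euler
    have c2 := hJ1 _ _ _ _ h
    have c3 := hJ1 _ _ _ _ h.dual
    have c4 := h.fat
    have c5 := h.even
    have c6 := hJ3 _ _ _ _ h
    have c7 := hJ3 _ _ _ _ h.dual
    have c8 := big _ _ _ _ (by omega) h2
    have c9 := big _ _ _ _ (by omega) h3
    refine ⟨by omega, by omega, by omega, by omega, ?_, ?_⟩
    · rintro ⟨x, y, hy⟩
      obtain ⟨j, hj⟩ := c5 (by omega)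
      omega
    · rintro ⟨x, y | y | y | y⟩
      · have := c2.2 (by omega); omega
      · have := c6 (by omega) (by omega); omega
      · have := c3.2 (by omega); omega
      · have := c7 (by omega) (by omega); omega
  · rintro ⟨c1, c2, c3, c4, c5, c6⟩
    have c8 := big _ _ _ _ c2 h2
    have c9 := big _ _ _ _ c3 h3
    rw [Int.odd_iff] at c5
    obtain ⟨a, e0⟩ := Int.eq_ofNat_of_zero_le (show 0 ≤ f 0 by omega)
    obtain ⟨b, e1⟩ := Int.eq_ofNat_of_zero_le (show 0 ≤ f 1 by omega)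
    obtain ⟨c, e2⟩ := Int.eq_ofNat_of_zero_le (show 0 ≤ f 2 by omega)
    obtain ⟨d, e3⟩ := Int.eq_ofNat_of_zero_le (show 0 ≤ f 3 by omega)
    refine ⟨a, b, c, d, ?_, e0, e1, e2, e3⟩
    obtain ⟨j, hj⟩ : ∃ j, c = j + 2 * d := ⟨c - 2 * d, by omega⟩
    obtain ⟨k, hk⟩ : ∃ k, b = k + 2 * a := ⟨b - 2 * a, by omega⟩
    obtain ⟨h, hh⟩ : ∃ h, 2 * (b + c) + 10 = h + 5 * (a + d) := ⟨2 * (b + c) + 10 - 5 * (a + d), by omega⟩
    simp only [e0, e1, e2, e3, Int.cast_natCast] at h1 h2 h3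
    rcases le_total j k with g | g
    · refine H a b c d h j k (by omega) hj hk hh g (by omega) (by omega) h1 ?_
      rwa [show (c : ℝ) - 2 * d = j by rw [hj]; push_cast; ring] at h2
    · refine (H d c b a h k j (by omega) hk hj (by omega) g (by omega) (by omega) (by linarith) ?_).dual
      rwa [show (b : ℝ) - 2 * a = k by rw [hk]; push_cast; ring] at h3

end

end Pool.Agent.P.MP_af6acb_co.Reg
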