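import Pool.Agent.P.MP_af6acb_co.Reg.Iface

/-! Facets of polytopes next to the plane of minimal fatness. -/

set_option autoImplicit false
set_option linter.unusedSectionVars false
set_option linter.unusedVariables false

namespace Pool.Agent.P.MP_af6acb_co.Reg

section


open Finset Module

theorem p_RB :
    S_RB := by
  intro ι _ V R _ hP hr σ hσ
  obtain ⟨h1, h2⟩ := mem_faces.1 hσ
  have h3 := (hP.sub h1.1).card_edges_polygon h2
  have h4 : ∀ e ∈ faces σ R 2, ∃ G ∈ (faces V R 3).erase σ, σ ∩ G = e := fun e he => by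
    rw [faces_sub h1, mem_filter] at he
    obtain ⟨G, a, b, c, -⟩ := exists_other (k := 2) hr hσ he.1 he.2
    exact ⟨G, mem_erase.2 ⟨b, a⟩, c⟩
  have h5 : (faces σ R 2).card ≤ ((faces V R 3).erase σ).card :=
    card_le_card_of_surjOn (fun G => σ ∩ G) fun e he => by
      obtain ⟨G, a, b⟩ := h4 e he
      exact ⟨G, a, b⟩
  have h6 := card_erase_add_one hσ
  omega

end

section


open Finset Module

theorem p_KEY (hRB : S_RB) :
    S_KEY := by
  intro ι _ V R _ hP hr F hF
  obtain ⟨hF1, hF2⟩ := mem_faces.1 hF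
  have hex : ∀ σ : Finset ι, ∃ G : Finset ι, σ ∈ faces F R 3 →
      G ∈ faces V R 4 ∧ G ≠ F ∧ F ∩ G = σ ∧ σ ∈ faces G R 3 := by
    intro σ
    by_cases h : σ ∈ faces F R 3
    · rw [faces_sub hF1, mem_filter] at h
      obtain ⟨G, hG, h1, h2, -⟩ := exists_other (k := 3) hr hF h.1 h.2
      refine ⟨G, fun _ => ⟨hG, h1, h2, ?_⟩⟩
      rw [faces_sub (mem_faces.1 hG).1, mem_filter]
      exact ⟨h.1, h2 ▸ inter_subset_right⟩
    · exact ⟨∅, fun h' => absurd h' h⟩
  choose G hG using hex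
  have hinj : Set.InjOn G (faces F R 3 : Set (Finset ι)) := fun a ha b hb hab => by
    rw [← (hG a ha).2.2.1, ← (hG b hb).2.2.1, hab]
  have hsub : (faces F R 3).image G ⊆ (faces V R 4).erase F := fun X hX => by
    obtain ⟨σ, hσ, rfl⟩ := mem_image.1 hX
    exact mem_erase.2 ⟨(hG σ hσ).2.1, (hG σ hσ).1⟩
  have h4 : ∀ X ∈ faces V R 4, 4 ≤ (faces X R 3).card := fun X hX => by
    obtain ⟨a1, a2⟩ := mem_faces.1 hX
    have := steinitz (hP.sub a1.1) a2
    omega
  have e1 : ∑ σ ∈ faces F R 3, (σ.card + 1) ≤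
      ∑ X ∈ (faces F R 3).image G, (faces X R 3).card := by
    rw [sum_image hinj]
    refine sum_le_sum (fun σ hσ => ?_)
    obtain ⟨a1, a2⟩ := mem_faces.1 (hG σ hσ).1
    exact hRB ι _ R (hP.sub a1.1) a2 σ (hG σ hσ).2.2.2
  have e2 := card_nsmul_le_sum (((faces V R 4).erase F) \ (faces F R 3).image G)
    (fun X => (faces X R 3).card) 4 (fun X hX => h4 X (mem_erase.1 (mem_sdiff.1 hX).1).2)
  have e3 := sum_sdiff (f := fun X => (faces X R 3).card) hsub
  have e4 := add_sum_erase (faces V R 4) (fun X => (faces X R 3).card) hF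
  have e5 := sum_ridges (V := V) (R := R) hr
  have e6 := (hP.sub hF1.1).euler hF2
  have e7 := card_sdiff_add_card_eq_card hsub
  have e8 := card_image_of_injOn hinj
  have e9 := card_erase_add_one hF
  rw [sum_add_distrib, sum_const, smul_eq_mul, mul_one] at e1
  simp only [smul_eq_mul] at e2 e3 e4
  omega

end

section


open Finset Module

theorem p_J1 (hKEY : S_KEY) :
    S_J1 := by
  rintro a b c d ⟨ι, _, V, R, _, hP, hr, rfl, rfl, rfl, rfl⟩
  have hs : ∀ F ∈ faces V R 4, 4 ≤ F.card ∧ F.card + 4 ≤ 2 * (faces F R 3).card ∧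
      (faces F R 3).card + 4 ≤ 2 * F.card := fun F hF =>
    steinitz (hP.sub (mem_faces.1 hF).1.1) (mem_faces.1 hF).2
  have h1 := sum_ridges hr
  have h2 := card_nsmul_le_sum (faces V R 4) (fun F => (faces F R 3).card) 4
    (fun F hF => by have := hs F hF; omega)
  rw [smul_eq_mul] at h2
  refine ⟨by omega, fun h => ?_⟩
  have h3 : ∑ F ∈ faces V R 4, F.card ≤ ∑ F ∈ faces V R 4, (faces F R 3).card :=
    sum_le_sum fun F hF => by
      have := hs F hF
      have := hKEY ι V R hP hr F hF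
      omega
  have h4 := hP.lower_bound hr
  have h5 := flag_facets hP hr
  have h6 := euler4 hP hr
  omega

end

section


open Finset Module

namespace PRISMx

/-- A function bounded below by `c` whose sum is `c` times the size is constant. -/
lemma const {α : Type} {s : Finset α} {f : α → ℕ} {c : ℕ} (h : ∀ x ∈ s, c ≤ f x)
    (hs : ∑ x ∈ s, f x ≤ s.card * c) : ∀ x ∈ s, f x = c := by
  have e : ∑ _x ∈ s, c = ∑ x ∈ s, f x :=
    le_antisymm (sum_le_sum h) (by simpa using hs)
  exact fun x hx => ((sum_eq_sum_iff_of_le h).1 e x hx).symm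

lemma sum_mult {ι : Type} [DecidableEq ι] {V : Finset ι} {P : Finset (Finset ι)}
    (h : ∀ A ∈ P, A ⊆ V) : ∑ v ∈ V, mult P v = ∑ A ∈ P, A.card := by
  have := sum_card_bipartiteAbove_eq_sum_card_bipartiteBelow (s := V) (t := P)
    (fun v X => v ∈ X)
  simp only [bipartiteAbove, bipartiteBelow] at this
  unfold mult
  rw [this]
  exact sum_congr rfl (fun X hX => by rw [filter_mem_eq_inter, inter_eq_right.2 (h X hX)])

end PRISMx

theorem p_PRISM (hRB : S_RB) :
    S_PRISM := by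
  intro ι _ V R _ hP hr hV hF
  have h1 := hP.euler hr
  have h2 := hP.sum_card_rk_four hr
  have h4 : ∀ σ ∈ big V R, σ.card = 4 := fun σ hσ => by
    obtain ⟨a, b⟩ := mem_filter.1 hσ
    have := hRB ι V R hP hr σ a
    omega
  have h3 : (big V R).card = 3 := by
    have e : ∑ σ ∈ faces V R 3, σ.card =
        ∑ σ ∈ faces V R 3, (3 + if 4 ≤ σ.card then 1 else 0) :=
      sum_congr rfl fun σ hσ => by
        have := hRB ι V R hP hr σ hσ
        have := three_le_card hσ
        split_ifs <;> omega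
    rw [sum_add_distrib, ← card_filter, sum_const, smul_eq_mul] at e
    unfold big
    omega
  have hsub : ∀ σ ∈ big V R, σ ⊆ V := fun σ hσ => (mem_faces.1 (mem_filter.1 hσ).1).1.1
  have hcov : ∀ A ∈ big V R, ∀ B ∈ big V R, A ≠ B → A ∪ B = V := by
    intro A hA B hB hne
    obtain ⟨a1, a2⟩ := mem_faces.1 (mem_filter.1 hA).1
    obtain ⟨b1, b2⟩ := mem_faces.1 (mem_filter.1 hB).1
    have k1 := a1.rk_inter_lt b1 (by omega) hne
    have k2 := hP.card_le_of_rk_le_two (inter_subset_left.trans a1.1 : A ∩ B ⊆ V) (by omega)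
    have k3 := card_union_add_card_inter A B
    have := h4 A hA
    have := h4 B hB
    exact eq_of_subset_of_card_le (union_subset a1.1 b1.1) (by omega)
  have hm : ∀ w ∈ V, 2 ≤ mult (big V R) w := by
    intro w hw
    by_contra hc
    have k := card_filter_add_card_filter_not (s := big V R) (fun A => w ∈ A)
    unfold mult at hc
    obtain ⟨A, hA, B, hB, hne⟩ := one_lt_card.1 (by omega :
      1 < ((big V R).filter (fun A => ¬ w ∈ A)).card)
    obtain ⟨a1, a2⟩ := mem_filter.1 hA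
    obtain ⟨b1, b2⟩ := mem_filter.1 hB
    rw [← hcov A a1 B b1 hne, mem_union] at hw
    exact hw.elim a2 b2
  have hs : ∑ w ∈ V, mult (big V R) w = 12 := by
    rw [PRISMx.sum_mult hsub, sum_congr rfl h4, sum_const, h3]; rfl
  exact ⟨h3, h4, fun w hw => ⟨PRISMx.const hm (by omega) w hw,
    PRISMx.const (fun v hv => three_le_nbr hP hr hv) (by omega) w hw⟩⟩

end

section


open Finset Module

theorem p_ODD (hRB : S_RB) :
    S_ODD := by
  intro ι _ V R _ hP hr h
  have he := hP.euler hr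
  have h4 : ∀ σ ∈ faces V R 3, σ.card ≤ 4 := fun σ hσ => by
    rcases h with h | h
    · have := hRB ι V R hP hr σ hσ; omega
    · exact h.2.2 σ hσ
  have hs : ∑ σ ∈ faces V R 3, σ.card = 3 * (faces V R 3).card + (big V R).card := by
    rw [big, card_filter, card_eq_sum_ones, mul_sum, ← sum_add_distrib]
    refine sum_congr rfl fun σ hσ => ?_
    have := h4 σ hσ
    have := three_le_card hσ
    split_ifs <;> omega
  have hb : ∀ σ ∈ big V R, IsFace V R σ ∧ rk R σ = 3 ∧ σ.card = 4 := fun σ hσ => by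
    obtain ⟨a, b⟩ := mem_filter.1 hσ
    exact ⟨(mem_faces.1 a).1, (mem_faces.1 a).2, le_antisymm (h4 σ a) b⟩
  rcases h with h | h
  · obtain ⟨q, hq⟩ := card_eq_one.1 (show (big V R).card = 1 by omega)
    obtain ⟨a, -, c⟩ := hb q (by rw [hq]; simp)
    obtain ⟨w, hw⟩ : q.Nonempty := card_pos.1 (by omega)
    exact ⟨w, a.1 hw, by rw [hq, mult, filter_singleton, if_pos hw]; rfl⟩
  by_contra hc
  push Not at hc
  have hB : (big V R).card = 4 := by omega
  have h2 : ∀ v ∈ V, 2 ≤ mult (big V R) v := fun v hv => by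
    have a1 := three_le_nbr hP hr hv
    rw [hP.card_nbr_rk_four hr hv] at a1
    have a2 : (faces V R 3).filter (fun X => v ∈ X) ⊆
        (big V R).filter (fun X => v ∈ X) ∪ (faces V R 3 \ big V R) := fun X hX => by
      obtain ⟨a, b⟩ := mem_filter.1 hX
      by_cases c : X ∈ big V R
      · exact mem_union_left _ (mem_filter.2 ⟨c, b⟩)
      · exact mem_union_right _ (mem_sdiff.2 ⟨a, c⟩)
    have a3 := (card_le_card a2).trans (card_union_le _ _)
    have a4 := card_sdiff_add_card_eq_card (show big V R ⊆ faces V R 3 from filter_subset _ _)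
    have a5 := hc v hv
    unfold mult at a5 ⊢
    omega
  have hm : ∑ v ∈ V, mult (big V R) v = 16 := by
    have := sum_card_bipartiteAbove_eq_sum_card_bipartiteBelow (s := V) (t := big V R)
      (fun v X => v ∈ X)
    simp only [bipartiteAbove, bipartiteBelow] at this
    unfold mult
    rw [this, sum_congr rfl (g := fun _ => 4) fun σ hσ => ?_, sum_const, hB]
    · rfl
    · rw [filter_mem_eq_inter, inter_eq_right.2 (hb σ hσ).1.1, (hb σ hσ).2.2]
  obtain ⟨w, hw, hw3⟩ : ∃ w ∈ V, 2 < mult (big V R) w := by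
    by_contra hn
    push Not at hn
    have := sum_le_card_nsmul V (fun v => mult (big V R) v) 2 hn
    rw [smul_eq_mul, hm] at this
    omega
  have hall : (big V R).filter (fun X => w ∈ X) = big V R := by
    refine eq_of_subset_of_card_le (filter_subset _ _) ?_
    have := hc w hw
    unfold mult at this hw3
    omega
  have hin : ∀ q ∈ big V R, w ∈ q := fun q hq => by
    rw [← hall] at hq; exact (mem_filter.1 hq).2
  obtain ⟨q, hq⟩ : (big V R).Nonempty := card_pos.1 (by omega)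
  obtain ⟨q1, q2, q3⟩ := hb q hq
  have hsub : q.erase w ⊆ nbr q R w := fun y hy => by
    obtain ⟨y1, y2⟩ := mem_erase.1 hy
    obtain ⟨p, hp, hpq⟩ := exists_mem_ne (h2 y (q1.1 y2)) q
    obtain ⟨p0, p1⟩ := mem_filter.1 hp
    obtain ⟨p2, p3, -⟩ := hb p p0
    have a1 := q1.rk_inter_lt p2 (by omega) hpq.symm
    have a2 := q1.inter p2
    have a3 := hP.eq_pair a2.1 (by omega) (mem_inter.2 ⟨hin q hq, hin p p0⟩)
      (mem_inter.2 ⟨y2, p1⟩) y1
    exact mem_nbr.2 ⟨y2, y1, a3 ▸ a2.sub q1.1 inter_subset_left⟩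
  have a1 := card_le_card hsub
  rw [(hP.sub q1.1).card_nbr_polygon q2 (hin q hq), card_erase_of_mem (hin q hq)] at a1
  omega

end

section


open Finset Module

namespace REDx

variable {ι : Type} [DecidableEq ι] {R : Submodule ℝ (ι → ℝ)} {V : Finset ι}
  [FiniteDimensional ℝ R]

lemma sum_mult (hr : rk R V = 5) (w : ι) : 2 ∣ ∑ F ∈ faces V R 4, mult (big F R) w := by
  refine ⟨∑ σ ∈ faces V R 3, if 4 ≤ σ.card ∧ w ∈ σ then 1 else 0, ?_⟩
  rw [← sum_facets_ridges hr]
  exact sum_congr rfl fun F _ => by rw [mult, big, filter_filter, card_filter]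

lemma even_mult (hPRISM : S_PRISM) (hP : IsPoly V R) (hr : rk R V = 4)
    (h : V.card = 4 ∨ (V.card = 6 ∧ (faces V R 3).card = 5)) (w : ι) : 2 ∣ mult (big V R) w := by
  have key : (∀ σ ∈ big V R, w ∉ σ) → 2 ∣ mult (big V R) w := fun h0 => by
    rw [mult, filter_eq_empty_iff.2 h0, card_empty]
    exact dvd_zero 2
  by_cases hw : w ∈ V
  · rcases h with h | h
    · refine key fun σ hσ _ => ?_
      obtain ⟨h1, h2⟩ := mem_filter.1 hσ
      obtain ⟨h3, h4⟩ := mem_faces.1 h1
      rw [eq_of_subset_of_card_le h3.1 (by omega)] at h4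
      omega
    · rw [((hPRISM ι V R hP hr h.1 h.2).2.2 w hw).1]
  · exact key fun σ hσ c => hw ((mem_faces.1 (mem_filter.1 hσ).1).1.1 c)

end REDx

open REDx in
theorem p_RED (hRB : S_RB) (hKEY : S_KEY) (hPRISM : S_PRISM) (hODD : S_ODD) :
    S_RED := by
  intro ι _ V R _ hP hr h1 h2
  have hF : ∀ F ∈ faces V R 4, IsPoly F R ∧ rk R F = 4 := fun F hF =>
    ⟨hP.sub (mem_faces.1 hF).1.1, (mem_faces.1 hF).2⟩
  have hs : ∀ F ∈ faces V R 4, 4 ≤ F.card ∧ F.card + 4 ≤ 2 * (faces F R 3).card ∧ F.card ≤ 7 :=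
    fun F h => by
      have a1 := steinitz (hF F h).1 (hF F h).2
      have a2 := hKEY ι V R hP hr F h
      omega
  set x : Finset ι → ℕ := fun F => 2 * (faces F R 3).card - 4 - F.card with hx
  have e1 := sum_ridges (R := R) hr
  have e2 : ∑ F ∈ faces V R 4, (x F + F.card + 4) = ∑ F ∈ faces V R 4, 2 * (faces F R 3).card :=
    sum_congr rfl fun F h => by
      have := hs F h
      simp only [hx]
      omega
  rw [sum_add_distrib, sum_add_distrib, ← mul_sum, e1, sum_const, smul_eq_mul] at e2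
  have e3 := flag_facets hP hr
  have e4 := hP.lower_bound hr
  have e5 := euler4 hP hr
  have h0 : ∀ F ∈ faces V R 4, x F = 0 → (F.card = 4 ∧ (faces F R 3).card = 4) ∨
      (F.card = 6 ∧ (faces F R 3).card = 5) := fun F h c => by
    have := hs F h
    simp only [hx] at c
    omega
  have hz : ∀ F ∈ faces V R 4, x F = 0 := by
    intro W hW
    by_contra hne
    have e6 := add_sum_erase _ x hW
    have e7 : ∀ F ∈ (faces V R 4).erase W, x F = 0 := sum_eq_zero_iff.1 (by omega)
    have e8 : x W = 1 := by omega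
    obtain ⟨w, -, hw⟩ := hODD ι W R (hF W hW).1 (hF W hW).2 (by
      have a1 := hs W hW
      simp only [hx] at e8
      rcases (by omega : W.card = 5 ∧ (faces W R 3).card = 5 ∨
        W.card = 7 ∧ (faces W R 3).card = 6) with c | c
      · exact Or.inl c
      · refine Or.inr ⟨c.1, c.2, fun σ hσ => ?_⟩
        rw [faces_sub (mem_faces.1 hW).1, mem_filter] at hσ
        obtain ⟨G, hG, b1, b2, -⟩ := exists_other (k := 3) hr hW hσ.1 hσ.2
        have b3 := hRB ι G R (hF G hG).1 (hF G hG).2 σ (by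
          rw [faces_sub (mem_faces.1 hG).1, mem_filter]
          exact ⟨hσ.1, b2 ▸ inter_subset_right⟩)
        have b4 := h0 G hG (e7 G (mem_erase.2 ⟨b1, hG⟩))
        omega)
    have a1 := sum_mult (R := R) hr w
    rw [← add_sum_erase _ _ hW] at a1
    have a2 : 2 ∣ ∑ F ∈ (faces V R 4).erase W, mult (big F R) w := dvd_sum fun F h => by
      have b1 := (mem_erase.1 h).2
      exact even_mult hPRISM (hF F b1).1 (hF F b1).2 ((h0 F b1 (e7 F h)).imp_left And.left) w
    omega
  rw [sum_eq_zero hz] at e2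
  refine ⟨⟨hP, hr, fun F h => (h0 F h (hz F h)).imp_left And.left, ?_⟩, by omega⟩
  have e9 : ∑ F ∈ faces V R 4, (faces F R 3).card =
      ∑ F ∈ faces V R 4, (4 + if F.card = 6 then 1 else 0) := sum_congr rfl fun F h => by
    have := h0 F h (hz F h)
    split_ifs <;> omega
  rw [sum_add_distrib, sum_const, smul_eq_mul, ← card_filter] at e9
  rw [pr]
  omega

end

section


open Finset Module

namespace ADJx

variable {ι : Type} [DecidableEq ι] {R : Submodule ℝ (ι → ℝ)} {V : Finset ι}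
  [FiniteDimensional ℝ R]

theorem mem_pr (h : Six V R) {F σ : Finset ι} (hF : F ∈ faces V R 4) (hσ : σ ∈ big V R)
    (hs : σ ⊆ F) : F ∈ pr V R := by
  obtain ⟨h1, h2⟩ := mem_filter.1 hσ
  rcases h.fac F hF with c | c
  · have e := eq_of_subset_of_card_le hs (by omega)
    have a := (mem_faces.1 h1).2
    have b := (mem_faces.1 hF).2
    rw [e] at a
    omega
  · exact mem_filter.2 ⟨hF, c.1⟩

theorem inj (h : Six V R) {A : Finset ι} (hA : A ∈ pr V R) :
    Set.InjOn (fun B => A ∩ B) (adj V R A) := by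
  intro B hB B' hB' e
  obtain ⟨b1, b2, b3⟩ := mem_filter.1 (mem_coe.1 hB)
  obtain ⟨c1, c2, -⟩ := mem_filter.1 (mem_coe.1 hB')
  obtain ⟨G, -, -, -, hG⟩ := exists_other (k := 3) h.top (mem_filter.1 hA).1 (mem_filter.1 b3).1
    inter_subset_left
  rw [(hG B (mem_filter.1 b1).1 inter_subset_right).resolve_left b2,
    (hG B' (mem_filter.1 c1).1 (e.subset.trans inter_subset_right)).resolve_left c2]

theorem img (h : Six V R) {A : Finset ι} (hA : A ∈ pr V R) :
    (adj V R A).image (fun B => A ∩ B) = big A R := by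
  have a1 := (mem_filter.1 hA).1
  ext σ
  rw [big_sub (mem_faces.1 a1).1, mem_image, mem_filter]
  constructor
  · rintro ⟨B, hB, rfl⟩
    exact ⟨(mem_filter.1 hB).2.2, inter_subset_left⟩
  · rintro ⟨h1, h2⟩
    obtain ⟨G, g1, g2, g3, -⟩ := exists_other (k := 3) h.top a1 (mem_filter.1 h1).1 h2
    exact ⟨G, mem_filter.2 ⟨mem_pr h g1 h1 (g3 ▸ inter_subset_right), g2, g3 ▸ h1⟩, g3⟩

end ADJx

theorem p_ADJ (hPRISM : S_PRISM) :
    S_ADJ := by
  intro ι _ V R _ h
  have hp : ∀ A ∈ pr V R, (big A R).card = 3 ∧ (∀ σ ∈ big A R, σ.card = 4) ∧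
      ∀ w ∈ A, mult (big A R) w = 2 ∧ (nbr A R w).card = 3 := fun A hA => by
    obtain ⟨a1, a2⟩ := mem_filter.1 hA
    obtain ⟨a3, a4⟩ := mem_faces.1 a1
    exact hPRISM ι A R (h.poly.sub a3.1) a4 a2 ((h.fac A a1).resolve_left (by omega)).2
  refine ⟨?_, fun σ hσ => ?_, fun A hA => ⟨?_, fun B hB => ?_, fun v hv => ?_⟩⟩
  · have e := sum_facets_ridges h.top (fun σ => if 4 ≤ σ.card then 1 else 0)
    simp only [← card_filter] at e
    change ∑ F ∈ faces V R 4, (big F R).card = 2 * (big V R).card at e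
    have e2 : ∑ F ∈ pr V R, (big F R).card = ∑ F ∈ faces V R 4, (big F R).card := by
      refine sum_subset (filter_subset _ _) fun F hF hn => ?_
      rw [card_eq_zero, big_sub (mem_faces.1 hF).1, filter_eq_empty_iff]
      exact fun σ hσ hs => hn (ADJx.mem_pr h hF hσ hs)
    rw [sum_congr rfl fun F hF => (hp F hF).1, sum_const, h.six, smul_eq_mul] at e2
    omega
  · obtain ⟨h1, h2⟩ := mem_faces.1 (mem_filter.1 hσ).1
    obtain ⟨F, f1, f2, -, f3⟩ := h1.exists_between (isFace_self V R) h1.1 (r := 4) (by omega)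
      (by rw [h.top]; omega)
    exact f2.trans (subset_biUnion_of_mem id (ADJx.mem_pr h (mem_faces.2 ⟨f1, f3⟩) hσ f2))
  · rw [← card_image_of_injOn (ADJx.inj h hA), ADJx.img h hA, (hp A hA).1]
  · exact (hp A hA).2.1 _ (ADJx.img h hA ▸ mem_image_of_mem _ hB)
  · rw [← ((hp A hA).2.2 v hv).1, ← ADJx.img h hA, mult, mult, filter_image,
      card_image_of_injOn ((ADJx.inj h hA).mono (coe_subset.2 (filter_subset _ _)))]
    simp [hv]

end

section


open Finset Module

theorem p_THIRD (hPRISM : S_PRISM) :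
    S_THIRD := by
  intro ι _ V R _ hS A hA v hv hall
  obtain ⟨hA4, hA6⟩ := mem_filter.1 hA
  obtain ⟨hAf, hAr⟩ := mem_faces.1 hA4
  have hPA : IsPoly A R := hS.poly.sub hAf.1
  have h5 : (faces A R 3).card = 5 := by
    rcases hS.fac A hA4 with h | h
    · omega
    · exact h.2
  obtain ⟨h2, h3⟩ := (hPRISM ι A R hPA hAr hA6 h5).2.2 v hv
  rw [hPA.card_nbr_rk_four hAr hv] at h3
  obtain ⟨t, ht, htb⟩ : ∃ t ∈ (faces A R 3).filter (fun σ => v ∈ σ), t ∉ big A R := by
    by_contra hc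
    push Not at hc
    have : ((faces A R 3).filter (fun σ => v ∈ σ)).card ≤ mult (big A R) v :=
      card_le_card fun t ht => mem_filter.2 ⟨hc t ht, (mem_filter.1 ht).2⟩
    omega
  obtain ⟨ht3, htv⟩ := mem_filter.1 ht
  have ht' := ht3
  rw [faces_sub hAf] at ht'
  obtain ⟨htV, htA⟩ := mem_filter.1 ht'
  have hnb : t ∉ big V R := fun h => htb (mem_filter.2 ⟨ht3, (mem_filter.1 h).2⟩)
  obtain ⟨Z, hZ, hZA, hAZ, -⟩ := exists_other (k := 3) hS.top hA4 htV htA
  have hvZ : v ∈ Z := (mem_inter.1 (hAZ ▸ htv : v ∈ A ∩ Z)).2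
  refine ⟨Z, mem_filter.2 ⟨hZ, hall Z hZ hvZ⟩, hvZ, hZA, fun h => ?_, fun B hB hs => ?_⟩
  · exact hnb (hAZ ▸ (mem_filter.1 h).2.2)
  · have hb := (mem_filter.1 hB).2.2
    obtain ⟨b1, b2⟩ := mem_faces.1 (mem_filter.1 hb).1
    obtain ⟨t1, t2⟩ := mem_faces.1 htV
    rw [hAZ] at hs
    exact hnb ((t1.eq_of_rk_le (subset_inter htA hs) b1.1 (by omega)) ▸ hb)

end

section


open Finset Module

theorem p_MD (hPRISM : S_PRISM) :
    S_MD := by
  intro ι _ V R _ h v hv
  have hP := h.poly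
  set N := nbr V R v ∩ (pr V R).biUnion id with hN
  set Q := (pr V R).filter (fun A => v ∈ A) with hQ
  have hQ' : ∀ A ∈ Q, A ∈ pr V R ∧ IsFace V R A ∧ rk R A = 4 ∧ A.card = 6 ∧ v ∈ A := by
    intro A hA
    obtain ⟨h1, h2⟩ := mem_filter.1 hA
    obtain ⟨h3, h4⟩ := mem_filter.1 h1
    exact ⟨h1, (mem_faces.1 h3).1, (mem_faces.1 h3).2, h4, h2⟩
  have hmap : ∀ A ∈ Q, A ∩ nbr V R v ∈ powersetCard 3 N := by
    intro A hA
    obtain ⟨h1, h2, h3, h4, h5⟩ := hQ' A hA
    refine mem_powersetCard.2 ⟨fun w hw => ?_, ?_⟩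
    · exact mem_inter.2 ⟨(mem_inter.1 hw).2, mem_biUnion.2 ⟨A, h1, (mem_inter.1 hw).1⟩⟩
    · have h6 : (faces A R 3).card = 5 := by
        rcases h.fac A (mem_faces.2 ⟨h2, h3⟩) with h7 | h7
        · omega
        · exact h7.2
      have := ((hPRISM ι A R (hP.sub h2.1) h3 h4 h6).2.2 v h5).2
      rwa [nbr_face h2 h5, inter_comm] at this
  have hinj : Set.InjOn (fun A => A ∩ nbr V R v) (Q : Set (Finset ι)) := by
    intro A hA B hB he
    obtain ⟨-, a2, -, -, a5⟩ := hQ' A hA
    obtain ⟨-, b2, -, -, b5⟩ := hQ' B hB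
    have he' : A ∩ nbr V R v = B ∩ nbr V R v := he
    exact Subset.antisymm (hP.fig_sub a2 a5 b2 b5 (he' ▸ inter_subset_left))
      (hP.fig_sub b2 b5 a2 a5 (he' ▸ inter_subset_left))
  have hsub : Q.image (fun A => A ∩ nbr V R v) ⊆ powersetCard 3 N := by
    intro X hX
    obtain ⟨A, hA, rfl⟩ := mem_image.1 hX
    exact hmap A hA
  have hc : (Q.image (fun A => A ∩ nbr V R v)).card = Q.card := card_image_of_injOn hinj
  refine ⟨?_, fun hm hd => ?_⟩
  · have := card_le_card hsub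
    rwa [hc, card_powersetCard] at this
  have hm' : Q.card = 4 := hm
  have hd' : N.card = 4 := hd
  have heq : Q.image (fun A => A ∩ nbr V R v) = powersetCard 3 N :=
    eq_of_subset_of_card_le hsub (by rw [hc, card_powersetCard, hm', hd']; rfl)
  have htri : ∀ t ∈ N, IsFace (nbr V R v) (K R {v}) (N.erase t) := by
    intro t ht
    have h1 : N.erase t ∈ powersetCard 3 N :=
      mem_powersetCard.2 ⟨erase_subset _ _, by rw [card_erase_of_mem ht, hd']⟩
    rw [← heq] at h1
    obtain ⟨A, hA, he⟩ := mem_image.1 h1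
    obtain ⟨-, a2, -, -, a5⟩ := hQ' A hA
    rw [← he]
    exact hP.fig_face a2 a5
  have hNs : N ⊆ nbr V R v := inter_subset_left
  have hrN := rk_tetra (hP.fig hv) hNs hd' htri
  have hrT := hP.fig_rk_top hv
  have htop := h.top
  have hE : nbr V R v = N := (hP.fig hv).eq_of_simplex hNs (card_pos.1 (by omega))
    (by omega) (by omega) htri
  refine ⟨hE ▸ inter_subset_right, fun F hF hvF => ?_⟩
  have hi : Indep (K R {v}) (nbr V R v) := indep_of_rk_eq (by rw [hE]; omega)
  have h4 := hP.fig_card hv 3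
  rw [hi.faces_eq, card_powersetCard, hE, hd'] at h4
  have hQs : Q ⊆ (faces V R 4).filter (fun X => v ∈ X) := by
    intro A hA
    obtain ⟨-, a2, a3, -, a5⟩ := hQ' A hA
    exact mem_filter.2 ⟨mem_faces.2 ⟨a2, a3⟩, a5⟩
  have hQe := eq_of_subset_of_card_le hQs (by rw [hm', ← h4]; rfl)
  exact (hQ' F (hQe ▸ mem_filter.2 ⟨hF, hvF⟩)).2.2.2.1

end

end Pool.Agent.P.MP_af6acb_co.Reg
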