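import Pool.Agent.P.MP_af6acb_co.Reg.Iface

/-! Six prisms. -/

set_option autoImplicit false
set_option linter.unusedSectionVars false
set_option linter.unusedVariables false

namespace Pool.Agent.P.MP_af6acb_co.Reg

section


open Finset Module

theorem p_SPA :
    S_SPA := by
  intro ι _ V R _ U Rows hr hU hrU hrig
  obtain ⟨β, e, hβ, he, hd, hx⟩ := exists_frame hU hr hrU
  let RU := Rows.filter (fun r => r ⊆ U)
  let RN := Rows.filter (fun r => ¬ r ⊆ U)
  have hc : RU.card + RN.card = Rows.card := card_filter_add_card_filter_not _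
  let L1 := (strMap RU).comp (fld V e)
  let L2 := (strMap RN).comp (fld V e)
  let LU := (strMap RU).comp (fld U e)
  have a1 := LinearMap.finrank_range_add_finrank_ker LU
  have a2 : triv U e ≤ LinearMap.ker LU := fun m hm => by
    rw [LinearMap.mem_ker]
    funext r
    exact (Anti.mono hm (mem_filter.1 r.2).2).str_eq
  have a3 := Submodule.finrank_mono a2
  rw [finrank_triv hU hβ he hd hx] at a3
  have a4 : LinearMap.range L1 ≤ LinearMap.range LU := by
    rintro _ ⟨m, rfl⟩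
    refine ⟨fun q => m (⟨q.1, hU q.1.2⟩, q.2), ?_⟩
    funext r
    refine str_congr (fun u hu w hw => ?_)
    have hu' : u ∈ U := (mem_filter.1 r.2).2 hu
    simp [fld, hu', hU hu']
  have a5 := Submodule.finrank_mono a4
  have a6 := LinearMap.finrank_range_add_finrank_ker L1
  let L3 := L2.domRestrict (LinearMap.ker L1)
  have b1 := LinearMap.finrank_range_add_finrank_ker L3
  have b2 : (LinearMap.ker L3).map (LinearMap.ker L1).subtype ≤ triv V e := by
    rintro _ ⟨m, hm, rfl⟩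
    refine hrig _ (fld_mem he _) (fun r hr' => ?_)
    by_cases h : r ⊆ U
    · exact congrFun (LinearMap.mem_ker.1 m.2) ⟨r, mem_filter.2 ⟨hr', h⟩⟩
    · exact congrFun (LinearMap.mem_ker.1 hm) ⟨r, mem_filter.2 ⟨hr', h⟩⟩
  have b3 := Submodule.finrank_mono b2
  rw [finrank_triv subset_rfl (fun j => hU (hβ j)) he hd hx,
    Submodule.finrank_map_subtype_eq] at b3
  have b4 := Submodule.finrank_le (LinearMap.range L3)
  simp only [finrank_fintype_fun_eq_card, Fintype.card_prod, Fintype.card_coe,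
    Fintype.card_fin] at a1 a6 b4
  change RU.card + 5 * V.card ≤ 5 * U.card + Rows.card
  omega

end

section


open Finset Module

namespace SPBx

variable {ι : Type} [DecidableEq ι] {R : Submodule ℝ (ι → ℝ)} {V : Finset ι}
  [FiniteDimensional ℝ R]

/-- A big 2-face has a diagonal from its apex. -/
lemma exists_diag (hP : IsPoly V R) {σ : Finset ι} (hσ : σ ∈ big V R) {a : ι} (ha : a ∈ σ) :
    ∃ x, x ∈ σ \ insert a (nbr V R a) := by
  obtain ⟨h1, h4⟩ := mem_filter.1 hσ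
  obtain ⟨k1, k2⟩ := mem_faces.1 h1
  have k3 := (hP.sub k1.1).card_nbr_polygon k2 ha
  by_contra hcon
  push Not at hcon
  have k4 : σ ⊆ insert a (nbr σ R a) := by
    intro x hx
    have := hcon x
    rw [mem_sdiff, not_and, not_not] at this
    rcases mem_insert.1 (this hx) with h | h
    · exact mem_insert.2 (Or.inl h)
    · refine mem_insert.2 (Or.inr ?_)
      rw [nbr_face k1 ha]
      exact mem_inter.2 ⟨h, hx⟩
  have k5 := card_le_card k4
  have k6 := card_insert_le a (nbr σ R a)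
  omega

lemma card_inside (hP : IsPoly V R) {c : Finset ι → ι} (hc : ∀ σ ∈ faces V R 3, c σ ∈ σ)
    {U : Finset ι} (hU : U ⊆ V) :
    U.card + ((faces V R 2).filter (fun e => e ⊆ U)).card +
      ((big V R).filter (fun σ => σ ⊆ U)).card ≤
      ((rows V R c).filter (fun r => r ⊆ U)).card := by
  have hex : ∀ σ : Finset ι, ∃ x, σ ∈ big V R → x ∈ σ \ insert (c σ) (nbr V R (c σ)) := by
    intro σ
    by_cases h : σ ∈ big V R
    · obtain ⟨x, hx⟩ := exists_diag hP h (hc σ (mem_filter.1 h).1)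
      exact ⟨x, fun _ => hx⟩
    · exact ⟨c σ, fun h' => absurd h' h⟩
  choose x hx using hex
  have hxs : ∀ σ ∈ big V R, x σ ∈ σ := fun σ h => (mem_sdiff.1 (hx σ h)).1
  have hxn : ∀ σ ∈ big V R, x σ ≠ c σ := fun σ h he =>
    (mem_sdiff.1 (hx σ h)).2 (mem_insert.2 (Or.inl he))
  have hxf : ∀ σ ∈ big V R, ¬ IsFace V R {c σ, x σ} := fun σ h hf =>
    (mem_sdiff.1 (hx σ h)).2 (mem_insert.2 (Or.inr (mem_nbr.2
      ⟨(mem_faces.1 (mem_filter.1 h).1).1.1 (hxs σ h), hxn σ h, hf⟩)))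
  have hinj : Set.InjOn (fun σ => ({c σ, x σ} : Finset ι))
      (((big V R).filter (fun σ => σ ⊆ U) : Finset (Finset ι)) : Set (Finset ι)) := by
    intro σ hσ τ hτ he
    have hσ' := (mem_filter.1 (mem_coe.1 hσ)).1
    have hτ' := (mem_filter.1 (mem_coe.1 hτ)).1
    by_contra hne
    obtain ⟨k1, k2⟩ := mem_faces.1 (mem_filter.1 hσ').1
    obtain ⟨k3, k4⟩ := mem_faces.1 (mem_filter.1 hτ').1
    have k5 := k1.rk_inter_lt k3 (by omega) hne
    have he' : ({c σ, x σ} : Finset ι) = {c τ, x τ} := he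
    have hsub : ({c σ, x σ} : Finset ι) ⊆ τ := by
      rw [he']
      exact insert_subset (hc τ (mem_filter.1 hτ').1) (singleton_subset_iff.2 (hxs τ hτ'))
    have k6 := hP.eq_pair (inter_subset_left.trans k1.1) (by omega)
      (mem_inter.2 ⟨hc σ (mem_filter.1 hσ').1, hsub (by simp)⟩)
      (mem_inter.2 ⟨hxs σ hσ', hsub (by simp)⟩) (hxn σ hσ')
    exact hxf σ hσ' (k6 ▸ k1.inter k3)
  have hd1 : Disjoint (U.image (fun v => ({v} : Finset ι)))
      ((faces V R 2).filter (fun e => e ⊆ U)) := by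
    rw [disjoint_left]
    intro r h1 h2
    obtain ⟨v, hv, rfl⟩ := mem_image.1 h1
    have := (mem_faces.1 (mem_filter.1 h2).1).2
    rw [hP.rk_single (hU hv)] at this
    omega
  have hd2 : Disjoint (U.image (fun v => ({v} : Finset ι)) ∪
      (faces V R 2).filter (fun e => e ⊆ U))
      (((big V R).filter (fun σ => σ ⊆ U)).image (fun σ => ({c σ, x σ} : Finset ι))) := by
    rw [disjoint_left]
    intro r h1 h2
    obtain ⟨σ, hσ, rfl⟩ := mem_image.1 h2
    apply hxf σ (mem_filter.1 hσ).1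
    rcases mem_union.1 h1 with h | h
    · obtain ⟨v, hv, he⟩ := mem_image.1 h
      rw [← he]
      exact hP.single v (hU hv)
    · exact (mem_faces.1 (mem_filter.1 h).1).1
  have hsub : U.image (fun v => ({v} : Finset ι)) ∪ (faces V R 2).filter (fun e => e ⊆ U) ∪
      ((big V R).filter (fun σ => σ ⊆ U)).image (fun σ => ({c σ, x σ} : Finset ι)) ⊆
      (rows V R c).filter (fun r => r ⊆ U) := by
    intro r hr
    rcases mem_union.1 hr with h | h
    · rcases mem_union.1 h with h | h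
      · obtain ⟨v, hv, rfl⟩ := mem_image.1 h
        exact mem_filter.2 ⟨mem_union_left _ (mem_union_left _
          (mem_faces.2 ⟨hP.single v (hU hv), hP.rk_single (hU hv)⟩)), singleton_subset_iff.2 hv⟩
      · exact mem_filter.2 ⟨mem_union_left _ (mem_union_right _ (mem_filter.1 h).1),
          (mem_filter.1 h).2⟩
    · obtain ⟨σ, hσ, rfl⟩ := mem_image.1 h
      obtain ⟨h1, h2⟩ := mem_filter.1 hσ
      refine mem_filter.2 ⟨mem_union_right _ (mem_biUnion.2 ⟨σ, (mem_filter.1 h1).1,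
        mem_image.2 ⟨x σ, hx σ h1, rfl⟩⟩), ?_⟩
      exact insert_subset (h2 (hc σ (mem_filter.1 h1).1)) (singleton_subset_iff.2 (h2 (hxs σ h1)))
  have h := card_le_card hsub
  rw [card_union_of_disjoint hd2, card_union_of_disjoint hd1,
    card_image_of_injective _ singleton_injective, card_image_of_injOn hinj] at h
  exact h

end SPBx

theorem p_SPB (hSPA : S_SPA) :
    S_SPB := by
  intro ι _ V R _ U hP hr hU hrU
  obtain ⟨c, hc⟩ := exists_apex hP hr
  have h1 := hSPA ι V R U (rows V R c) hr hU hrU (rows_rigid hP hr hc)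
  have h2 := card_rows hP hc
  have h3 := SPBx.card_inside hP hc hU
  omega

end

section


open Finset Module

theorem SUMTx.sum_mult {ι : Type} [DecidableEq ι] (U : Finset ι) (P : Finset (Finset ι)) (k : ℕ)
    (h : ∀ A ∈ P, A ⊆ U ∧ A.card = k) : ∑ v ∈ U, mult P v = k * P.card := by
  simp only [mult, card_filter]
  rw [sum_comm, sum_congr rfl (g := fun _ => k), sum_const, smul_eq_mul, mul_comm]
  intro A hA
  rw [← card_filter, filter_mem_eq_inter, inter_eq_right.2 (h A hA).1, (h A hA).2]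

theorem p_SUMT (hSPB : S_SPB) (hADJ : S_ADJ) :
    S_SUMT := by
  intro ι _ V R _ hS hE
  obtain ⟨h9, hb, -⟩ := hADJ ι V R hS
  set U := (pr V R).biUnion id with hU
  have hf : ∀ A ∈ pr V R, IsFace V R A ∧ rk R A = 4 := fun A hA => mem_faces.1 (mem_filter.1 hA).1
  have hs : ∀ A ∈ pr V R, A ⊆ U := fun A hA => subset_biUnion_of_mem id hA
  have hUV : U ⊆ V := biUnion_subset.2 fun A hA => (hf A hA).1.1
  have hr : rk R U = 5 := by
    obtain ⟨A, hA, B, hB, hAB⟩ := one_lt_card.1 (by rw [hS.six]; omega : 1 < (pr V R).card)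
    have h1 := (hf A hA).1.rk_lt (hs A hA) hUV fun e => hAB
      ((hf B hB).1.eq_of_rk_le (e ▸ hs B hB) (hf A hA).1.1 (by rw [(hf A hA).2, (hf B hB).2])).symm
    have h2 := rk_mono (R := R) hUV
    rw [(hf A hA).2] at h1
    rw [hS.top] at h2
    omega
  have h1 := hSPB ι V R U hS.poly hS.top hUV hr
  rw [filter_true_of_mem hb, h9] at h1
  have h2 := SUMTx.sum_mult U (pr V R) 6 fun A hA => ⟨hs A hA, (mem_filter.1 hA).2⟩
  have h3 := SUMTx.sum_mult U ((faces V R 2).filter (fun e => e ⊆ U)) 2 fun e he =>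
    ⟨(mem_filter.1 he).2, hS.poly.card_of_rk_two (mem_faces.1 (mem_filter.1 he).1).1.1
      (mem_faces.1 (mem_filter.1 he).1).2⟩
  have h4 : ∑ v ∈ U, dg V R v ≤ ∑ v ∈ U, mult ((faces V R 2).filter (fun e => e ⊆ U)) v := by
    refine sum_le_sum fun v hv => card_le_card_of_injOn (fun w => {v, w}) ?_ ?_
    · intro w hw
      obtain ⟨a, b⟩ := mem_inter.1 (mem_coe.1 hw)
      exact mem_coe.2 (mem_filter.2 ⟨mem_filter.2 ⟨hS.poly.edge_mem (hUV hv) a,
        insert_subset hv (singleton_subset_iff.2 b)⟩, mem_insert_self _ _⟩)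
    · intro w hw w' _ e
      have a := (mem_nbr.1 (mem_inter.1 (mem_coe.1 hw)).1).2.1
      have : w ∈ ({v, w'} : Finset ι) := by
        rw [← show ({v, w} : Finset ι) = {v, w'} from e]; simp
      simpa [a] using this
  rw [hS.six] at h2
  rw [sum_add_distrib]
  omega

end

section


open Finset Module

namespace LOCx

section gen

variable {α : Type} [DecidableEq α]

theorem le3 {S : Finset α} {a b c : α} (ha : a ∈ S) (hb : b ∈ S) (hc : c ∈ S) (h1 : a ≠ b)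
    (h2 : a ≠ c) (h3 : b ≠ c) : 3 ≤ S.card := by
  have : ({a, b, c} : Finset α) ⊆ S := by simp [insert_subset_iff, *]
  have e := card_le_card this
  rwa [card_insert_of_notMem (by simp [*]), card_pair h3] at e

theorem le4 {S : Finset α} {a b c d : α} (ha : a ∈ S) (hb : b ∈ S) (hc : c ∈ S) (hd : d ∈ S)
    (h1 : a ≠ b) (h2 : a ≠ c) (h3 : b ≠ c) (h4 : a ≠ d) (h5 : b ≠ d) (h6 : c ≠ d) :
    4 ≤ S.card := by
  have := le3 (S := S.erase d) (mem_erase.2 ⟨h4, ha⟩) (mem_erase.2 ⟨h5, hb⟩)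
    (mem_erase.2 ⟨h6, hc⟩) h1 h2 h3
  rw [card_erase_of_mem hd] at this
  omega

theorem eq3 {S : Finset α} {a b c : α} (h : S.card = 3) (ha : a ∈ S) (hb : b ∈ S) (hc : c ∈ S)
    (h1 : a ≠ b) (h2 : a ≠ c) (h3 : b ≠ c) {x : α} (hx : x ∈ S) : x = a ∨ x = b ∨ x = c := by
  by_contra hn
  push Not at hn
  have := le4 ha hb hc hx h1 h2 h3 hn.1.symm hn.2.1.symm hn.2.2.symm
  omega

theorem eq4 {S : Finset α} {a b c d : α} (h : S.card = 4) (ha : a ∈ S) (hb : b ∈ S) (hc : c ∈ S)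
    (hd : d ∈ S) (h1 : a ≠ b) (h2 : a ≠ c) (h3 : b ≠ c) (h4 : a ≠ d) (h5 : b ≠ d) (h6 : c ≠ d)
    {x : α} (hx : x ∈ S) : x = a ∨ x = b ∨ x = c ∨ x = d := by
  by_cases e : x = d
  · simp [e]
  · have := eq3 (S := S.erase d) (by rw [card_erase_of_mem hd, h]) (mem_erase.2 ⟨h4, ha⟩)
      (mem_erase.2 ⟨h5, hb⟩) (mem_erase.2 ⟨h6, hc⟩) h1 h2 h3 (mem_erase.2 ⟨e, hx⟩)
    tauto

theorem graph {P : Finset α} {N : α → Finset α} (hP : P.card = 6)
    (h : ∀ A ∈ P, N A ⊆ P ∧ A ∉ N A ∧ (N A).card = 3 ∧ ∀ B ∈ N A, A ∈ N B) {A B C D : α}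
    (hA : A ∈ P) (hB : B ∈ N A) (hCD : C ≠ D) (c1 : C ∈ N A) (d1 : D ∈ N A) (c2 : C ∈ N B)
    (d2 : D ∈ N B) : False := by
  obtain ⟨a1, a2, a3, a4⟩ := h A hA
  obtain ⟨-, b2, b3, b4⟩ := h B (a1 hB)
  have AB : A ≠ B := fun e => a2 (e ▸ hB)
  have AC : A ≠ C := fun e => a2 (e ▸ c1)
  have AD : A ≠ D := fun e => a2 (e ▸ d1)
  have BC : B ≠ C := fun e => b2 (e ▸ c2)
  have BD : B ≠ D := fun e => b2 (e ▸ d2)
  have hs : P \ {C, D} ⊆ N C := by
    intro E hE
    simp only [mem_sdiff, mem_insert, mem_singleton, not_or] at hE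
    obtain ⟨hE, EC, ED⟩ := hE
    by_cases EA : E = A
    · exact EA ▸ a4 C c1
    by_cases EB : E = B
    · exact EB ▸ b4 C c2
    obtain ⟨e1, e2, e3, e4⟩ := h E hE
    refine e4 C ?_
    by_contra hn
    have nA : A ∉ N E := fun k => by
      have := eq3 a3 hB c1 d1 BC BD hCD (e4 A k)
      tauto
    have nB : B ∉ N E := fun k => by
      have := eq3 b3 (a4 B hB) c2 d2 AC AD hCD (e4 B k)
      tauto
    have hsub : insert A (insert B (insert E (insert C (N E)))) ⊆ P := by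
      simp [insert_subset_iff, hA, a1 hB, hE, a1 c1, e1]
    have := card_le_card hsub
    rw [card_insert_of_notMem (by simp [AB, AC, nA, Ne.symm EA]),
      card_insert_of_notMem (by simp [BC, nB, Ne.symm EB]),
      card_insert_of_notMem (by simp [EC, e2]), card_insert_of_notMem hn] at this
    omega
  have k1 := card_le_card hs
  have k2 := le_card_sdiff ({C, D} : Finset α) P
  have k3 := (h C (a1 c1)).2.2.1
  rw [card_pair hCD] at k2
  omega

end gen

variable {ι : Type} [DecidableEq ι]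

theorem two {S : Finset (Finset ι)} {v : ι} (h : mult S v = 2) :
    ∃ X Y, X ≠ Y ∧ X ∈ S ∧ v ∈ X ∧ Y ∈ S ∧ v ∈ Y := by
  obtain ⟨X, hX, Y, hY, e⟩ := one_lt_card.1 (show 1 < mult S v by omega)
  exact ⟨X, Y, e, (mem_filter.1 hX).1, (mem_filter.1 hX).2, (mem_filter.1 hY).1,
    (mem_filter.1 hY).2⟩

theorem key {P : Finset (Finset ι)} {N : Finset ι → Finset (Finset ι)} {G : ι → Prop}
    (hP : P.card = 6)
    (h : ∀ A ∈ P, N A ⊆ P ∧ A ∉ N A ∧ (N A).card = 3 ∧ (∀ B ∈ N A, A ∈ N B) ∧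
      ∀ v ∈ A, mult (N A) v = 2)
    (hG : ∀ v, G v → mult P v = 4 ∧ ∀ A ∈ P, v ∈ A →
      ∃ Z ∈ P, v ∈ Z ∧ Z ≠ A ∧ Z ∉ N A ∧ ∀ B ∈ N A, ¬ A ∩ Z ⊆ B)
    {A B C D : Finset ι} (hA : A ∈ P) (hB : B ∈ N A) (hC : C ∈ N A) (hD : D ∈ N A)
    (BD : B ≠ D) (CD : C ≠ D) (hBC : C ∈ N B) {v : ι} (vA : v ∈ A) (vB : v ∈ B) (vD : v ∈ D) :
    mult P v ≠ 3 ∧ ¬ G v := by
  obtain ⟨a1, a2, a3, a4, a5⟩ := h A hA
  obtain ⟨b1, b2, b3, b4, b5⟩ := h B (a1 hB)
  have nD : D ∉ N B := fun k => graph hP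
    (fun A hA => ⟨(h A hA).1, (h A hA).2.1, (h A hA).2.2.1, (h A hA).2.2.2.1⟩) hA hB CD hC hD hBC k
  have AB : A ≠ B := fun e => a2 (e ▸ hB)
  have AC : A ≠ C := fun e => a2 (e ▸ hC)
  have AD : A ≠ D := fun e => a2 (e ▸ hD)
  have BC : B ≠ C := fun e => b2 (e ▸ hBC)
  have mA : A ∈ P.filter (fun A => v ∈ A) := mem_filter.2 ⟨hA, vA⟩
  have mB : B ∈ P.filter (fun A => v ∈ A) := mem_filter.2 ⟨a1 hB, vB⟩
  have mD : D ∈ P.filter (fun A => v ∈ A) := mem_filter.2 ⟨a1 hD, vD⟩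
  obtain ⟨X, Y, XY, x1, x2, y1, y2⟩ := two (b5 v vB)
  have XB : X ≠ B := fun e => b2 (e ▸ x1)
  have YB : Y ≠ B := fun e => b2 (e ▸ y1)
  have XD : X ≠ D := fun e => nD (e ▸ x1)
  have YD : Y ≠ D := fun e => nD (e ▸ y1)
  have mX : X ∈ P.filter (fun A => v ∈ A) := mem_filter.2 ⟨b1 x1, x2⟩
  have mY : Y ∈ P.filter (fun A => v ∈ A) := mem_filter.2 ⟨b1 y1, y2⟩
  refine ⟨fun k => ?_, fun k => ?_⟩
  · have e1 := eq3 k mA mB mD AB AD BD mX
    have e2 := eq3 k mA mB mD AB AD BD mY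
    simp only [XB, XD, YB, YD, or_false] at e1 e2
    exact XY (e1.trans e2.symm)
  obtain ⟨k4, k⟩ := hG v k
  obtain ⟨Z, z1, z2, z3, z4, z5⟩ := k A hA vA
  have mZ : Z ∈ P.filter (fun A => v ∈ A) := mem_filter.2 ⟨z1, z2⟩
  have BZ : B ≠ Z := fun e => z4 (e ▸ hB)
  have CZ : C ≠ Z := fun e => z4 (e ▸ hC)
  have DZ : D ≠ Z := fun e => z4 (e ▸ hD)
  have e1 := eq4 k4 mA mB mD mZ AB AD BD z3.symm BZ DZ mX
  have e2 := eq4 k4 mA mB mD mZ AB AD BD z3.symm BZ DZ mY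
  simp only [XB, XD, YB, YD, false_or] at e1 e2
  have hZ : Z ∈ N B := by
    rcases e1 with e1 | e1
    · rcases e2 with e2 | e2
      · exact absurd (e1.trans e2.symm) XY
      · exact e2 ▸ y1
    · exact e1 ▸ x1
  obtain ⟨u, u1, u2⟩ := not_subset.1 (z5 D hD)
  obtain ⟨uA, uZ⟩ := mem_inter.1 u1
  obtain ⟨S, T, ST, s1, s2, t1, t2⟩ := two (a5 u uA)
  have f1 := eq3 a3 hB hC hD BC BD CD s1
  have f2 := eq3 a3 hB hC hD BC BD CD t1
  have hu : u ∈ B ∧ u ∈ C := by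
    rcases f1 with rfl | rfl | rfl <;> rcases f2 with rfl | rfl | rfl <;> tauto
  have := le3 (S := (N B).filter (fun A => u ∈ A)) (mem_filter.2 ⟨a4 B hB, uA⟩)
    (mem_filter.2 ⟨hBC, hu.2⟩) (mem_filter.2 ⟨hZ, uZ⟩) AC z3.symm CZ
  have k5 := b5 u hu.1
  unfold mult at k5
  omega

end LOCx

open LOCx in
theorem p_LOC :
    S_LOC := by
  intro ι _ P N G hP h hG A hA w wA hw
  obtain ⟨a1, a2, a3, a4, a5⟩ := h A hA
  obtain ⟨B, C, BC, hB, wB, hC, wC⟩ := two (a5 w wA)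
  obtain ⟨D, hD, nD⟩ := exists_mem_notMem_of_card_lt_card
    (show ({B, C} : Finset (Finset ι)).card < (N A).card by rw [card_pair BC]; omega)
  simp only [mem_insert, mem_singleton, not_or] at nD
  have AB : A ≠ B := fun e => a2 (e ▸ hB)
  have AC : A ≠ C := fun e => a2 (e ▸ hC)
  obtain ⟨b1, b2, -, b4, b5⟩ := h B (a1 hB)
  have hBC : C ∈ N B := by
    obtain ⟨X, Y, XY, x1, x2, y1, y2⟩ := two (b5 w wB)
    have e := fun X (x1 : X ∈ N B) (x2 : w ∈ X) => eq3 hw (mem_filter.2 ⟨hA, wA⟩)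
      (mem_filter.2 ⟨a1 hB, wB⟩) (mem_filter.2 ⟨a1 hC, wC⟩) AB AC BC (mem_filter.2 ⟨b1 x1, x2⟩)
    rcases e X x1 x2 with rfl | rfl | rfl <;> rcases e Y y1 y2 with rfl | rfl | rfl <;> tauto
  refine ⟨D, hD, fun v hv => ?_⟩
  obtain ⟨vA, vD⟩ := mem_inter.1 hv
  obtain ⟨S, T, ST, s1, s2, t1, t2⟩ := two (a5 v vA)
  have f1 := eq3 a3 hB hC hD BC (Ne.symm nD.1) (Ne.symm nD.2) s1
  have f2 := eq3 a3 hB hC hD BC (Ne.symm nD.1) (Ne.symm nD.2) t1
  have hu : v ∈ B ∨ v ∈ C := by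
    rcases f1 with rfl | rfl | rfl <;> rcases f2 with rfl | rfl | rfl <;> tauto
  rcases hu with hu | hu
  · exact key hP h hG hA hB hC hD (Ne.symm nD.1) (Ne.symm nD.2) hBC vA hu vD
  · exact key hP h hG hA hC hB hD (Ne.symm nD.2) (Ne.symm nD.1) (b4 C hBC) vA hu vD

end

section


open Finset Module

namespace WTx

/-- The weight of a point. -/
def wg (m d : ℕ) : ℤ := if m = 3 then 4 else if m = 4 ∧ d = 4 then 0 else -3

theorem pt {m d : ℕ} (h3 : 3 ≤ m) (h6 : m ≤ 6) (h : m ≤ d.choose 3) :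
    12 * (8 - (d : ℤ) - m) ≤ m * wg m d := by
  have h4 : 4 ≤ d := by
    by_contra c
    have := Nat.choose_le_choose 3 (show d ≤ 3 by omega)
    simp at this; omega
  have h5 : 5 ≤ m → 5 ≤ d := fun a => by
    by_contra c
    have := Nat.choose_le_choose 3 (show d ≤ 4 by omega)
    norm_num [Nat.choose] at this; omega
  unfold wg
  split_ifs <;> omega

theorem dbl {ι : Type} [DecidableEq ι] (P : Finset (Finset ι)) (f : ι → ℤ) :
    ∑ v ∈ P.biUnion id, (mult P v : ℤ) * f v = ∑ A ∈ P, ∑ v ∈ A, f v := by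
  rw [sum_comm' (s' := fun v => P.filter (fun A => v ∈ A)) (t' := P.biUnion id)
    (fun A v => by simp only [mem_filter, mem_biUnion, id]; tauto)]
  exact sum_congr rfl fun v _ => by rw [sum_const, nsmul_eq_mul, mult]

end WTx

open WTx in
theorem p_WT :
    S_WT := by
  intro ι _ P N d hP hA hd h3 hs
  have m3 : ∀ A ∈ P, ∀ v ∈ A, 3 ≤ mult P v := fun A a v hv => by
    obtain ⟨-, a2, a3, -, a5⟩ := hA A a
    have : insert A ((N A).filter (fun B => v ∈ B)) ⊆ P.filter (fun B => v ∈ B) :=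
      insert_subset (mem_filter.2 ⟨a, hv⟩) (filter_subset_filter _ a2)
    have := card_le_card this
    rw [card_insert_of_notMem fun c => a3 (mem_filter.1 c).1] at this
    have e := a5 v hv
    unfold mult at e ⊢
    omega
  have h0 : 0 ≤ ∑ A ∈ P, ∑ v ∈ A, wg (mult P v) (d v) := by
    rw [← dbl]
    refine le_trans ?_ (sum_le_sum fun v hv => pt ?_ (hP ▸ card_filter_le _ _) (hd v hv))
    · have : ((∑ v ∈ P.biUnion id, (d v + mult P v) : ℕ) : ℤ) ≤ 8 * (P.biUnion id).card := by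
        exact_mod_cast hs
      rw [← mul_sum]
      simp only [sub_sub, sum_sub_distrib, sum_const, nsmul_eq_mul]
      push_cast at this
      linarith
    · obtain ⟨A, a, b⟩ := mem_biUnion.1 hv
      exact m3 A a v b
  have h1 : ∀ A ∈ P, (∃ w ∈ A, mult P w = 3) → ∑ v ∈ A, wg (mult P v) (d v) < 0 := by
    rintro A a ⟨w, hw, e⟩
    obtain ⟨B, hB, b⟩ := h3 A a w hw e
    obtain ⟨a1, -, -, a4, -⟩ := hA A a
    have c1 := card_sdiff_add_card_inter A B
    have c2 := a4 B hB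
    rw [← sum_inter_add_sum_sdiff A B]
    have s1 := sum_le_card_nsmul (A ∩ B) (fun v => wg (mult P v) (d v)) (-3) fun v hv => by
      rw [wg, if_neg (b v hv).1, if_neg (b v hv).2]
    have s2 := sum_le_card_nsmul (A \ B) (fun v => wg (mult P v) (d v)) 4 fun v _ => by
      unfold wg; split_ifs <;> omega
    rw [c2] at s1
    rw [show (A \ B).card = 2 by omega] at s2
    simp only [nsmul_eq_mul] at s1 s2
    push_cast at s1 s2
    linarith
  have h2 : ∀ A : Finset ι, (¬ ∃ w ∈ A, mult P w = 3) → ∀ v ∈ A, wg (mult P v) (d v) ≤ 0 :=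
    fun A c v hv => by
      rw [wg, if_neg fun e => c ⟨v, hv, e⟩]
      split_ifs <;> omega
  have h4 : ∀ A ∈ P, ∑ v ∈ A, wg (mult P v) (d v) ≤ 0 := fun A a => by
    by_cases c : ∃ w ∈ A, mult P w = 3
    exacts [(h1 A a c).le, sum_nonpos (h2 A c)]
  have h5 := (sum_eq_zero_iff_of_nonpos h4).1 (le_antisymm (sum_nonpos h4) h0)
  intro v hv
  obtain ⟨A, a, b⟩ := mem_biUnion.1 hv
  have c : ¬ ∃ w ∈ A, mult P w = 3 := fun c => (h1 A a c).ne (h5 A a)
  have := (sum_eq_zero_iff_of_nonpos (h2 A c)).1 (h5 A a) v b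
  unfold wg at this
  split_ifs at this with x y
  all_goals first | exact y | omega

end

section


open Finset Module

theorem p_J3 (hRED : S_RED) (hADJ : S_ADJ) (hTHIRD : S_THIRD) (hSUMT : S_SUMT) (hMD : S_MD) (hLOC : S_LOC) (hWT : S_WT) :
    S_J3 := by
  rintro a b c d ⟨ι, _, V, R, _, hP, hr, rfl, rfl, rfl, rfl⟩ h1 h2
  obtain ⟨h6, heq⟩ := hRED ι V R hP hr h1 h2
  obtain ⟨-, -, hadj⟩ := hADJ ι V R h6
  have hpr : ∀ A ∈ pr V R, A ⊆ V ∧ A.card = 6 := fun A hA =>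
    ⟨(mem_faces.1 (mem_filter.1 hA).1).1.1, (mem_filter.1 hA).2⟩
  have hU : (pr V R).biUnion id ⊆ V := fun v hv => by
    obtain ⟨A, hA, hvA⟩ := mem_biUnion.1 hv
    exact (hpr A hA).1 hvA
  have hs : ∀ A, adj V R A ⊆ pr V R := fun A => filter_subset _ _
  have hn : ∀ A, A ∉ adj V R A := fun A h => (mem_filter.1 h).2.1 rfl
  have hloc := hLOC ι (pr V R) (adj V R)
    (fun v => v ∈ V ∧ mult (pr V R) v = 4 ∧ dg V R v = 4) h6.six
    (fun A hA => ⟨hs A, hn A, (hadj A hA).1, fun B hB => mem_filter.2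
      ⟨hA, (mem_filter.1 hB).2.1.symm, inter_comm A B ▸ (mem_filter.1 hB).2.2⟩,
      (hadj A hA).2.2⟩)
    (fun v hv => ⟨hv.2.1, fun A hA hvA => hTHIRD ι V R h6 A hA v hvA
      ((hMD ι V R h6 v hv.1).2 hv.2.1 hv.2.2).2⟩)
  have hwt := hWT ι (pr V R) (adj V R) (dg V R) h6.six
    (fun A hA => ⟨(hpr A hA).2, hs A, hn A, (hadj A hA).2.1, (hadj A hA).2.2⟩)
    (fun v hv => (hMD ι V R h6 v (hU hv)).1)
    (fun A hA w hw h3 => by
      obtain ⟨B, hB, h⟩ := hloc A hA w hw h3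
      exact ⟨B, hB, fun v hv => ⟨(h v hv).1, fun h' =>
        (h v hv).2 ⟨(hpr A hA).1 (mem_inter.1 hv).1, h'⟩⟩⟩)
    (hSUMT ι V R h6 heq)
  have hne : ((pr V R).biUnion id).Nonempty := by
    obtain ⟨A, hA⟩ : (pr V R).Nonempty := card_pos.1 (by rw [h6.six]; omega)
    obtain ⟨v, hv⟩ : A.Nonempty := card_pos.1 (by rw [(hpr A hA).2]; omega)
    exact ⟨v, mem_biUnion.2 ⟨A, hA, hv⟩⟩
  have hV : V ⊆ (pr V R).biUnion id := hP.conn hU hne (fun u hu w hw =>
    ((hMD ι V R h6 u (hU hu)).2 (hwt u hu).1 (hwt u hu).2).1 hw)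
  refine (card_le_card hV).trans (card_biUnion_le.trans ?_)
  have := sum_le_card_nsmul (pr V R) (fun A => (id A).card) 6 (fun A hA => (hpr A hA).2.le)
  rw [h6.six] at this
  exact this

end

end Pool.Agent.P.MP_af6acb_co.Reg
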