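import Pool.Agent.P.MP_af6acb_co.Reg.B1
import Pool.Agent.P.MP_af6acb_co.Reg.B2
import Pool.Agent.P.MP_af6acb_co.Reg.B3
import Pool.Agent.P.MP_af6acb_co.Reg.B4
import Pool.Agent.P.MP_af6acb_co.Reg.B5

/-!
Assembly of all steps.
-/

namespace Pool.Agent.P.MP_af6acb_co.Reg

theorem all_ADD : S_ADD := p_ADD p_GLA
theorem all_FATB : S_FATB := p_FATB p_FATV (p_GS2 p_GST)
theorem all_SUG : S_SUG := p_SUG all_ADD p_BL p_PYR all_FATB (p_SIMQ p_BL) p_LP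
theorem all_KEY : S_KEY := p_KEY p_RB
theorem all_J1 : S_J1 := p_J1 all_KEY
theorem all_PRISM : S_PRISM := p_PRISM p_RB
theorem all_ADJ : S_ADJ := p_ADJ all_PRISM
theorem all_J3 : S_J3 := p_J3 (p_RED p_RB all_KEY all_PRISM (p_ODD p_RB)) all_ADJ
  (p_THIRD all_PRISM) (p_SUMT (p_SPB p_SPA) all_ADJ) (p_MD all_PRISM) p_LOC p_WT
theorem all_MAIQ : S_MAIQ := p_MAIQ all_J1 all_J3 all_SUG

end Pool.Agent.P.MP_af6acb_co.Reg
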