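import Pool.Agent.P.MP_af6acb_co.Reg.Iface

/-! Gluing and stacking. -/

set_option autoImplicit false
set_option linter.unusedSectionVars false
set_option linter.unusedVariables false

namespace Pool.Agent.P.MP_af6acb_co.Reg

section


open Finset Module

namespace GLAx

/-- Coordinates adapted to a simplex facet. -/
structure Side {ι : Type} [DecidableEq ι] (V T : Finset ι) (R : Submodule ℝ (ι → ℝ))
    (p : Fin 4 → ι) (E : (Fin 4 → ℝ) →ₗ[ℝ] (ι → ℝ)) (η : ι → ℝ) (A : Finset ι → Fin 4 → ℝ)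
    (τ : Finset ι → ℝ) : Prop where
  sub : T ⊆ V
  inj : Function.Injective p
  mem : ∀ v, v ∈ T ↔ ∃ m, p m = v
  memE : ∀ a, E a ∈ R
  val : ∀ a m, E a (p m) = a m
  memη : η ∈ R
  zero : ∀ v ∈ T, η v = 0
  pos : ∀ v ∈ V, v ∉ T → 0 < η v
  rep : ∀ φ ∈ R, ∃ a t, ∀ v ∈ V, φ v = E a v + t * η v
  face : ∀ X, IsFace V R X → ¬ T ⊆ X → 0 < ∑ m, A X m ∧
    (∀ v ∈ X, E (A X) v + τ X * η v = 0) ∧ ∀ v ∈ V, v ∉ X → 0 < E (A X) v + τ X * η v

lemma exists_side {ι : Type} [DecidableEq ι] {V T : Finset ι} {R : Submodule ℝ (ι → ℝ)}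
    [FiniteDimensional ℝ R] (hr : rk R V = 5) (hT : T ∈ faces V R 4) (hc : T.card = 4) :
    ∃ p E η A τ, Side V T R p E η A τ := by
  obtain ⟨hTf, hTr⟩ := mem_faces.1 hT
  obtain ⟨e, he, hed⟩ := (indep_of_rk_eq (hTr.trans hc.symm)).exists_dual
  obtain ⟨η, hη, η0, η1⟩ := hTf.exists_fun
  obtain ⟨y, hy, hyT⟩ := exists_of_ssubset (lt_of_le_of_ne hTf.1
    (by intro h; rw [h] at hTr; omega) : T ⊂ V)
  let p : Fin 4 → ι := fun m => (T.equivFinOfCardEq hc).symm m
  have hpT : ∀ m, p m ∈ T := fun m => ((T.equivFinOfCardEq hc).symm m).2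
  have hp : Function.Injective p := fun m m' h =>
    (T.equivFinOfCardEq hc).symm.injective (Subtype.ext h)
  have hmem : ∀ v, v ∈ T ↔ ∃ m, p m = v := fun v =>
    ⟨fun h => ⟨T.equivFinOfCardEq hc ⟨v, h⟩, by simp [p]⟩, by rintro ⟨m, rfl⟩; exact hpT m⟩
  let E : (Fin 4 → ℝ) →ₗ[ℝ] (ι → ℝ) := Fintype.linearCombination ℝ fun m => e (p m)
  have hE : ∀ a, E a = ∑ m, a m • e (p m) := fun a => Fintype.linearCombination_apply ℝ _ a
  have hER : ∀ a, E a ∈ R := fun a => by
    rw [hE]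
    exact R.sum_mem fun m _ => R.smul_mem _ (he _)
  have hval : ∀ a m, E a (p m) = a m := fun a m => by
    rw [hE, Finset.sum_apply, sum_congr rfl fun m' _ => by
      rw [Pi.smul_apply, hed _ (hpT m') _ (hpT m)]]
    simp [hp.eq_iff]
  have hrep : ∀ φ ∈ R, ∃ t, ∀ v ∈ V, φ v = E (fun m => φ (p m)) v + t * η v := by
    intro φ hφ
    obtain ⟨c, hc'⟩ := exists_mul hTf.1 (by omega) (η := η) (φ := φ - E fun m => φ (p m))
      (mem_K.2 ⟨hη, η0⟩) (mem_K.2 ⟨R.sub_mem hφ (hER _), fun v hv => by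
        obtain ⟨m, rfl⟩ := (hmem v).1 hv
        simp [hval]⟩) hy (η1 y hy hyT).ne'
    refine ⟨c, fun v hv => ?_⟩
    have := hc' v hv
    rw [Pi.sub_apply] at this
    linarith
  have hex : ∀ X : Finset ι, ∃ (a : Fin 4 → ℝ) (t : ℝ), IsFace V R X → ¬ T ⊆ X → 0 < ∑ m, a m ∧
      (∀ v ∈ X, E a v + t * η v = 0) ∧ ∀ v ∈ V, v ∉ X → 0 < E a v + t * η v := by
    intro X
    by_cases h : IsFace V R X
    · obtain ⟨φ, hφ, h1, h2⟩ := h.exists_fun
      obtain ⟨t, ht⟩ := hrep φ hφ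
      refine ⟨fun m => φ (p m), t, fun _ hTX => ⟨?_, fun v hv => ?_, fun v hv hv' => ?_⟩⟩
      · obtain ⟨s, hs, hsX⟩ := not_subset.1 hTX
        obtain ⟨m, rfl⟩ := (hmem s).1 hs
        refine sum_pos' (fun m' _ => ?_) ⟨m, mem_univ _, h2 _ (hTf.1 hs) hsX⟩
        by_cases h3 : p m' ∈ X
        · exact (h1 _ h3).ge
        · exact (h2 _ (hTf.1 (hpT m')) h3).le
      · rw [← ht v (h.1 hv)]
        exact h1 v hv
      · rw [← ht v hv]
        exact h2 v hv hv'
    · exact ⟨0, 0, fun h' => absurd h' h⟩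
  choose A τ hA using hex
  exact ⟨p, E, η, A, τ, hTf.1, hp, hmem, hER, hval, hη, η0, η1,
    fun φ hφ => ⟨_, hrep φ hφ⟩, hA⟩

lemma large {ι κ : Type} [DecidableEq ι] [DecidableEq κ] {V T : Finset ι} {W T' : Finset κ}
    {R : Submodule ℝ (ι → ℝ)} {S : Submodule ℝ (κ → ℝ)} {p E η A τ p' E' η' A' τ'}
    (h : Side V T R p E η A τ) (h' : Side W T' S p' E' η' A' τ') :
    ∃ l0 : ℝ, ∀ l, l0 ≤ l → ∀ X, IsFace V R X → ¬ T ⊆ X → ∀ w ∈ W, w ∉ T' →
      0 < E' (A X) w + (l * ∑ m, A X m - τ X) * η' w := by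
  classical
  obtain ⟨l0, -, hl⟩ := exists_large
    ((V.powerset.filter fun X => IsFace V R X ∧ ¬ T ⊆ X) ×ˢ (W \ T'))
    (fun z => E' (A z.1) z.2 - τ z.1 * η' z.2) (fun z => (∑ m, A z.1 m) * η' z.2) (by
      rintro ⟨X, w⟩ hz
      simp only [mem_product, mem_filter, mem_sdiff] at hz
      exact mul_pos (h.face X hz.1.2.1 hz.1.2.2).1 (h'.pos w hz.2.1 hz.2.2))
  refine ⟨l0, fun l hll X hX hTX w hw hw' => ?_⟩
  have h1 := hl (X, w) (by
    simp only [mem_product, mem_filter, mem_sdiff, mem_powerset]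
    exact ⟨⟨hX.1, hX, hTX⟩, hw, hw'⟩)
  have h2 := mul_nonneg (sub_nonneg.2 hll) (mul_pos (h.face X hX hTX).1 (h'.pos w hw hw')).le
  simp only at h1
  linarith

end GLAx

theorem p_GLA :
    S_GLA := by
  intro ι κ _ _ V T W T' R S _ _ hr hr' hT hc hT' hc'
  obtain ⟨p, E, η, A, τ, h⟩ := GLAx.exists_side hr hT hc
  obtain ⟨p', E', η', A', τ', h'⟩ := GLAx.exists_side hr' hT' hc'
  obtain ⟨l1, hl1⟩ := GLAx.large h h'
  obtain ⟨l2, hl2⟩ := GLAx.large h' h
  set l := max l1 l2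
  replace hl1 := hl1 l (le_max_left _ _)
  replace hl2 := hl2 l (le_max_right _ _)
  let L : ((Fin 4 → ℝ) × ℝ) →ₗ[ℝ] (ι ⊕ κ → ℝ) :=
    { toFun := fun z => Sum.elim (fun v => E z.1 v + z.2 * η v)
        (fun w => E' z.1 w + (l * ∑ m, z.1 m - z.2) * η' w)
      map_add' := fun z z' => by
        funext o; cases o <;> simp [sum_add_distrib] <;> ring
      map_smul' := fun s z => by
        funext o; cases o <;> simp [← mul_sum] <;> ring }
  let q : κ → Fin 4 := Function.invFun p'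
  have hq : ∀ m, q (p' m) = m := Function.leftInverse_invFun h'.inj
  let g : κ → ι ⊕ κ := fun w => if w ∈ T' then Sum.inl (p (q w)) else Sum.inr w
  have hg : ∀ m, g (p' m) = Sum.inl (p m) := fun m => by
    simp only [g]
    rw [if_pos ((h'.mem _).2 ⟨m, rfl⟩), hq]
  have hg' : ∀ w, w ∉ T' → g w = Sum.inr w := fun w hw => if_neg hw
  have L1 : ∀ a t v, L (a, t) (Sum.inl v) = E a v + t * η v := fun _ _ _ => rfl
  have L2 : ∀ a t w, L (a, t) (g w) = E' a w + (l * ∑ m, a m - t) * η' w := by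
    intro a t w
    by_cases hw : w ∈ T'
    · obtain ⟨m, rfl⟩ := (h'.mem w).1 hw
      rw [hg, L1, h.val, h'.val, h.zero _ ((h.mem _).2 ⟨m, rfl⟩), h'.zero _ hw]
      simp
    · rw [hg' w hw]
      rfl
  have hmemQ : ∀ z, L z ∈ LinearMap.range L := fun z => LinearMap.mem_range_self L z
  refine ⟨LinearMap.range L, inferInstance, g, L (0, 1), ?_, ⟨Sum.inl_injective.injOn,
    fun _ _ => one_pos, fun φ hφ => ?_, ?_⟩, ⟨?_, fun _ _ => one_pos, fun φ hφ => ?_, ?_⟩, ?_,
    hmemQ _, fun t ht => ?_, fun v hv hv' => ?_, fun w hw hw' => ?_, fun X hX hTX => ?_,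
    fun Y hY hTY => ?_⟩
  · exact (LinearMap.finrank_range_le L).trans (by simp)
  · obtain ⟨a, t, hat⟩ := h.rep φ hφ
    exact ⟨L (a, t), hmemQ _, fun v hv => by rw [L1, one_mul, hat v hv]⟩
  · rintro _ ⟨⟨a, t⟩, rfl⟩
    exact ⟨E a + t • η, R.add_mem (h.memE a) (R.smul_mem _ h.memη), fun v _ => by simp [L1]⟩
  · intro w _ w' _ hww
    by_cases hw : w ∈ T' <;> by_cases hw' : w' ∈ T'
    · obtain ⟨m, rfl⟩ := (h'.mem w).1 hw
      obtain ⟨m', rfl⟩ := (h'.mem w').1 hw'
      rw [hg, hg] at hww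
      rw [h.inj (Sum.inl_injective hww)]
    · obtain ⟨m, rfl⟩ := (h'.mem w).1 hw
      rw [hg, hg' w' hw'] at hww
      cases hww
    · obtain ⟨m, rfl⟩ := (h'.mem w').1 hw'
      rw [hg, hg' w hw] at hww
      cases hww
    · rw [hg' w hw, hg' w' hw'] at hww
      exact Sum.inr_injective hww
  · obtain ⟨a, t, hat⟩ := h'.rep φ hφ
    exact ⟨L (a, l * ∑ m, a m - t), hmemQ _, fun w hw => by
      rw [L2, one_mul, hat w hw, sub_sub_cancel]⟩
  · rintro _ ⟨⟨a, t⟩, rfl⟩
    exact ⟨E' a + (l * ∑ m, a m - t) • η', S.add_mem (h'.memE a) (S.smul_mem _ h'.memη),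
      fun w _ => by simp [L2]⟩
  · ext z
    simp only [mem_image]
    constructor
    · rintro ⟨w, hw, rfl⟩
      obtain ⟨m, rfl⟩ := (h'.mem w).1 hw
      exact ⟨p m, (h.mem _).2 ⟨m, rfl⟩, (hg m).symm⟩
    · rintro ⟨v, hv, rfl⟩
      obtain ⟨m, rfl⟩ := (h.mem v).1 hv
      exact ⟨p' m, (h'.mem _).2 ⟨m, rfl⟩, hg m⟩
  · simp [L1, h.zero t ht]
  · simpa [L1] using h.pos v hv hv'
  · simpa [L2] using h'.pos w hw hw'
  · obtain ⟨-, f0, f1⟩ := h.face X hX hTX
    have hV : ∀ v ∈ V, Sum.inl v ∉ X.image (Sum.inl : ι → ι ⊕ κ) → 0 < L (A X, τ X) (Sum.inl v) :=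
      fun v hv hz => f1 v hv fun hvX => hz (mem_image_of_mem _ hvX)
    refine isFace_of_fun ((image_subset_image hX.1).trans subset_union_left) (hmemQ (A X, τ X))
      (fun z hz => ?_) (fun z hz hzX => ?_)
    · obtain ⟨v, hv, rfl⟩ := mem_image.1 hz
      exact f0 v hv
    · rcases mem_union.1 hz with hz | hz
      · obtain ⟨v, hv, rfl⟩ := mem_image.1 hz
        exact hV v hv hzX
      · obtain ⟨w, hw, rfl⟩ := mem_image.1 hz
        by_cases hw' : w ∈ T'
        · obtain ⟨m, rfl⟩ := (h'.mem w).1 hw'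
          rw [hg] at hzX ⊢
          exact hV _ (h.sub ((h.mem _).2 ⟨m, rfl⟩)) hzX
        · rw [L2]
          exact hl1 X hX hTX w hw hw'
  · obtain ⟨-, f0, f1⟩ := h'.face Y hY hTY
    have hW : ∀ w ∈ W, g w ∉ Y.image g → 0 < L (A' Y, l * ∑ m, A' Y m - τ' Y) (g w) :=
      fun w hw hz => by
        rw [L2, sub_sub_cancel]
        exact f1 w hw fun hwY => hz (mem_image_of_mem _ hwY)
    refine isFace_of_fun ((image_subset_image hY.1).trans subset_union_right)
      (hmemQ (A' Y, l * ∑ m, A' Y m - τ' Y)) (fun z hz => ?_) (fun z hz hzY => ?_)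
    · obtain ⟨w, hw, rfl⟩ := mem_image.1 hz
      rw [L2, sub_sub_cancel]
      exact f0 w hw
    · rcases mem_union.1 hz with hz | hz
      · obtain ⟨v, hv, rfl⟩ := mem_image.1 hz
        by_cases hv' : v ∈ T
        · obtain ⟨m, rfl⟩ := (h.mem v).1 hv'
          rw [← hg] at hzY ⊢
          exact hW _ (h'.sub ((h'.mem _).2 ⟨m, rfl⟩)) hzY
        · rw [L1]
          exact hl2 Y hY hTY v hv hv'
      · obtain ⟨w, hw, rfl⟩ := mem_image.1 hz
        exact hW w hw hzY

end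

section


open Finset Module

namespace ADDx

/-- Gluing of two polytopes along simplex facets. -/
theorem glue (hGLA : S_GLA) {a b c d a' b' c' d' : ℕ} (h : SF a b c d) (h' : SF2 a' b' c' d') :
    ∃ a'' b'' c'' d'', SF a'' b'' c'' d'' ∧ a + a' = a'' + 4 ∧ b + b' = b'' + 6 ∧
      c + c' = c'' + 4 ∧ d + d' = d'' + 2 := by
  obtain ⟨ι, _, V, R, _, hP, hr, rfl, rfl, rfl, rfl, T, hT, hc⟩ := h
  obtain ⟨κ, _, W, S, _, hP', hr', rfl, rfl, rfl, rfl, T', hT', T'', hT'', hne, hc', hc''⟩ := h'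
  obtain ⟨Q, _, g, η, hQ, t1, t2, he, hη, η0, η1, η2, k1, k2⟩ :=
    hGLA ι κ V T W T' R S hr hr' hT hc hT' hc'
  obtain ⟨hTf, hTr⟩ := mem_faces.1 hT
  obtain ⟨hTf', hTr'⟩ := mem_faces.1 hT'
  obtain ⟨hTf'', hTr''⟩ := mem_faces.1 hT''
  set U : Finset (ι ⊕ κ) := V.image Sum.inl ∪ W.image g with hU
  have hPU : IsPoly U Q := by
    refine ⟨by simpa using k1 ∅ hP.empty fun h => by have := card_le_card h; simp [hc] at this,
      fun w hw => ?_⟩
    rcases mem_union.1 hw with hw | hw <;> obtain ⟨v, hv, rfl⟩ := mem_image.1 hw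
    · simpa using k1 {v} (hP.single v hv) fun h => by have := card_le_card h; simp [hc] at this
    · simpa using k2 {v} (hP'.single v hv) fun h => by have := card_le_card h; simp [hc'] at this
  have hrU : rk Q U = 5 := by
    have h1 := rk_add (R := Q) U
    have h2 : rk Q (V.image Sum.inl) ≤ rk Q U := rk_mono subset_union_left
    rw [t1.rk_eq subset_rfl] at h2
    omega
  have z2 : ∀ w ∈ T', η (g w) = 0 := fun w hw => by
    obtain ⟨t, ht, e⟩ := mem_image.1 (he ▸ mem_image_of_mem g hw)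
    rw [← e, η0 t ht]
  obtain ⟨y, hy, hyT⟩ := exists_of_ssubset (lt_of_le_of_ne hTf.1
    (by intro he; rw [he] at hTr; omega) : T ⊂ V)
  obtain ⟨y', hy', hyT'⟩ := exists_of_ssubset (lt_of_le_of_ne hTf'.1
    (by intro he; rw [he] at hTr'; omega) : T' ⊂ W)
  have hcut : Cut U Q (T.image Sum.inl) η := by
    refine ⟨(image_subset_image hTf.1).trans subset_union_left,
      by rw [card_image_of_injective _ Sum.inl_injective, hc], fun w hw => ?_, hη, fun w hw => ?_,
      ⟨_, mem_union_left _ (mem_image_of_mem _ hy), η1 y hy hyT⟩,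
      ⟨_, mem_union_right _ (mem_image_of_mem _ hy'), η2 y' hy' hyT'⟩⟩
    · obtain ⟨t, ht, rfl⟩ := mem_image.1 hw
      rw [← image_erase Sum.inl_injective]
      exact k1 _ (hTf.of_indep (by omega) (erase_subset t T)) fun h => notMem_erase t T (h ht)
    · obtain ⟨t, ht, rfl⟩ := mem_image.1 hw
      exact η0 t ht
  have hs1 : side U η = V.image Sum.inl := by
    ext w
    rw [mem_side]
    constructor
    · rintro ⟨a1, a2⟩
      refine (mem_union.1 a1).elim id fun a1 => ?_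
      obtain ⟨v, hv, rfl⟩ := mem_image.1 a1
      exact image_subset_image hTf.1
        (he ▸ mem_image_of_mem g (by_contra fun h => (η2 v hv h).not_ge a2))
    · intro hw
      refine ⟨mem_union_left _ hw, ?_⟩
      obtain ⟨v, hv, rfl⟩ := mem_image.1 hw
      by_cases h : v ∈ T
      exacts [(η0 v h).ge, (η1 v hv h).le]
  have hs2 : side U (-η) = W.image g := by
    ext w
    rw [mem_side, Pi.neg_apply, neg_nonneg]
    constructor
    · rintro ⟨a1, a2⟩
      refine (mem_union.1 a1).elim (fun a1 => ?_) id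
      obtain ⟨v, hv, rfl⟩ := mem_image.1 a1
      exact image_subset_image hTf'.1
        (he ▸ mem_image_of_mem _ (by_contra fun h => (η1 v hv h).not_ge a2))
    · intro hw
      refine ⟨mem_union_right _ hw, ?_⟩
      obtain ⟨v, hv, rfl⟩ := mem_image.1 hw
      by_cases h : v ∈ T'
      exacts [(z2 v h).le, (η2 v hv h).le]
  have cnt : ∀ k ≤ 4, (faces V R k).card + (faces W S k).card =
      (faces U Q k).card + Nat.choose 4 k + (if k = 4 then 1 else 0) := fun k hk => by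
    have := hcut.card_faces hPU hrU hk
    rwa [hs1, hs2, t1.card_faces, t2.card_faces] at this
  have c1 := cnt 1 (by omega)
  have c2 := cnt 2 (by omega)
  have c3 := cnt 3 (by omega)
  have c4 := cnt 4 (by omega)
  rw [hP.card_faces_one, hP'.card_faces_one, hPU.card_faces_one] at c1
  norm_num [Nat.choose] at c1 c2 c3 c4
  refine ⟨_, _, _, _, ⟨_, inferInstance, U, Q, inferInstance, hPU, hrU, rfl, rfl, rfl, rfl,
    T''.image g, mem_faces.2 ⟨k2 _ hTf'' fun h => hne (eq_of_subset_of_card_le h (by omega)),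
      by rw [t2.rk_eq hTf''.1, hTr'']⟩, ?_⟩, c1, c2, c3, by omega⟩
  rw [card_image_of_injOn (t2.inj.mono (coe_subset.2 hTf''.1)), hc'']

end ADDx

theorem p_ADD (hGLA : S_GLA) :
    S_ADD := by
  rintro h j K h' j' K' ⟨a, b, c, d, hs, h1, h2, h3⟩ ⟨a', b', c', d', hs', h1', h2', h3'⟩
  obtain ⟨a'', b'', c'', d'', H, e1, e2, e3, e4⟩ := ADDx.glue hGLA hs hs'.stack.2
  exact ⟨a'', b'', c'', d'', H, by omega, by omega, by omega⟩

end

section


open Finset Module

theorem p_GST :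
    S_GST := by
  intro ι _ V R _ hP hr T hT
  obtain ⟨hTf, hTr⟩ := mem_faces.1 hT
  have hT' : 4 ≤ T.card := hTr ▸ rk_le_card T
  have hTne : T.Nonempty := card_pos.1 (by omega)
  have hex : ∀ X : Finset ι, ∃ φ ∈ R, IsFace V R X →
      (∀ v ∈ X, φ v = 0) ∧ ∀ v ∈ V, v ∉ X → 0 < φ v := by
    intro X
    by_cases h : IsFace V R X
    · obtain ⟨φ, hφ, h1⟩ := h.exists_fun
      exact ⟨φ, hφ, fun _ => h1⟩
    · exact ⟨0, R.zero_mem, fun h' => absurd h' h⟩
  choose a ha hfun using hex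
  obtain ⟨ε, hε, hpert⟩ := exists_pert V.powerset (fun X => ∑ t ∈ T, a X t)
    (fun X => -∑ v ∈ V, a X v)
  let L : (ι → ℝ) →ₗ[ℝ] (Option ι → ℝ) :=
    { toFun := fun φ o => o.elim (∑ t ∈ T, φ t + ε * -∑ v ∈ V, φ v) φ
      map_add' := fun φ ψ => by
        funext o; cases o <;> simp [sum_add_distrib]; ring
      map_smul' := fun s φ => by
        funext o; cases o <;> simp [← mul_sum]; ring }
  have Ls : ∀ φ v, L φ (some v) = φ v := fun _ _ => rfl
  have Ln : ∀ φ, L φ none = ∑ t ∈ T, φ t + ε * -∑ v ∈ V, φ v := fun _ => rfl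
  have hTr' : Transp V R (R.map L) some (fun _ => 1) :=
    ⟨fun _ _ _ _ h => Option.some_injective _ h, fun _ _ => one_pos,
      fun φ hφ => ⟨L φ, Submodule.mem_map_of_mem hφ, fun v _ => by simp [Ls]⟩,
      by rintro _ ⟨φ, hφ, rfl⟩; exact ⟨φ, hφ, fun v _ => by simp [Ls]⟩⟩
  set W : Finset (Option ι) := insert none (V.image some) with hW
  have hpos : ∀ X, IsFace V R X → ¬ T ⊆ X → 0 < L (a X) none := by
    intro X hX hTX
    obtain ⟨a1, a2⟩ := hfun X hX
    rw [Ln]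
    refine (hpert X (mem_powerset.2 hX.1)).1 ?_
    obtain ⟨t, ht, htX⟩ := not_subset.1 hTX
    refine sum_pos' (fun s hs => ?_) ⟨t, ht, a2 t (hTf.1 ht) htX⟩
    by_cases h : s ∈ X
    · exact (a1 s h).ge
    · exact (a2 s (hTf.1 hs) h).le
  have hkeep : ∀ X, IsFace V R X → ¬ T ⊆ X → IsFace W (R.map L) (X.image some) := by
    intro X hX hTX
    obtain ⟨a1, a2⟩ := hfun X hX
    refine isFace_of_fun ((image_subset_image hX.1).trans (subset_insert _ _))
      (Submodule.mem_map_of_mem (ha X)) (fun w hw => ?_) (fun w hw hwX => ?_)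
    · obtain ⟨v, hv, rfl⟩ := mem_image.1 hw
      exact a1 v hv
    · rcases mem_insert.1 hw with rfl | hw
      · exact hpos X hX hTX
      · obtain ⟨v, hv, rfl⟩ := mem_image.1 hw
        exact a2 v hv (fun h => hwX (mem_image_of_mem _ h))
  obtain ⟨η0, η1⟩ := hfun T hTf
  have ηnn : ∀ v ∈ V, 0 ≤ a T v := fun v hv => by
    by_cases h : v ∈ T
    · exact (η0 v h).ge
    · exact (η1 v hv h).le
  obtain ⟨y, hy, hyT⟩ := exists_of_ssubset (lt_of_le_of_ne hTf.1
    (by intro he; rw [he] at hTr; omega) : T ⊂ V)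
  have ηn : L (a T) none < 0 := by
    rw [Ln, sum_eq_zero η0]
    have : 0 < ∑ v ∈ V, a T v := sum_pos' ηnn ⟨y, hy, η1 y hy hyT⟩
    nlinarith
  have hE := hkeep ∅ hP.empty (fun h => hTne.ne_empty (subset_empty.1 h))
  rw [image_empty] at hE
  have hPW : IsPoly W (R.map L) := by
    refine ⟨hE, fun w hw => ?_⟩
    rcases mem_insert.1 hw with rfl | hw
    · obtain ⟨ψ, hψ, _, b2⟩ := hE.exists_fun
      have b3 := b2 none hw (notMem_empty _)
      refine isFace_of_fun (singleton_subset_iff.2 hw) (φ := ψ none • L (a T) - L (a T) none • ψ)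
        (Submodule.sub_mem _ (Submodule.smul_mem _ _ (Submodule.mem_map_of_mem (ha T)))
          (Submodule.smul_mem _ _ hψ)) (by simp [mul_comm]) (fun w hw hw' => ?_)
      have b4 := b2 w hw (notMem_empty _)
      rcases mem_insert.1 hw with rfl | hw
      · simp at hw'
      · obtain ⟨v, hv, rfl⟩ := mem_image.1 hw
        have := ηnn v hv
        simp only [Pi.sub_apply, Pi.smul_apply, smul_eq_mul, Ls]
        nlinarith [mul_nonneg b3.le this, mul_pos (neg_pos.2 ηn) b4]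
    · obtain ⟨v, hv, rfl⟩ := mem_image.1 hw
      have := hkeep {v} (hP.single v hv) (fun h => by
        have := card_le_card h; rw [card_singleton] at this; omega)
      rwa [image_singleton] at this
  have hrV : rk (R.map L) (V.image some) = 5 := by rw [hTr'.rk_eq subset_rfl, hr]
  have hrW : rk (R.map L) W = 5 := by
    apply le_antisymm
    · rw [← hrV]
      apply rk_le_of_spans
      rintro _ ⟨φ, hφ, rfl⟩ hz w hw
      have hz' : ∀ v ∈ V, φ v = 0 := fun v hv => hz (some v) (mem_image_of_mem _ hv)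
      rcases mem_insert.1 hw with rfl | hw
      · rw [Ln, sum_eq_zero (fun t ht => hz' t (hTf.1 ht)), sum_eq_zero hz']; simp
      · exact hz w hw
    · rw [← hrV]; exact rk_mono (subset_insert _ _)
  refine ⟨R.map L, inferInstance, hPW, hrW, hTr', fun X hX hTX => ⟨hkeep X hX hTX, fun hXT => ?_⟩⟩
  obtain ⟨a1, a2⟩ := hfun X hX
  have hp := hpos X hX hTX
  refine isFace_of_fun (insert_subset_insert _ (image_subset_image hX.1))
    (φ := L (a X) none • L (a T) - L (a T) none • L (a X))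
    (Submodule.sub_mem _ (Submodule.smul_mem _ _ (Submodule.mem_map_of_mem (ha T)))
      (Submodule.smul_mem _ _ (Submodule.mem_map_of_mem (ha X)))) (fun w hw => ?_)
    (fun w hw hw' => ?_)
  · rcases mem_insert.1 hw with rfl | hw
    · simp [mul_comm]
    · obtain ⟨v, hv, rfl⟩ := mem_image.1 hw
      simp [Ls, a1 v hv, η0 v (hXT hv)]
  · rcases mem_insert.1 hw with rfl | hw
    · exact absurd (mem_insert_self _ _) hw'
    · obtain ⟨v, hv, rfl⟩ := mem_image.1 hw
      have k1 := ηnn v hv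
      have k2 := a2 v hv (fun h => hw' (mem_insert_of_mem (mem_image_of_mem _ h)))
      simp only [Pi.sub_apply, Pi.smul_apply, smul_eq_mul, Ls]
      nlinarith [mul_nonneg hp.le k1, mul_pos (neg_pos.2 ηn) k2]

end

section


open Finset Module

namespace GS2x

lemma step (hGST : S_GST) {ι : Type} [DecidableEq ι] {V : Finset ι} {R : Submodule ℝ (ι → ℝ)}
    [FiniteDimensional ℝ R] (hP : IsPoly V R) (hr : rk R V = 5) {F : Finset ι}
    (hF : F ∈ faces V R 4) :
    ∃ (Q : Submodule ℝ (Option ι → ℝ)) (_ : FiniteDimensional ℝ Q),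
      IsPoly (insert none (V.image some)) Q ∧ rk Q (insert none (V.image some)) = 5 ∧
      (insert none (V.image some)).card = V.card + 1 ∧
      (faces V R 2).card ≤ (faces (insert none (V.image some)) Q 2).card ∧
      (faces (insert none (V.image some)) Q 4).card ≤ (faces V R 4).card + 2 * V.card ∧
      ∀ X k, X ∈ faces V R k → k < 4 → X ⊆ F →
        insert none (X.image some) ∈ faces (insert none (V.image some)) Q (k + 1) ∧
        (insert none (X.image some)).card = X.card + 1 := by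
  obtain ⟨Q, hQ, hP', hr', hT, hX⟩ := hGST ι V R hP hr F hF
  obtain ⟨hF1, hF2⟩ := mem_faces.1 hF
  have hn : ∀ X : Finset ι, (none : Option ι) ∉ X.image some := fun X => by simp
  have hc : ∀ X : Finset ι, (insert none (X.image some)).card = X.card + 1 := fun X => by
    rw [card_insert_of_notMem (hn X), card_image_of_injective _ (Option.some_injective ι)]
  have hlow : ∀ X k, X ∈ faces V R k → k < 4 → ¬ F ⊆ X := fun X k h hk hs => by
    have h1 := rk_mono (R := R) hs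
    have h2 := (mem_faces.1 h).2
    omega
  refine ⟨Q, hQ, hP', hr', hc V, ?_, ?_, fun X k h hk hs => ⟨?_, hc X⟩⟩
  · refine card_le_card_of_injOn (fun X => X.image some) (fun X h => ?_) (fun X _ Y _ he => ?_)
    · have h' : X ∈ faces V R 2 := h
      obtain ⟨h1, h2⟩ := mem_faces.1 h'
      exact mem_coe.2 (mem_faces.2 ⟨(hX X h1 (hlow X 2 h' (by omega))).1, by
        rw [hT.rk_eq h1.1, h2]⟩)
    · exact image_injective (Option.some_injective ι) he
  · have h1 := card_filter_add_card_filter_not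
      (s := faces (insert none (V.image some)) Q 4) (fun X => none ∈ X)
    have hm : (none : Option ι) ∈ insert none (V.image some) := mem_insert_self _ _
    have h2 := hP'.fig_card hm 3
    have h3 := hP'.fig_rk_top hm
    have : FiniteDimensional ℝ (K Q {none}) :=
      Submodule.finiteDimensional_of_le (K_le Q {none})
    have h4 := (steinitz (hP'.fig hm) (by omega)).2.2
    have h5 : (nbr (insert none (V.image some)) Q none).card ≤ V.card := by
      refine le_trans (card_le_card (t := V.image some) (fun w hw => ?_)) card_image_le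
      obtain ⟨a1, a2, -⟩ := mem_nbr.1 hw
      exact (mem_insert.1 a1).resolve_left a2
    have h6 : ((faces (insert none (V.image some)) Q 4).filter (fun X => ¬ none ∈ X)).card ≤
        (faces V R 4).card := by
      rw [← hT.card_faces 4]
      refine card_le_card (fun Y hY => ?_)
      obtain ⟨a1, a2⟩ := mem_filter.1 hY
      obtain ⟨b1, b2⟩ := mem_faces.1 a1
      refine mem_faces.2 ⟨b1.sub (subset_insert _ _) (fun y hy => ?_), b2⟩
      exact (mem_insert.1 (b1.1 hy)).resolve_left (fun h => a2 (h ▸ hy))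
    norm_num at h2 h1 h6 ⊢
    omega
  · obtain ⟨h1, h2⟩ := mem_faces.1 h
    obtain ⟨a1, a2⟩ := hX X h1 (hlow X k h hk)
    refine mem_faces.2 ⟨a2 hs, ?_⟩
    rw [a1.rk_insert (mem_insert_self _ _) (hn X), hT.rk_eq h1.1, h2]

end GS2x

theorem p_GS2 (hGST : S_GST) :
    S_GS2 := by
  rintro a b c d ⟨ι, _, V, R, _, hP, hr, rfl, rfl, rfl, rfl⟩
  obtain ⟨e, e1, -, -, e2⟩ := hP.empty.exists_between (isFace_self V R) (empty_subset _) (r := 2)
    (by rw [rk_empty]; omega) (by omega)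
  obtain ⟨s, s1, es, -, s2⟩ := e1.exists_between (isFace_self V R) e1.1 (r := 3)
    (by omega) (by omega)
  obtain ⟨F, F1, sF, -, F2⟩ := s1.exists_between (isFace_self V R) s1.1 (r := 4)
    (by omega) (by omega)
  obtain ⟨Q, hQ, hP1, hr1, c1, b1, d1, k1⟩ := GS2x.step hGST hP hr (mem_faces.2 ⟨F1, F2⟩)
  obtain ⟨G1, -⟩ := k1 s 3 (mem_faces.2 ⟨s1, s2⟩) (by omega) sF
  obtain ⟨t1, t2⟩ := k1 e 2 (mem_faces.2 ⟨e1, e2⟩) (by omega) (es.trans sF)
  rw [hP.card_of_rk_two e1.1 e2] at t2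
  obtain ⟨Q', hQ', hP2, hr2, c2, b2, d2, k2⟩ := GS2x.step hGST hP1 hr1 G1
  obtain ⟨u1, u2⟩ := k2 _ 3 t1 (by omega) (insert_subset_insert _ (image_subset_image es))
  refine ⟨_, _, _, ⟨_, inferInstance, _, Q', hQ', hP2, hr2, by omega, rfl, rfl, rfl, _, u1,
    by omega⟩, by omega, by omega⟩

end

section


open Finset Module

namespace PYRx

def R : Submodule ℝ (Fin 6 → ℝ) where
  carrier := {φ | φ 0 + φ 1 = φ 2 + φ 3}
  add_mem' := fun {a b} ha hb => by
    simp only [Set.mem_ofPred_eq, Pi.add_apply] at *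
    linarith
  zero_mem' := by simp
  smul_mem' := fun c a ha => by
    simp only [Set.mem_ofPred_eq, Pi.smul_apply, smul_eq_mul] at *
    rw [← mul_add, ← mul_add, ha]

lemma mem {φ : Fin 6 → ℝ} : φ ∈ R ↔ φ 0 + φ 1 = φ 2 + φ 3 := Iff.rfl

lemma face (X : Finset (Fin 6)) : IsFace univ R X ↔ ((0 ∈ X ∧ 1 ∈ X) ↔ (2 ∈ X ∧ 3 ∈ X)) := by
  constructor
  · rintro ⟨-, φ, hφ, h1, h2⟩
    rw [mem] at hφ
    have a0 := h1 0 (mem_univ _)
    have a1 := h1 1 (mem_univ _)
    have a2 := h1 2 (mem_univ _)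
    have a3 := h1 3 (mem_univ _)
    simp only [← h2 _ (mem_univ _)]
    constructor <;> rintro ⟨b, c⟩ <;> constructor <;> linarith
  · intro h
    let w : Fin 6 → ℝ := ![if 1 ∈ X then 2 else 1, if 0 ∈ X then 2 else 1,
      if 3 ∈ X then 2 else 1, if 2 ∈ X then 2 else 1, 1, 1]
    refine isFace_of_fun (subset_univ _) (φ := fun v => if v ∈ X then 0 else w v) ?_
      (fun v hv => if_pos hv) (fun v _ hv => ?_)
    · rw [mem]
      by_cases b0 : 0 ∈ X <;> by_cases b1 : 1 ∈ X <;> by_cases b2 : 2 ∈ X <;> by_cases b3 : 3 ∈ X <;>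
        simp [b0, b1, b2, b3, w] at h ⊢ <;> norm_num
    · simp only [if_neg hv]
      fin_cases v <;> simp only [w] <;> simp <;> split_ifs <;> norm_num

lemma indep (X : Finset (Fin 6)) (h : ¬ (0 ∈ X ∧ 1 ∈ X ∧ 2 ∈ X ∧ 3 ∈ X)) : Indep R X := by
  let s : Fin 6 → ℝ := ![1, 1, -1, -1, 0, 0]
  obtain ⟨m, hm, hs⟩ : ∃ m, m ∉ X ∧ s m * s m = 1 := by
    simp only [not_and_or] at h
    rcases h with h | h | h | h <;> exact ⟨_, h, by simp [s]⟩
  intro b hb
  have hne : b ≠ m := fun e => hm (e ▸ hb)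
  refine ⟨Pi.single b 1 - Pi.single m (s b * s m), ?_, by simp [Pi.single_eq_of_ne hne], ?_⟩
  · rw [mem]
    fin_cases b <;> fin_cases m <;> simp [s] at hs hne ⊢
  · intro b' hb' h'
    have : b' ≠ m := fun e => hm (e ▸ hb')
    simp [Pi.single_eq_of_ne h', Pi.single_eq_of_ne this]

lemma rank (X : Finset (Fin 6)) :
    rk R X = if 0 ∈ X ∧ 1 ∈ X ∧ 2 ∈ X ∧ 3 ∈ X then X.card - 1 else X.card := by
  split_ifs with h
  · rw [← card_erase_of_mem h.1, ← (indep (X.erase 0) fun c => notMem_erase _ _ c.1).rk_eq]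
    refine le_antisymm (rk_le_of_spans fun φ hφ hz y hy => ?_) (rk_mono (erase_subset _ _))
    by_cases e : y = 0
    · have a1 := hz 1 (mem_erase.2 ⟨by decide, h.2.1⟩)
      have a2 := hz 2 (mem_erase.2 ⟨by decide, h.2.2.1⟩)
      have a3 := hz 3 (mem_erase.2 ⟨by decide, h.2.2.2⟩)
      rw [mem] at hφ
      rw [e]
      linarith
    · exact hz y (mem_erase.2 ⟨e, hy⟩)
  · exact (indep X h).rk_eq

lemma fcs (k : ℕ) : faces univ R k = univ.filter fun X : Finset (Fin 6) =>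
    ((0 ∈ X ∧ 1 ∈ X) ↔ (2 ∈ X ∧ 3 ∈ X)) ∧
      (if 0 ∈ X ∧ 1 ∈ X ∧ 2 ∈ X ∧ 3 ∈ X then X.card - 1 else X.card) = k := by
  ext X
  rw [mem_faces, face, rank, mem_filter]
  simp only [mem_univ, true_and]

end PYRx

open PYRx in
theorem p_PYR :
    S_PYR := by
  refine ⟨6, 13, 13, 6, ?_, rfl, rfl, rfl⟩
  refine ⟨Fin 6, inferInstance, univ, R, inferInstance, ⟨(face _).2 (by decide), fun v _ =>
    (face _).2 (by revert v; decide)⟩, by rw [rank]; decide, by decide, ?_, ?_, ?_, {0, 2, 4, 5}, ?_,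
    by decide⟩ <;> rw [fcs] <;> decide +kernel

end

end Pool.Agent.P.MP_af6acb_co.Reg
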