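import Pool.Agent.P.MP_af6acb_co.Real

/-!
Definitions and basic facts for the determination of the f-vectors of fatness below ten.
-/

set_option linter.unusedSectionVars false
set_option linter.unusedVariables false

namespace Pool.Agent.P.MP_af6acb_co.Reg

open Finset Module

/-- There is a polytopal configuration with the given f-vector. -/
def Conf (a b c d : ℕ) : Prop :=
  ∃ (ι : Type) (_ : DecidableEq ι) (V : Finset ι) (R : Submodule ℝ (ι → ℝ))
    (_ : FiniteDimensional ℝ R), IsPoly V R ∧ rk R V = 5 ∧ V.card = a ∧ (faces V R 2).card = b ∧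
      (faces V R 3).card = c ∧ (faces V R 4).card = d

/-- The same, with a simplex facet. -/
def SF (a b c d : ℕ) : Prop :=
  ∃ (ι : Type) (_ : DecidableEq ι) (V : Finset ι) (R : Submodule ℝ (ι → ℝ))
    (_ : FiniteDimensional ℝ R), IsPoly V R ∧ rk R V = 5 ∧ V.card = a ∧ (faces V R 2).card = b ∧
      (faces V R 3).card = c ∧ (faces V R 4).card = d ∧ ∃ T ∈ faces V R 4, T.card = 4

/-- The same, with two simplex facets. -/
def SF2 (a b c d : ℕ) : Prop :=
  ∃ (ι : Type) (_ : DecidableEq ι) (V : Finset ι) (R : Submodule ℝ (ι → ℝ))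
    (_ : FiniteDimensional ℝ R), IsPoly V R ∧ rk R V = 5 ∧ V.card = a ∧ (faces V R 2).card = b ∧
      (faces V R 3).card = c ∧ (faces V R 4).card = d ∧
      ∃ T ∈ faces V R 4, ∃ T' ∈ faces V R 4, T ≠ T' ∧ T.card = 4 ∧ T'.card = 4

/-- A polytope with a simplex facet in the coordinates `h`, `j = f_2 - 2 f_3`,
`K = f_1 - 2 f_0 + 4`, which are additive under gluing. -/
def Hat (h j K : ℕ) : Prop :=
  ∃ a b c d : ℕ, SF a b c d ∧ c = j + 2 * d ∧ b + 4 = K + 2 * a ∧
    2 * (b + c) + 10 = h + 5 * (a + d)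

section defs

variable {ι : Type} [DecidableEq ι]

/-- The 2-faces with at least four vertices. -/
noncomputable def big (V : Finset ι) (R : Submodule ℝ (ι → ℝ)) : Finset (Finset ι) :=
  (faces V R 3).filter (fun σ => 4 ≤ σ.card)

/-- The facets with six vertices. -/
noncomputable def pr (V : Finset ι) (R : Submodule ℝ (ι → ℝ)) : Finset (Finset ι) :=
  (faces V R 4).filter (fun F => F.card = 6)

/-- The facets with six vertices that meet `A` in a big 2-face. -/
noncomputable def adj (V : Finset ι) (R : Submodule ℝ (ι → ℝ)) (A : Finset ι) :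
    Finset (Finset ι) :=
  (pr V R).filter (fun B => B ≠ A ∧ A ∩ B ∈ big V R)

/-- The number of members of `P` containing `v`. -/
def mult (P : Finset (Finset ι)) (v : ι) : ℕ := (P.filter (fun A => v ∈ A)).card

/-- The number of neighbours of `v` in the union of the facets with six vertices. -/
noncomputable def dg (V : Finset ι) (R : Submodule ℝ (ι → ℝ)) (v : ι) : ℕ :=
  (nbr V R v ∩ (pr V R).biUnion id).card

/-- All facets are tetrahedra except six, which have six vertices and five 2-faces. -/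
structure Six (V : Finset ι) (R : Submodule ℝ (ι → ℝ)) : Prop where
  poly : IsPoly V R
  top : rk R V = 5
  fac : ∀ F ∈ faces V R 4, F.card = 4 ∨ (F.card = 6 ∧ (faces F R 3).card = 5)
  six : (pr V R).card = 6

end defs

section small

variable {ι : Type} [DecidableEq ι] {R : Submodule ℝ (ι → ℝ)} {V : Finset ι}
  [FiniteDimensional ℝ R]

lemma three_le_card {σ : Finset ι} (h : σ ∈ faces V R 3) : 3 ≤ σ.card :=
  (mem_faces.1 h).2 ▸ rk_le_card σ

/-- Vertices and 2-faces of a 3-polytope. -/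
lemma steinitz (hP : IsPoly V R) (hr : rk R V = 4) :
    4 ≤ V.card ∧ V.card + 4 ≤ 2 * (faces V R 3).card ∧ (faces V R 3).card + 4 ≤ 2 * V.card := by
  have h1 := hP.euler hr
  have h2 := hP.sum_card_rk_four hr
  have h3 := card_nsmul_le_sum V _ 3 (fun v hv => three_le_nbr hP hr hv)
  have h4 := card_nsmul_le_sum (faces V R 3) _ 3 (fun σ hσ => three_le_card hσ)
  have h5 := rk_le_card (R := R) V
  simp only [smul_eq_mul] at h3 h4
  omega

lemma sum_ridges (hr : rk R V = 5) :
    ∑ F ∈ faces V R 4, (faces F R 3).card = 2 * (faces V R 3).card := by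
  rw [sum_congr rfl (fun F _ => card_eq_sum_ones (faces F R 3)), sum_facets_ridges hr,
    card_eq_sum_ones]

lemma big_sub {F : Finset ι} (hF : IsFace V R F) : big F R = (big V R).filter (fun σ => σ ⊆ F) := by
  rw [big, big, faces_sub hF, filter_comm]

/-- The second facet through a ridge. -/
lemma exists_other {k : ℕ} (hr : rk R V = k + 2) {F σ : Finset ι} (hF : F ∈ faces V R (k + 1))
    (hσ : σ ∈ faces V R k) (h : σ ⊆ F) :
    ∃ G ∈ faces V R (k + 1), G ≠ F ∧ F ∩ G = σ ∧
      ∀ H ∈ faces V R (k + 1), σ ⊆ H → H = F ∨ H = G := by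
  obtain ⟨h1, h2⟩ := mem_faces.1 hσ
  have h3 := card_facets_of_ridge h1 (by omega)
  rw [h2] at h3
  obtain ⟨A, B, hAB, he⟩ := card_eq_two.1 h3
  have hm : ∀ H, (H ∈ faces V R (k + 1) ∧ σ ⊆ H) ↔ (H = A ∨ H = B) := fun H => by
    rw [← mem_filter, he]; simp
  have key : ∀ G ∈ faces V R (k + 1), G ≠ F → σ ⊆ G → F ∩ G = σ := fun G hG hne hs => by
    obtain ⟨a1, a2⟩ := mem_faces.1 hF
    obtain ⟨b1, b2⟩ := mem_faces.1 hG
    have := a1.rk_inter_lt b1 (by omega) hne.symm
    exact (h1.eq_of_rk_le (subset_inter h hs) (inter_subset_left.trans a1.1) (by omega)).symm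
  obtain ⟨a1, a2⟩ := (hm A).2 (Or.inl rfl)
  obtain ⟨b1, b2⟩ := (hm B).2 (Or.inr rfl)
  rcases (hm F).1 ⟨hF, h⟩ with rfl | rfl
  · exact ⟨B, b1, hAB.symm, key B b1 hAB.symm b2, fun H hH hs => (hm H).1 ⟨hH, hs⟩⟩
  · exact ⟨A, a1, hAB, key A a1 hAB a2, fun H hH hs => ((hm H).1 ⟨hH, hs⟩).symm⟩

end small

lemma SF.conf {a b c d : ℕ} (h : SF a b c d) : Conf a b c d := by
  obtain ⟨ι, _, V, R, _, hP, hr, h1, h2, h3, h4, -⟩ := h
  exact ⟨ι, inferInstance, V, R, inferInstance, hP, hr, h1, h2, h3, h4⟩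

lemma sf_of_good {a b c d : ℕ} (h : Good a b c d) : SF a b c d := by
  obtain ⟨ι, _, V, R, _, hP, hr, h1, h2, h3, h4, h5, -⟩ := h
  exact ⟨ι, inferInstance, V, R, inferInstance, hP, hr, h1, h2, h3, h4, h5⟩

lemma Conf.euler {a b c d : ℕ} (h : Conf a b c d) : a + c = b + d := by
  obtain ⟨ι, _, V, R, _, hP, hr, rfl, rfl, rfl, rfl⟩ := h
  exact euler4 hP hr

lemma Conf.five_le {a b c d : ℕ} (h : Conf a b c d) : 5 ≤ a := by
  obtain ⟨ι, _, V, R, _, hP, hr, rfl, -⟩ := h
  exact hr ▸ rk_le_card V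

lemma Conf.dual {a b c d : ℕ} (h : Conf a b c d) : Conf d c b a := by
  obtain ⟨ι, _, V, R, _, hP, hr, h1, h2, h3, h4⟩ := h
  obtain ⟨R', _, hD⟩ := exists_dual (n := 4) hr
  exact ⟨_, inferInstance, faces V R 4, R', inferInstance, hD.poly, hD.rk_top hP, h4,
    by rw [hD.card_faces hr (j := 3) rfl, h3], by rw [hD.card_faces hr (j := 2) rfl, h2],
    by rw [hD.card_faces hr (j := 1) rfl, hP.card_faces_one, h1]⟩

lemma Conf.fat {a b c d : ℕ} (h : Conf a b c d) : 5 * (a + d) ≤ 2 * (b + c) + 10 := by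
  obtain ⟨ι, _, V, R, _, hP, hr, rfl, rfl, rfl, rfl⟩ := h
  exact (fatness hP hr).1

lemma Conf.even {a b c d : ℕ} (h : Conf a b c d) (h0 : 2 * (b + c) + 10 = 5 * (a + d)) :
    ∃ j, c = 2 * j := by
  obtain ⟨ι, _, V, R, _, hP, hr, rfl, rfl, rfl, rfl⟩ := h
  obtain ⟨i, j, -, -, h3, -⟩ := classify hP hr h0
  exact ⟨5 + 3 * i + 2 * j, by omega⟩

lemma mem_iff_conf (f : Fin 4 → ℤ) : f ∈ fVectors ↔
    ∃ a b c d : ℕ, Conf a b c d ∧ f 0 = a ∧ f 1 = b ∧ f 2 = c ∧ f 3 = d := by
  constructor
  · rintro ⟨P, hP, h⟩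
    obtain ⟨s, rfl, h1, h2⟩ := exists_conf hP
    have e0 := h 0
    have e1 := h 1
    have e2 := h 2
    have e3 := h 3
    rw [numFaces_hull] at e0 e1 e2 e3
    change f 0 = ((faces s Aff 1).card : ℤ) at e0
    rw [h1.card_faces_one] at e0
    exact ⟨_, _, _, _, ⟨E4, inferInstance, s, Aff, inferInstance, h1, h2, rfl, rfl, rfl, rfl⟩,
      e0, e1, e2, e3⟩
  · rintro ⟨a, b, c, d, ⟨ι, _, V, R, _, hP, hr, h1, h2, h3, h4⟩, e0, e1, e2, e3⟩
    obtain ⟨P, hP4, hn⟩ := exists_polytope hP hr
    refine ⟨P, hP4, fun k => ?_⟩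
    rw [hn]
    fin_cases k
    · simpa [hP.card_faces_one, h1] using e0
    · simpa [h2] using e1
    · simpa [h3] using e2
    · simpa [h4] using e3

lemma Hat.parity {h j K : ℕ} (H : Hat h j K) : (h + j + K) % 2 = 0 := by
  obtain ⟨a, b, c, d, hs, h1, h2, h3⟩ := H
  have := hs.conf.euler
  omega

lemma hat_bas (α β : ℕ) : Hat 0 (2 * α) (2 * β + 4) :=
  ⟨_, _, _, _, sf_of_good (good_all β α), by ring, by ring, by ring⟩

lemma SF.stack {a b c d : ℕ} (h : SF a b c d) :
    Good (a + 1) (b + 4) (c + 6) (d + 3) ∧ SF2 (a + 1) (b + 4) (c + 6) (d + 3) := by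
  obtain ⟨ι, _, V, R, _, hP, hr, h1, h2, h3, h4, T, hT, hT'⟩ := h
  obtain ⟨hTf, hTr⟩ := mem_faces.1 hT
  have hTne : T.Nonempty := card_pos.1 (by omega)
  have hex : ∀ X : Finset ι, ∃ φ ∈ R, IsFace V R X →
      (∀ v ∈ X, φ v = 0) ∧ ∀ v ∈ V, v ∉ X → 0 < φ v := by
    intro X
    by_cases h : IsFace V R X
    · obtain ⟨φ, hφ, h1⟩ := h.exists_fun
      exact ⟨φ, hφ, fun _ => h1⟩
    · exact ⟨0, R.zero_mem, fun h' => absurd h' h⟩
  choose a ha hfun using hex
  obtain ⟨ε, hε, hpert⟩ := exists_pert V.powerset (fun X => ∑ t ∈ T, a X t)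
    (fun X => -∑ v ∈ V, a X v)
  let L : (ι → ℝ) →ₗ[ℝ] (Option ι → ℝ) :=
    { toFun := fun φ o => o.elim (∑ t ∈ T, φ t + ε * -∑ v ∈ V, φ v) φ
      map_add' := fun φ ψ => by
        funext o; cases o <;> simp [sum_add_distrib]; ring
      map_smul' := fun s φ => by
        funext o; cases o <;> simp [← mul_sum]; ring }
  have Ls : ∀ φ v, L φ (some v) = φ v := fun _ _ => rfl
  have Ln : ∀ φ, L φ none = ∑ t ∈ T, φ t + ε * -∑ v ∈ V, φ v := fun _ => rfl
  have hTr' : Transp V R (R.map L) some (fun _ => 1) :=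
    ⟨fun _ _ _ _ h => Option.some_injective _ h, fun _ _ => one_pos,
      fun φ hφ => ⟨L φ, Submodule.mem_map_of_mem hφ, fun v _ => by simp [Ls]⟩,
      by rintro _ ⟨φ, hφ, rfl⟩; exact ⟨φ, hφ, fun v _ => by simp [Ls]⟩⟩
  set W : Finset (Option ι) := insert none (V.image some) with hW
  have hkeep : ∀ X, IsFace V R X → ¬ T ⊆ X → IsFace W (R.map L) (X.image some) := by
    intro X hX hTX
    obtain ⟨a1, a2⟩ := hfun X hX
    refine isFace_of_fun ((image_subset_image hX.1).trans (subset_insert _ _))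
      (Submodule.mem_map_of_mem (ha X)) (fun w hw => ?_) (fun w hw hwX => ?_)
    · obtain ⟨v, hv, rfl⟩ := mem_image.1 hw
      exact a1 v hv
    · rcases mem_insert.1 hw with rfl | hw
      · rw [Ln]
        refine (hpert X (mem_powerset.2 hX.1)).1 ?_
        obtain ⟨t, ht, htX⟩ := not_subset.1 hTX
        refine sum_pos' (fun s hs => ?_) ⟨t, ht, a2 t (hTf.1 ht) htX⟩
        by_cases h : s ∈ X
        · exact (a1 s h).ge
        · exact (a2 s (hTf.1 hs) h).le
      · obtain ⟨v, hv, rfl⟩ := mem_image.1 hw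
        exact a2 v hv (fun h => hwX (mem_image_of_mem _ h))
  obtain ⟨η0, η1⟩ := hfun T hTf
  have ηnn : ∀ v ∈ V, 0 ≤ a T v := fun v hv => by
    by_cases h : v ∈ T
    · exact (η0 v h).ge
    · exact (η1 v hv h).le
  obtain ⟨y, hy, hyT⟩ := exists_of_ssubset (lt_of_le_of_ne hTf.1
    (by intro he; rw [he] at hTr; omega) : T ⊂ V)
  have ηn : L (a T) none < 0 := by
    rw [Ln, sum_eq_zero η0]
    have : 0 < ∑ v ∈ V, a T v := sum_pos' ηnn ⟨y, hy, η1 y hy hyT⟩
    nlinarith
  have hE := hkeep ∅ hP.empty (fun h => hTne.ne_empty (subset_empty.1 h))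
  rw [image_empty] at hE
  have hPW : IsPoly W (R.map L) := by
    refine ⟨hE, fun w hw => ?_⟩
    rcases mem_insert.1 hw with rfl | hw
    · obtain ⟨ψ, hψ, _, b2⟩ := hE.exists_fun
      have b3 := b2 none hw (notMem_empty _)
      refine isFace_of_fun (singleton_subset_iff.2 hw) (φ := ψ none • L (a T) - L (a T) none • ψ)
        (Submodule.sub_mem _ (Submodule.smul_mem _ _ (Submodule.mem_map_of_mem (ha T)))
          (Submodule.smul_mem _ _ hψ)) (by simp [mul_comm]) (fun w hw hw' => ?_)
      have b4 := b2 w hw (notMem_empty _)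
      rcases mem_insert.1 hw with rfl | hw
      · simp at hw'
      · obtain ⟨v, hv, rfl⟩ := mem_image.1 hw
        have := ηnn v hv
        simp only [Pi.sub_apply, Pi.smul_apply, smul_eq_mul, Ls]
        nlinarith [mul_nonneg b3.le this, mul_pos (neg_pos.2 ηn) b4]
    · obtain ⟨v, hv, rfl⟩ := mem_image.1 hw
      have := hkeep {v} (hP.single v hv) (fun h => by
        have := card_le_card h; rw [card_singleton] at this; omega)
      rwa [image_singleton] at this
  have hrV : rk (R.map L) (V.image some) = 5 := by rw [hTr'.rk_eq subset_rfl, hr]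
  have hrW : rk (R.map L) W = 5 := by
    apply le_antisymm
    · rw [← hrV]
      apply rk_le_of_spans
      rintro _ ⟨φ, hφ, rfl⟩ hz w hw
      have hz' : ∀ v ∈ V, φ v = 0 := fun v hv => hz (some v) (mem_image_of_mem _ hv)
      rcases mem_insert.1 hw with rfl | hw
      · rw [Ln, sum_eq_zero (fun t ht => hz' t (hTf.1 ht)), sum_eq_zero hz']; simp
      · exact hz w hw
    · rw [← hrV]; exact rk_mono (subset_insert _ _)
  have hcT : (T.image some).card = 4 := by
    rw [card_image_of_injective _ (Option.some_injective _), hT']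
  have hcut : Cut W (R.map L) (T.image some) (L (a T)) := by
    refine ⟨(image_subset_image hTf.1).trans (subset_insert _ _), hcT, fun w hw => ?_,
      Submodule.mem_map_of_mem (ha T), fun w hw => ?_,
      ⟨some y, mem_insert_of_mem (mem_image_of_mem _ hy), η1 y hy hyT⟩,
      ⟨none, mem_insert_self _ _, ηn⟩⟩
    · obtain ⟨t, ht, rfl⟩ := mem_image.1 hw
      rw [← image_erase (Option.some_injective _)]
      exact hkeep _ (hTf.of_indep (by omega) (erase_subset t T))
        (fun h => notMem_erase t T (h ht))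
    · obtain ⟨t, ht, rfl⟩ := mem_image.1 hw
      exact η0 t ht
  have hs1 : side W (L (a T)) = V.image some := by
    ext w
    rw [mem_side]
    constructor
    · rintro ⟨k1, k2⟩
      rcases mem_insert.1 k1 with rfl | k1
      · linarith
      · exact k1
    · intro hw
      obtain ⟨v, hv, rfl⟩ := mem_image.1 hw
      exact ⟨mem_insert_of_mem hw, ηnn v hv⟩
  have hs2 : side W (-L (a T)) = insert none (T.image some) := by
    ext w
    rw [mem_side]
    constructor
    · rintro ⟨k1, k2⟩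
      rcases mem_insert.1 k1 with rfl | k1
      · exact mem_insert_self _ _
      · obtain ⟨v, hv, rfl⟩ := mem_image.1 k1
        refine mem_insert_of_mem (mem_image_of_mem _ ?_)
        by_contra h
        have := η1 v hv h
        simp only [Pi.neg_apply, Ls] at k2
        linarith
    · intro hw
      rcases mem_insert.1 hw with rfl | hw
      · exact ⟨mem_insert_self _ _, by simp only [Pi.neg_apply]; linarith⟩
      · exact ⟨hcut.sub hw, by simp [hcut.zero w hw]⟩
  have hnT : none ∉ T.image some := by simp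
  have hc5 : (insert none (T.image some)).card = 5 := by rw [card_insert_of_notMem hnT, hcT]
  have hi : Indep (R.map L) (insert none (T.image some)) := by
    apply indep_of_rk_eq
    rw [hc5, ← hs2, hcut.symm.rk_side hPW hrW]
  have cnt : ∀ k ≤ 4, (faces V R k).card + Nat.choose 5 k =
      (faces W (R.map L) k).card + Nat.choose 4 k + (if k = 4 then 1 else 0) := by
    intro k hk
    have := hcut.card_faces hPW hrW hk
    rwa [hs1, hs2, hTr'.card_faces, hi.faces_eq, card_powersetCard, hc5] at this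
  have c2 := cnt 2 (by omega)
  have c3 := cnt 3 (by omega)
  have c4 := cnt 4 (by omega)
  norm_num [Nat.choose] at c2 c3 c4
  have hfil : (faces W (R.map L) 4).filter (fun F => none ∈ F) =
      (powersetCard 4 (insert none (T.image some))).erase (T.image some) := by
    ext F
    rw [mem_filter, mem_erase, ← hi.faces_eq, mem_faces, mem_faces, ← hs2]
    constructor
    · rintro ⟨⟨k1, k2⟩, k3⟩
      refine ⟨by rintro rfl; exact hnT k3, ?_, k2⟩
      rcases hcut.sub_or hPW hrW k1 (by intro he; rw [he] at k2; omega) with k4 | k4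
      · rw [hs1] at k4
        simpa using k4 k3
      · exact k1.sub (side_subset _) k4
    · rintro ⟨k1, k2, k3⟩
      refine ⟨⟨hcut.symm.face_of_side hPW hrW k2 k1 (by
        intro he; rw [he, hcut.symm.rk_side hPW hrW] at k3; omega), k3⟩, ?_⟩
      by_contra hn
      apply k1
      have k4 : F ⊆ T.image some := fun w hw => by
        have := k2.1 hw
        rw [hs2] at this
        rcases mem_insert.1 this with rfl | h
        · exact absurd hw hn
        · exact h
      have k5 := rk_le_card (R := R.map L) F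
      exact eq_of_subset_of_card_le k4 (by omega)
  have hc4 : ((faces W (R.map L) 4).filter (fun F => none ∈ F)).card = 4 := by
    rw [hfil, card_erase_of_mem (mem_powersetCard.2 ⟨subset_insert _ _, hcT⟩), card_powersetCard,
      hc5]
    rfl
  obtain ⟨F, hF, G, hG, hFG⟩ := one_lt_card.1 (by omega :
    1 < ((faces W (R.map L) 4).filter (fun F => none ∈ F)).card)
  have hW1 : W.card = V.card + 1 := by
    rw [hW, card_insert_of_notMem (by simp), card_image_of_injective _ (Option.some_injective _)]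
  have hc : ∀ F ∈ (faces W (R.map L) 4).filter (fun F => none ∈ F), F.card = 4 := fun F hF => by
    rw [hfil] at hF
    exact (mem_powersetCard.1 (mem_erase.1 hF).2).2
  exact ⟨⟨Option ι, inferInstance, W, R.map L, inferInstance, hPW, hrW, by omega, by omega,
    by omega, by omega, ⟨F, (mem_filter.1 hF).1, hc F hF⟩, none, mem_insert_self _ _, hc4⟩,
    Option ι, inferInstance, W, R.map L, inferInstance, hPW, hrW, by omega, by omega,
    by omega, by omega, F, (mem_filter.1 hF).1, G, (mem_filter.1 hG).1, hFG, hc F hF, hc G hG⟩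

end Pool.Agent.P.MP_af6acb_co.Reg
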